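import Pool.Agent.P.MP_3555ad_an.Bd.Tiling

set_option autoImplicit false

namespace Pool.Agent.P.MP_3555ad_an.Bd

open Real Finset Filter Topology

/-- Hyperbolic centre. -/
noncomputable def hc (c : Cir) : ℂ := (c.τ + sv c.η)⁻¹ • c.ζ

lemma Ok.norm_hc {c : Cir} (h : Ok c) : ‖hc c‖ = ‖c.ζ‖ / (c.τ + sv c.η) := by
  have : 0 < c.τ + sv c.η := add_pos_of_pos_of_nonneg h.pos (Real.sqrt_nonneg _)
  rw [hc, norm_smul, Real.norm_eq_abs, abs_of_pos (inv_pos.2 this)]; ring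

lemma Ok.hc_lower {c : Cir} (h : Ok c) (h1 : 1 < c.η) : sv c.η / (2 * c.τ) ≤ 1 - ‖hc c‖ := by
  have hs := sv_pos h1
  have h2 := h.pos
  have h3 : sv c.η ≤ c.τ := le_of_sq_le_sq (by
    rw [sv_sq h1.le]; nlinarith [h.nrm', sq_nonneg ‖c.ζ‖]) h2.le
  rw [h.norm_hc, one_sub_div (by positivity)]
  exact div_le_div₀ (by linarith [h.norm_le]) (by linarith [h.norm_le]) (by positivity) (by linarith)

lemma Ok.hc_upper {c : Cir} (h : Ok c) (h1 : 1 < c.η) (h4 : sv c.η ≤ 1 / 2) (h5 : 1 ≤ c.τ) :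
    1 - ‖hc c‖ ≤ c.τ⁻¹ := by
  have hs := sv_pos h1
  have h2 := h.nrm'
  rw [← sv_sq h1.le] at h2
  have h3 : c.τ - ‖c.ζ‖ ≤ 1 / 2 := by nlinarith [h.norm_le, norm_nonneg c.ζ]
  rw [h.norm_hc, one_sub_div (by positivity), inv_eq_one_div]
  exact div_le_div₀ (by norm_num) (by linarith) (by positivity) (by linarith)

lemma Ok.hc_spec {c : Cir} (h : Ok c) (h1 : 1 < c.η) (w : ℂ) (hw : ‖w - cen c‖ = rad c) :
    ‖w - hc c‖ = (c.η - sv c.η) * ‖1 - (starRingEnd ℂ) (hc c) * w‖ := by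
  have hs := sv_pos h1
  have h2 := sv_sq h1.le
  have h3 := h.nrm
  have h4 := h.pos
  have h5 : sv c.η < c.η := lt_of_pow_lt_pow_left₀ 2 (by linarith) (by linarith)
  rw [← sq_eq_sq₀ (norm_nonneg _) h.rad_pos.le, ← ip_self] at hw
  rw [← sq_eq_sq₀ (norm_nonneg _) (mul_nonneg (by linarith) (norm_nonneg _)), mul_pow, ← ip_self,
    ← ip_self]
  obtain ⟨b, hb⟩ : ∃ b, b = (c.τ + c.η)⁻¹ := ⟨_, rfl⟩
  obtain ⟨k, hk⟩ : ∃ k, k = (c.τ + sv c.η)⁻¹ := ⟨_, rfl⟩
  have b1 : b * (c.τ + c.η) = 1 := by rw [hb]; field_simp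
  have k1 : k * (c.τ + sv c.η) = 1 := by rw [hk]; field_simp
  simp only [bb, ip, cen, rad, hc, ← hb, ← hk, Complex.sub_re, Complex.sub_im, Complex.smul_re,
    Complex.smul_im, smul_eq_mul, Complex.mul_re, Complex.mul_im, Complex.conj_re, Complex.conj_im,
    Complex.one_re, Complex.one_im] at h3 hw ⊢
  have e : (c.τ + c.η) * (w.re ^ 2 + w.im ^ 2) - 2 * (w.re * c.ζ.re + w.im * c.ζ.im) +
      (c.τ - c.η) = 0 := by grind
  grind

lemma norm_ex_sub (x y : ℝ) : ‖ex x - ex y‖ ≤ |x - y| := by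
  have : ex x - ex y = ex y * (ex (x - y) - 1) := by
    rw [mul_sub, ← ex_add]; simp
  rw [this, norm_mul, norm_ex, one_mul, ex, mul_comm]
  exact Real.norm_exp_I_mul_ofReal_sub_one_le


variable {η : ℕ → ℤ → ℝ} {U : ℕ → ℤ → Cir} {a : ℕ → ℤ → ℝ}

lemma hN_real : (10 : ℝ) ^ 90 ≤ hN := by exact_mod_cast hN_ge

lemma Pic.lowj {k : ℕ} {i : ℤ} {ω : ℂ} {φ : ℝ} (P : Pic η U k i ω φ) (h : Lab η) (L : Lay η U)
    {j n : ℕ} (hj : n ≤ j) (hj' : j + n ≤ mN k) :
    (n + 1) ^ 2 * (U k i).τ ≤ 17 * (U (k + 1) (i * M k + j)).τ := by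
  have hs := sv_pos (h.gt k i)
  have h1 := P.lo j (by omega)
  have h2 := P.lo' j (by omega)
  have c2 : (n : ℝ) ≤ j := by exact_mod_cast hj
  have c3 : (j : ℝ) + n ≤ mN k := by exact_mod_cast hj'
  have c0 : (0 : ℝ) ≤ n := Nat.cast_nonneg n
  obtain ⟨x, hx⟩ : ∃ x, x = (n + 1) * (sv (η k i) / (101 / 100)) / 2 := ⟨_, rfl⟩
  have s0 : 0 < sv (η k i) / (101 / 100) := by positivity
  have x0 : 0 ≤ x := by rw [hx]; positivity
  have x1 : 2 * x ≤ φ + fanS η k i (η k i) j := by rw [hx]; nlinarith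
  have x2 : φ + fanS η k i (η k i) j ≤ 2 * π - 2 * x := by rw [hx]; nlinarith
  have hp := Real.pi_le_four
  have hp' := Real.pi_pos
  have x3 : x / 4 ≤ sin x := by
    have h4 := Real.mul_le_sin x0 (by linarith)
    have h5 : 1 / 4 ≤ 2 / π := by rw [div_le_div_iff₀ (by norm_num) hp']; linarith
    nlinarith
  have x4 : sin x ≤ sin ((φ + fanS η k i (η k i) j) / 2) := by
    rcases le_total ((φ + fanS η k i (η k i) j) / 2) (π / 2) with h | h
    · exact Real.sin_le_sin_of_le_of_le_pi_div_two (by linarith) h (by linarith)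
    · rw [← Real.sin_pi_sub ((φ + fanS η k i (η k i) j) / 2)]
      exact Real.sin_le_sin_of_le_of_le_pi_div_two (by linarith) (by linarith) (by linarith)
  have := tau_lower (norm_nonneg _) (L.ok h k i).norm_le (h.one k i) (h.one _ _)
    (P.tau h L (j := j) (by omega)) (y := x / 4) (by positivity) (by linarith) (x3.trans x4)
  have hp := (L.ok h k i).pos
  refine le_of_mul_le_mul_right ?_ (pow_pos hs 2)
  have e : 0 ≤ (n + 1) ^ 2 * (U k i).τ * sv (η k i) ^ 2 := by positivity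
  rw [hx] at this
  nlinarith

lemma Pic.upj {k : ℕ} {i : ℤ} {ω : ℂ} {φ : ℝ} (P : Pic η U k i ω φ) (h : Lab η) (L : Lay η U)
    (h1 : 1 ≤ (U k i).τ) {j : ℕ} (hj' : j ≤ mN k) (hj : j ≤ 201 ∨ mN k ≤ j + 201) :
    (U (k + 1) (i * M k + j)).τ ≤ 300000 * (U k i).τ := by
  have hs := sv_pos (h.gt k i)
  have hss := h.sv_small k i
  have hc : 1 - 84050 * sv (η k i) ^ 2 ≤ cos (φ + fanS η k i (η k i) j) := by
    have key : ∀ x, 0 ≤ x → x ≤ 410 * sv (η k i) → 1 - 84050 * sv (η k i) ^ 2 ≤ cos x := by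
      intro x x0 x1
      have := Real.one_sub_sq_div_two_le_cos (x := x)
      nlinarith
    rcases hj with hj | hj
    · have c1 : (j : ℝ) ≤ 201 := by exact_mod_cast hj
      exact key _ (le_trans (by positivity) (P.lo j hj')) ((P.hi j hj').trans (by nlinarith))
    · have a1 := P.lo' _ hj'
      have a2 := P.hi' _ hj'
      have c1 : (mN k : ℝ) ≤ j + 201 := by exact_mod_cast hj
      have c2 : (j : ℝ) ≤ mN k := by exact_mod_cast hj'
      have c3 : 0 ≤ (mN k - j + 1) * (sv (η k i) / (101 / 100)) :=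
        mul_nonneg (by linarith) (by positivity)
      have c4 : (2 * (mN k - j) + 8) * sv (η k i) ≤ 410 * sv (η k i) :=
        mul_le_mul_of_nonneg_right (by linarith) hs.le
      rw [← Real.cos_two_pi_sub]
      exact key _ (by linarith) (by linarith)
  have e := P.tau h L hj'
  have o := L.ok h k i
  have n1 := o.nrm'
  have n2 := o.norm_le
  have n3 := norm_nonneg (U k i).ζ
  rw [L.lab, ← sv_sq (h.one k i)] at n1
  have b1 := sub_one_le_sv (h.one k i)
  have b2 := h.one k i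
  have b3 := h.le k i
  have b4 := h.one (k + 1) (i * M k + j)
  have b5 := h.le (k + 1) (i * M k + j)
  clear hj hj'
  set s := sv (η k i)
  set τ := (U k i).τ
  set ρ := ‖(U k i).ζ‖
  set a := η (k + 1) (i * M k + j)
  have k1 : τ - ρ ≤ s ^ 2 * τ := by nlinarith
  have k2 : τ - ρ * cos (φ + fanS η k i (η k i) j) ≤ 84051 * s ^ 2 * τ := by
    nlinarith [mul_le_mul_of_nonneg_left hc n3, mul_le_mul_of_nonneg_left n2 (sq_nonneg s)]
  have k3 : (η k i + a) * (τ - ρ * cos (φ + fanS η k i (η k i) j)) ≤ 3 * (84051 * s ^ 2 * τ) := by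
    have : 0 ≤ τ - ρ * cos (φ + fanS η k i (η k i) j) := by
      nlinarith [Real.cos_le_one (φ + fanS η k i (η k i) j)]
    exact mul_le_mul (by linarith) k2 this (by norm_num)
  have k4 : τ * ((η k i - 1) * (a - 1)) ≤ τ * s ^ 2 :=
    mul_le_mul_of_nonneg_left (by nlinarith) (by linarith)
  refine le_of_mul_le_mul_right ?_ (pow_pos hs 2)
  have : 0 ≤ s ^ 2 * τ := by positivity
  nlinarith

lemma Lay.lowj (h : Lab η) (L : Lay η U) (k : ℕ) (i : ℤ) {j n : ℕ} (hj : n ≤ j)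
    (hj' : j + n ≤ mN (k + 1)) :
    (n + 1) ^ 2 * (U (k + 1) i).τ ≤ 17 * (U (k + 2) (i * M (k + 1) + j)).τ := by
  obtain ⟨ω, φ, P⟩ := L.pic h k i
  exact P.lowj h L hj hj'

lemma Lay.upj (h : Lab η) (L : Lay η U) (k : ℕ) (i : ℤ) {j : ℕ} (hj' : j ≤ mN (k + 1))
    (hj : j ≤ 201 ∨ mN (k + 1) ≤ j + 201) :
    (U (k + 2) (i * M (k + 1) + j)).τ ≤ 300000 * (U (k + 1) i).τ := by
  obtain ⟨ω, φ, P⟩ := L.pic h k i
  exact P.upj h L (by linarith [L.tau_ge' h k i]) hj' hj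

lemma Lay.sib (h : Lab η) (L : Lay η U) (k : ℕ) (i : ℤ) :
    (U (k + 1) (i + 1)).τ ≤ 2100 * (U (k + 1) i).τ ∧
      (U (k + 1) i).τ ≤ 2100 * (U (k + 1) (i + 1)).τ := by
  have h4 := L.low1 h k (i + 1) (Nat.zero_le _)
  have h5 := L.up h k i (Or.inr rfl)
  have h6 := L.low1 h k i le_rfl
  have h7 := L.up h k (i + 1) (j := 0) (Or.inl (by norm_num))
  rw [blk_top] at h5 h6
  rw [Nat.cast_zero, add_zero] at h4 h7
  have p := (L.ok h (k + 1) i).pos
  have q := (L.ok h (k + 1) (i + 1)).pos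
  constructor <;> linarith

lemma Args.mono (A : Args U a) (k : ℕ) : StrictMono (a k) := strictMono_int_of_lt_succ (A.lt k)

lemma Args.gap (h : Lab η) (L : Lay η U) (A : Args U a) (k : ℕ) (i : ℤ) :
    2 ≤ (a k (i + 1) - a k i) ^ 2 * ((U (k + 1) i).τ * (U (k + 1) (i + 1)).τ) := by
  have t := (L.fan k i).tbc
  unfold Tang bb at t
  rw [ip_pol (A.pol k i) (A.pol k (i + 1))] at t
  have o := L.ok h (k + 1) i
  have o' := L.ok h (k + 1) (i + 1)
  have key : ∀ j, ((U (k + 1) j).τ - ‖(U (k + 1) j).ζ‖) * (U (k + 1) j).τ ≤ 1 / 250 ^ 2 := by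
    intro j
    have o := L.ok h (k + 1) j
    have n1 := o.nrm'
    rw [L.lab, ← sv_sq (h.one _ _)] at n1
    have := h.sv_small (k + 1) j
    have := sv_pos (h.gt (k + 1) j)
    nlinarith [o.norm_le, norm_nonneg (U (k + 1) j).ζ]
  have k1 := key i
  have k2 := key (i + 1)
  obtain ⟨s1, s2⟩ := L.sib h k i
  have n1 := o.norm_le
  have n2 := o'.norm_le
  have n3 := norm_nonneg (U (k + 1) i).ζ
  have n4 := norm_nonneg (U (k + 1) (i + 1)).ζ
  have e1 : 1 ≤ (U (k + 1) i).η * (U (k + 1) (i + 1)).η := one_le_mul_of_one_le_of_one_le o.one o'.one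
  have c := Real.one_sub_sq_div_two_le_cos (x := a k (i + 1) - a k i)
  set τ := (U (k + 1) i).τ
  set τ' := (U (k + 1) (i + 1)).τ
  set ρ := ‖(U (k + 1) i).ζ‖
  set ρ' := ‖(U (k + 1) (i + 1)).ζ‖
  have m1 : τ * (τ' - ρ') ≤ 2100 * τ' * (τ' - ρ') := mul_le_mul_of_nonneg_right s2 (by linarith)
  have m2 : ρ' * (τ - ρ) ≤ 2100 * τ * (τ - ρ) :=
    mul_le_mul_of_nonneg_right (by linarith) (by linarith)
  have m3 : ρ * ρ' * (1 - (a k (i + 1) - a k i) ^ 2 / 2) ≤ ρ * ρ' * cos (a k (i + 1) - a k i) :=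
    mul_le_mul_of_nonneg_left c (mul_nonneg n3 n4)
  have m4 : (a k (i + 1) - a k i) ^ 2 * (ρ * ρ') ≤ (a k (i + 1) - a k i) ^ 2 * (τ * τ') :=
    mul_le_mul_of_nonneg_left (mul_le_mul n1 n2 n4 o.pos.le) (sq_nonneg _)
  nlinarith

/-- The argument of a child that is far from both ends of the fan. -/
lemma Args.parj (h : Lab η) (L : Lay η U) (A : Args U a) (k : ℕ) (i : ℤ) {j n : ℕ} (hj : n ≤ j)
    (hj' : j + n ≤ mN (k + 1)) :
    |a (k + 1) (i * M (k + 1) + j) - a k i| ≤ 14 / (n + 1) / (U (k + 1) i).τ := by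
  have h2 := A.par k i j (by omega)
  have h3 := L.lowj h k i hj hj'
  have p := (L.ok h (k + 1) i).pos
  clear hj hj'
  apply abs_le_of_sq_le_sq _ (by positivity)
  rw [div_div, div_pow, le_div_iff₀ (by positivity)]
  nlinarith [mul_le_mul_of_nonneg_left (mul_le_mul_of_nonneg_left h3 p.le)
    (sq_nonneg (a (k + 1) (i * M (k + 1) + j) - a k i))]

/-- The argument of the middle descendant after `n` generations. -/
noncomputable def BB (a : ℕ → ℤ → ℝ) : ℕ → ℕ → ℤ → ℝ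
  | 0, k, i => a k i
  | n + 1, k, i => BB a n (k + 1) (i * M (k + 1) + hN)

lemma Args.BB_step (h : Lab η) (L : Lay η U) (A : Args U a) (n k : ℕ) (i : ℤ) :
    dist (BB a n k i) (BB a (n + 1) k i) ≤ 1 / 10 ^ 80 / (U (k + 1) i).τ / 2 / 2 ^ n := by
  have hH := hN_real
  induction n generalizing k i with
  | zero =>
    have := A.parj h L k i (j := hN) (n := hN) le_rfl (by rw [mN_eq]; omega)
    have p := (L.ok h (k + 1) i).pos
    rw [dist_comm, Real.dist_eq]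
    refine this.trans ?_
    rw [pow_zero, div_one, div_right_comm _ _ (2 : ℝ)]
    refine div_le_div_of_nonneg_right ?_ p.le
    rw [div_le_iff₀ (by positivity)]
    linarith
  | succ n ih =>
    refine (ih (k + 1) (i * M (k + 1) + hN)).trans ?_
    have h3 := L.lowj h k i (j := hN) (n := hN) le_rfl (by rw [mN_eq]; omega)
    have p := (L.ok h (k + 1) i).pos
    have h4 : 2 * (U (k + 1) i).τ ≤ (U (k + 2) (i * M (k + 1) + hN)).τ := by
      have : (34 : ℝ) ≤ (hN + 1) ^ 2 := by nlinarith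
      nlinarith
    rw [pow_succ' (2 : ℝ) n, ← div_div _ (2 : ℝ) (2 ^ n)]
    refine div_le_div_of_nonneg_right (div_le_div_of_nonneg_right ?_ (by norm_num)) (by positivity)
    rw [div_div _ _ (2 : ℝ)]
    exact div_le_div_of_nonneg_left (by positivity) (by positivity) (by linarith)

/-- The end points of the boundary arcs. -/
structure Th (U : ℕ → ℤ → Cir) (a θ : ℕ → ℤ → ℝ) : Prop where
  nest : ∀ k i, θ k i = θ (k + 1) (i * M (k + 1) + hN)
  close : ∀ k i, |θ k i - a k i| ≤ 1 / 10 ^ 80 / (U (k + 1) i).τ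

theorem exists_th (h : Lab η) (L : Lay η U) (A : Args U a) : ∃ θ, Th U a θ := by
  choose θ hθ using fun k i => cauchySeq_tendsto_of_complete
    (cauchySeq_of_le_geometric_two fun n => A.BB_step h L n k i)
  refine ⟨θ, fun k i => ?_, fun k i => ?_⟩
  · exact tendsto_nhds_unique ((tendsto_add_atTop_iff_nat 1).2 (hθ k i)) (hθ (k + 1) _)
  · have := dist_le_of_le_geometric_two_of_tendsto₀ (fun n => A.BB_step h L n k i) (hθ k i)
    rwa [dist_comm, Real.dist_eq] at this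

variable {θ : ℕ → ℤ → ℝ}

lemma Th.len (h : Lab η) (L : Lay η U) (A : Args U a) (T : Th U a θ) (k : ℕ) (i : ℤ) {v : ℤ}
    (hv : v = i ∨ v = i + 1) : 1 / 40 / (U (k + 1) v).τ ≤ θ k (i + 1) - θ k i ∧
      θ k (i + 1) - θ k i ≤ 160 / (U (k + 1) v).τ := by
  have c1 := abs_le.1 (T.close k i)
  have c2 := abs_le.1 (T.close k (i + 1))
  have g1 := A.gap h L k i
  have g2 := A.step k i
  have g3 := A.lt k i
  obtain ⟨s1, s2⟩ := L.sib h k i
  have p := (L.ok h (k + 1) i).pos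
  have q := (L.ok h (k + 1) (i + 1)).pos
  have key : ∀ d x y : ℝ, 0 < d → 0 < x → 0 < y → x ≤ 2100 * y → y ≤ 2100 * x →
      2 ≤ d ^ 2 * (x * y) → d ^ 2 * (x * y) ≤ 11 →
      1 / 33 / x ≤ d ∧ d ≤ 152 / x ∧ 1 / 10 ^ 80 / y ≤ 1 / 1000 / x ∧
        1 / 10 ^ 80 / x ≤ 1 / 1000 / x := by
    intro d x y d0 x0 y0 a1 a2 a3 a4
    refine ⟨?_, ?_, ?_, ?_⟩
    · rw [div_le_iff₀ x0]
      apply le_of_sq_le_sq _ (by positivity)
      nlinarith [mul_le_mul_of_nonneg_left a2 (mul_nonneg (sq_nonneg d) x0.le)]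
    · rw [le_div_iff₀ x0]
      apply le_of_sq_le_sq _ (by positivity)
      nlinarith [mul_le_mul_of_nonneg_left a1 (mul_nonneg (sq_nonneg d) x0.le)]
    · rw [div_le_div_iff₀ y0 x0]; linarith
    · exact div_le_div_of_nonneg_right (by norm_num) x0.le
  rcases hv with rfl | rfl
  · obtain ⟨b1, b2, b3, b4⟩ := key _ _ _ (sub_pos.2 g3) p q s2 s1 g1 g2
    have := inv_pos.2 p
    simp only [div_eq_mul_inv] at *
    constructor <;> linarith
  · obtain ⟨b1, b2, b3, b4⟩ := key _ _ _ (sub_pos.2 g3) q p s1 s2 (by rwa [mul_comm _ (U _ i).τ])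
      (by rwa [mul_comm _ (U _ i).τ])
    have := inv_pos.2 q
    simp only [div_eq_mul_inv] at *
    constructor <;> linarith

lemma Th.lt (h : Lab η) (L : Lay η U) (A : Args U a) (T : Th U a θ) (k : ℕ) (i : ℤ) :
    θ k i < θ k (i + 1) := by
  have := (T.len h L A k i (Or.inl rfl)).1
  have p := (L.ok h (k + 1) i).pos
  have : 0 < 1 / 40 / (U (k + 1) i).τ := by positivity
  linarith

lemma Th.big (h : Lab η) (L : Lay η U) (A : Args U a) (T : Th U a θ) (k : ℕ) (i : ℤ) {l : ℤ}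
    (hl : l = (i + 1) * M (k + 1) + 200 ∨ l = (i + 1) * M (k + 1) - 201) :
    θ k (i + 1) - θ k i ≤ 10 ^ 10 * (θ (k + 1) (l + 1) - θ (k + 1) l) := by
  have hm := mN_ge (k + 1)
  obtain ⟨v, hv, h1⟩ : ∃ v, (v = i ∨ v = i + 1) ∧ (U (k + 2) l).τ ≤ 300000 * (U (k + 1) v).τ := by
    rcases hl with rfl | rfl
    · exact ⟨_, Or.inr rfl, L.upj h k (i + 1) (j := 200) (by omega) (by omega)⟩
    · refine ⟨_, Or.inl rfl, ?_⟩
      have := L.upj h k i (j := mN (k + 1) - 201) (by omega) (by omega)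
      rwa [Nat.cast_sub (by omega), ← add_sub_assoc, blk_top] at this
  have h2 := (T.len h L A k i hv).2
  have h3 := (T.len h L A (k + 1) l (Or.inl rfl)).1
  have p := (L.ok h (k + 1) v).pos
  have q := (L.ok h (k + 2) l).pos
  have h4 : 160 / (U (k + 1) v).τ ≤ 10 ^ 10 * (1 / 40 / (U (k + 2) l).τ) := by
    rw [← mul_div_assoc, div_le_div_iff₀ p q]; linarith
  linarith

lemma Th.tail (h : Lab η) (L : Lay η U) (A : Args U a) (T : Th U a θ) (k : ℕ) (i : ℤ) :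
    θ k (i + 1) - θ (k + 1) ((i + 1) * M (k + 1) + 10 ^ 18) ≤ (θ k (i + 1) - θ k i) / 10 ^ 15 ∧
      θ (k + 1) ((i + 1) * M (k + 1) - 10 ^ 18) - θ k i ≤ (θ k (i + 1) - θ k i) / 10 ^ 15 := by
  have hm := hN_ge
  have key : ∀ (v : ℤ) (j : ℕ), (v = i ∨ v = i + 1) → 10 ^ 18 ≤ j → j + 10 ^ 18 ≤ mN (k + 1) →
      |θ (k + 1) (v * M (k + 1) + j) - θ k v| ≤ (θ k (i + 1) - θ k i) / 10 ^ 15 := by
    intro v j hv h1 h2
    have c1 := abs_le.1 (T.close k v)
    have c2 := abs_le.1 (T.close (k + 1) (v * M (k + 1) + j))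
    have c3 := abs_le.1 (A.parj h L k v h1 h2)
    have c4 := L.low1 h k v (j := j) (by omega)
    have c5 := (T.len h L A k i hv).1
    have p := (L.ok h (k + 1) v).pos
    have c6 : 1 / 10 ^ 80 / (U (k + 1 + 1) (v * M (k + 1) + j)).τ ≤ 1 / 10 ^ 79 / (U (k + 1) v).τ := by
      rw [div_le_div_iff₀ (by linarith) p]; linarith
    have := inv_pos.2 p
    clear hm h1 h2
    push_cast at c3
    simp only [div_eq_mul_inv] at *
    rw [abs_le]
    constructor <;> linarith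
  constructor
  · have := key (i + 1) (10 ^ 18) (Or.inr rfl) le_rfl (by rw [mN_eq]; omega)
    push_cast at this
    linarith [(abs_le.1 this).1]
  · obtain ⟨j, hj⟩ : ∃ j, j + 10 ^ 18 = mN (k + 1) :=
      ⟨_, Nat.sub_add_cancel (by rw [mN_eq]; omega)⟩
    have := key i j (Or.inl rfl) (by rw [mN_eq] at hj; omega) hj.le
    have e : i * M (k + 1) + j = (i + 1) * M (k + 1) - 10 ^ 18 := by
      rw [← blk_top, ← hj]; push_cast; ring
    rw [e] at this
    linarith [(abs_le.1 this).2]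

lemma Th.cover (h : Lab η) (L : Lay η U) (A : Args U a) (T : Th U a θ) (k : ℕ) (t : ℝ) :
    ∃ i, t ∈ Set.Ioc (θ k i) (θ k (i + 1)) := by
  have lin : ∀ q : ℤ, a k (q * nn (k + 1)) = a k 0 + q * (2 * π) := by
    intro q
    induction q using Int.induction_on with
    | zero => simp
    | succ q ih => rw [add_mul, one_mul, A.per, ih]; push_cast; ring
    | pred q ih =>
      have := A.per k ((-q - 1) * nn (k + 1))
      rw [show (-(q : ℤ) - 1) * nn (k + 1) + nn (k + 1) = -q * nn (k + 1) by ring, ih] at this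
      push_cast at this ⊢; linarith
  have cl : ∀ i, |θ k i - a k i| ≤ 1 := fun i => (T.close k i).trans (by
    have := L.tau_ge' h k i
    rw [div_le_one (by linarith)]; linarith)
  have hp := Real.pi_gt_three
  obtain ⟨q, hq⟩ := exists_nat_gt (|t - a k 0| + 1)
  have q0 : (0 : ℝ) ≤ q := Nat.cast_nonneg q
  have c1 := abs_le.1 (cl (-q * nn (k + 1)))
  have c2 := abs_le.1 (cl (q * nn (k + 1)))
  rw [lin] at c1 c2
  push_cast at c1 c2
  have mono : StrictMono (θ k) := strictMono_int_of_lt_succ (T.lt h L A k)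
  obtain ⟨i, i1, i2⟩ := Int.exists_greatest_of_bdd (P := fun i => θ k i < t)
    ⟨q * nn (k + 1), fun z hz => (mono.lt_iff_lt.1 (by nlinarith [le_abs_self (t - a k 0)])).le⟩
    ⟨-q * nn (k + 1), by nlinarith [neg_abs_le (t - a k 0)]⟩
  exact ⟨i, i1, not_lt.1 fun hn => by linarith [i2 _ hn]⟩

lemma Th.near (h : Lab η) (L : Lay η U) (A : Args U a) (T : Th U a θ) {k : ℕ} {i v : ℤ} {t : ℝ}
    (hv : v = i ∨ v = i + 1) (ht : t ∈ Set.Ioc (θ k i) (θ k (i + 1))) {Y : ℂ}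
    (hY : Y = cen (U (k + 1) v) ∨ Y = hc (U (k + 1) v)) :
    ‖ex t - Y‖ ≤ 400 * hN * (1 - ‖Y‖) ∧ 1 - ‖Y‖ ≤ 3 * eps k := by
  have o := L.ok h (k + 1) v
  have p := o.pos
  have hH := hN_real
  have c1 := abs_le.1 (T.close k v)
  have c2 := (T.len h L A k i hv).2
  have ti := inv_pos.2 p
  have m1 : |t - a k v| ≤ 161 * (U (k + 1) v).τ⁻¹ := by
    simp only [div_eq_mul_inv] at c1 c2
    rw [abs_le]
    rcases hv with rfl | rfl <;> constructor <;> linarith [ht.1, ht.2]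
  have g := L.tau_ge' h k v
  have r5 : (U (k + 1) v).τ⁻¹ ≤ eps k := inv_anti₀ (by positivity) (L.tau_ge h k v)
  obtain ⟨y1, y2, y3⟩ : Y = ‖Y‖ • ex (a k v) ∧ (U (k + 1) v).τ⁻¹ ≤ 2 * hN * (1 - ‖Y‖) ∧
      1 - ‖Y‖ ≤ 3 * eps k := by
    rcases hY with rfl | rfl
    · refine ⟨A.pol_cen h L k v, ?_, by linarith [L.cen_ge h (k + 1) v, L.rad_le h k v]⟩
      have e3 : (U (k + 1) v).η ≤ 101 / 100 := by rw [L.lab]; exact h.le _ _
      have r4 : (U (k + 1) v).τ⁻¹ ≤ 2 * rad (U (k + 1) v) := by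
        rw [rad, ← div_eq_mul_inv, inv_eq_one_div, div_le_div_iff₀ p (by linarith [o.one])]
        linarith
      nlinarith [o.inside, o.rad_pos]
    · refine ⟨by rw [o.norm_hc, div_eq_inv_mul, mul_smul, ← A.pol]; rfl, ?_, ?_⟩
      · have m2 := o.hc_lower (L.gt h _ _)
        have m3 := h.le_sv (k + 1) v
        rw [L.lab, div_le_iff₀ (by positivity)] at m2
        rw [mN_eq] at m3
        push_cast at m3
        rw [inv_le_iff_one_le_mul₀ p]
        nlinarith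
      · have := o.hc_upper (L.gt h _ _) (by rw [L.lab]; linarith [h.sv_small (k + 1) v])
          (by linarith)
        linarith [eps_pos k]
  have y0 : 0 ≤ 1 - ‖Y‖ := by
    by_contra hn
    nlinarith
  have m3 : ‖ex (a k v) - Y‖ = 1 - ‖Y‖ := by
    nth_rewrite 1 [y1]
    rw [show ∀ x : ℝ, ex (a k v) - x • ex (a k v) = (1 - x) • ex (a k v) from
      fun x => by module, norm_smul, norm_ex, mul_one, Real.norm_eq_abs, abs_of_nonneg y0]
  refine ⟨?_, y3⟩
  have := norm_sub_le_norm_sub_add_norm_sub (ex t) (ex (a k v)) Y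
  have := norm_ex_sub t (a k v)
  nlinarith

end Pool.Agent.P.MP_3555ad_an.Bd
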