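import Pool.Agent.P.MP_3555ad_an.Bd.Local

set_option autoImplicit false

namespace Pool.Agent.P.MP_3555ad_an.Bd

open Real Finset

lemma pol_step {z : ℂ} {x : ℝ} (hz : z = ‖z‖ • ex x) (h0 : z ≠ 0) (w : ℂ) :
    w = ‖w‖ • ex (x + Complex.arg (w / z)) := by
  have h1 := Complex.norm_mul_exp_arg_mul_I (w / z)
  have h2 : (‖z‖ : ℂ) ≠ 0 := by simpa using h0
  rw [norm_div, Complex.ofReal_div] at h1
  rw [ex_add, Complex.real_smul]
  rw [Complex.real_smul] at hz
  have h3 : ex (Complex.arg (w / z)) * ‖w‖ * z = w * ‖z‖ := by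
    rw [ex]; field_simp at h1; linear_combination h1
  apply mul_right_cancel₀ h2
  rw [← h3]
  linear_combination (ex (Complex.arg (w / z)) * ‖w‖) * hz

lemma Ok.norm_ge {c : Cir} (h : Ok c) (h1 : c.η ≤ 101 / 100) (h2 : 250 ≤ c.τ) :
    99 / 100 * c.τ ≤ ‖c.ζ‖ :=
  le_of_sq_le_sq (by nlinarith [h.nrm', h.one]) (norm_nonneg _)

lemma ip_pol {z w : ℂ} {x y : ℝ} (hz : z = ‖z‖ • ex x) (hw : w = ‖w‖ • ex y) :
    ip z w = ‖z‖ * ‖w‖ * cos (y - x) := by
  have := ip_ex 1 (by simp) x y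
  rw [one_mul, one_mul] at this
  rw [← this, ← ip_smul, ← hz, ← hw]

lemma cp_pol {z w : ℂ} {x y : ℝ} (hz : z = ‖z‖ • ex x) (hw : w = ‖w‖ • ex y) :
    cp z w = ‖z‖ * ‖w‖ * sin (y - x) := by
  have := cp_ex 1 (by simp) x y
  rw [one_mul, one_mul] at this
  rw [← this, ← cp_smul, ← hz, ← hw]

lemma arg_close {u w : Cir} (hu : Ok u) (hw : Ok w) (t : Tang u w) (u1 : u.η ≤ 101 / 100)
    (w1 : w.η ≤ 101 / 100) (u2 : 250 ≤ u.τ) (w2 : 250 ≤ w.τ) {x y : ℝ}
    (hx : u.ζ = ‖u.ζ‖ • ex x) (hy : w.ζ = ‖w.ζ‖ • ex y) (h : |y - x| ≤ π) :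
    (y - x) ^ 2 * (u.τ * w.τ) ≤ 11 := by
  unfold Tang bb at t
  rw [ip_pol hx hy] at t
  have a1 := hu.norm_ge u1 u2
  have a2 := hw.norm_ge w1 w2
  have a3 : ‖u.ζ‖ * ‖w.ζ‖ ≤ u.τ * w.τ := mul_le_mul hu.norm_le hw.norm_le (norm_nonneg _) hu.pos.le
  have a4 : 99 / 100 * u.τ * (99 / 100 * w.τ) ≤ ‖u.ζ‖ * ‖w.ζ‖ :=
    mul_le_mul a1 a2 (by linarith) (norm_nonneg _)
  have a5 := Real.cos_le_one_sub_mul_cos_sq h
  have a6 : 1 / 5 ≤ 2 / π ^ 2 := by
    rw [div_le_div_iff₀ (by norm_num) (by positivity)]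
    nlinarith [Real.pi_lt_d2, Real.pi_pos]
  have a7 : (y - x) ^ 2 / 5 ≤ 1 - cos (y - x) := by nlinarith [sq_nonneg (y - x)]
  have a8 : u.η * w.η ≤ 101 / 100 * (101 / 100) :=
    mul_le_mul u1 w1 (by linarith [hw.one]) (by norm_num)
  have a9 : 99 / 100 * u.τ * (99 / 100 * w.τ) * ((y - x) ^ 2 / 5) ≤
      ‖u.ζ‖ * ‖w.ζ‖ * (1 - cos (y - x)) :=
    mul_le_mul a4 a7 (by positivity) (by positivity)
  nlinarith

lemma small_of_close {d s t : ℝ} (h : d ^ 2 * (s * t) ≤ 11) (hs : 250 ≤ s) (ht : 250 ≤ t) :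
    |d| ≤ 1 / 70 := by
  apply abs_le_of_sq_le_sq _ (by norm_num)
  have : 250 * 250 ≤ s * t := mul_le_mul hs ht (by norm_num) (by linarith)
  nlinarith [sq_nonneg d]

lemma pos_of_cp {z w : ℂ} {x y : ℝ} (hz : z = ‖z‖ • ex x) (hw : w = ‖w‖ • ex y) (h : 0 < cp z w)
    (h1 : |y - x| ≤ π) : 0 < y - x := by
  rw [cp_pol hz hw] at h
  by_contra hn
  have := Real.sin_nonpos_of_nonpos_of_neg_pi_le (not_lt.1 hn) (abs_le.1 h1).1
  nlinarith [mul_nonneg (mul_nonneg (norm_nonneg z) (norm_nonneg w)) (neg_nonneg.2 this)]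

/-- Lifted arguments of the ring vertices; `a k` belongs to layer `k + 1`. -/
structure Args (U : ℕ → ℤ → Cir) (a : ℕ → ℤ → ℝ) : Prop where
  pol : ∀ k i, (U (k + 1) i).ζ = ‖(U (k + 1) i).ζ‖ • ex (a k i)
  per : ∀ k i, a k (i + nn (k + 1)) = a k i + 2 * π
  lt : ∀ k i, a k i < a k (i + 1)
  step : ∀ k i, (a k (i + 1) - a k i) ^ 2 * ((U (k + 1) i).τ * (U (k + 1) (i + 1)).τ) ≤ 11
  par : ∀ k i, ∀ j ≤ mN (k + 1), (a (k + 1) (i * M (k + 1) + j) - a k i) ^ 2 *
    ((U (k + 1) i).τ * (U (k + 2) (i * M (k + 1) + j)).τ) ≤ 11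

variable {η : ℕ → ℤ → ℝ} {U : ℕ → ℤ → Cir}

/-- The recursive definition of the lifted arguments. -/
noncomputable def argf (U : ℕ → ℤ → Cir) (a0 : ℤ → ℝ) : ℕ → ℤ → ℝ
  | 0 => a0
  | k + 1 => fun l => argf U a0 k (l / M (k + 1)) +
      Complex.arg ((U (k + 2) l).ζ / (U (k + 1) (l / M (k + 1))).ζ)

theorem exists_args (h : Lab η) (L : Lay η U) : ∃ a, Args U a := by
  have hp := Real.pi_gt_three
  have le : ∀ k i, (U k i).η ≤ 101 / 100 := fun k i => by rw [L.lab]; exact h.le k i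
  have close : ∀ {k k' : ℕ} {i i' : ℤ} {x y : ℝ}, Tang (U (k + 1) i) (U (k' + 1) i') →
      (U (k + 1) i).ζ = ‖(U (k + 1) i).ζ‖ • ex x → (U (k' + 1) i').ζ = ‖(U (k' + 1) i').ζ‖ • ex y →
      |y - x| ≤ π → (y - x) ^ 2 * ((U (k + 1) i).τ * (U (k' + 1) i').τ) ≤ 11 :=
    fun t hx hy hh => arg_close (L.ok h _ _) (L.ok h _ _) t (le _ _) (le _ _) (L.tau_ge' h _ _)
      (L.tau_ge' h _ _) hx hy hh
  have small : ∀ {k k' : ℕ} {i i' : ℤ} {d : ℝ},
      d ^ 2 * ((U (k + 1) i).τ * (U (k' + 1) i').τ) ≤ 11 → |d| ≤ 1 / 70 :=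
    fun hh => small_of_close hh (L.tau_ge' h _ _) (L.tau_ge' h _ _)
  obtain ⟨ω, n1, hω⟩ := L.root_pic h
  obtain ⟨x0, -, -, hx0⟩ := exists_ex (ω := 1) (by simp) n1
  rw [one_mul] at hx0
  let a0 : ℤ → ℝ := fun l => x0 + (l / M 0 : ℤ) * (2 * π) + fanS η 0 0 (η 0 0) (l % M 0).toNat
  have blk : ∀ (q : ℤ) (j : ℕ), j ≤ mN 0 →
      a0 (q * M 0 + j) = x0 + q * (2 * π) + fanS η 0 0 (η 0 0) j := by
    intro q j hj
    rcases hj.eq_or_lt with hj | hj
    · have e : q * M 0 + j = (q + 1) * M 0 + (0 : ℕ) := by rw [hj, blk_top]; simp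
      have h0 : 0 < mN 0 := by linarith [mN_ge 0]
      have hs : fanS η 0 0 (η 0 0) (mN 0) = 2 * π := h.sum 0 0
      simp only [a0, e, blk_div 0 _ h0, blk_mod 0 _ h0, Int.toNat_natCast, fanS_zero]
      rw [hj, hs]; push_cast; ring
    · simp only [a0, blk_div 0 _ hj, blk_mod 0 _ hj, Int.toNat_natCast]
  have key : ∀ k, (∀ i, (U (k + 1) i).ζ = ‖(U (k + 1) i).ζ‖ • ex (argf U a0 k i)) ∧
      (∀ i, argf U a0 k (i + nn (k + 1)) = argf U a0 k i + 2 * π) ∧
      ∀ i, |argf U a0 k (i + 1) - argf U a0 k i| ≤ π := by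
    intro k
    induction k with
    | zero =>
      refine ⟨fun l => ?_, fun l => ?_, fun l => ?_⟩
      · obtain ⟨j, hj, e, -⟩ := blk_ex 0 l
        have hs := sv_pos (h.gt 0 0)
        have p : 0 < (η 0 0 + η 1 j) / sv (η 0 0) := div_pos (by linarith [h.one 0 0, h.one 1 j]) hs
        rw [e, hω _ _ hj.le]
        simp only [argf, std]
        rw [blk _ _ hj.le, norm_smul, norm_mul, n1, norm_ex, Real.norm_eq_abs, abs_of_pos p, ex_add,
          ex_add, ex_int, hx0]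
        simp
      · simp only [argf, a0]
        rw [add_nn_div, add_nn_mod]
        simp [nn]; ring
      · obtain ⟨j, hj, e, -⟩ := blk_ex 0 l
        have e' : l + 1 = l / M 0 * M 0 + (j + 1 : ℕ) := by push_cast; linarith
        simp only [argf]
        rw [e', blk _ _ hj]
        nth_rewrite 2 [e]
        rw [blk _ _ hj.le]
        simp only [fanS, sum_range_succ]
        have a1 := ang_nonneg (η 0 0) (η (0 + 1) (0 * M 0 + j)) (η (0 + 1) (0 * M 0 + j + 1))
        have a2 := ang_lt_pi (h.one 0 0) (h.one (0 + 1) (0 * M 0 + j))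
          (h.one (0 + 1) (0 * M 0 + j + 1))
        rw [abs_le]; constructor <;> linarith
    | succ k ih =>
      obtain ⟨p1, p2, p3⟩ := ih
      have z0 : ∀ i, (U (k + 1) i).ζ ≠ 0 := fun i h0 => by
        have := L.left h k i
        rw [h0] at this; simp [cp] at this
      have q1 : ∀ l, (U (k + 2) l).ζ = ‖(U (k + 2) l).ζ‖ • ex (argf U a0 (k + 1) l) :=
        fun l => pol_step (p1 _) (z0 _) _
      have q2 : ∀ l, |argf U a0 (k + 1) l - argf U a0 k (l / M (k + 1))| ≤ 1 / 70 := fun l =>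
        small (close (L.fan (k + 1) l).tab (p1 _) (q1 l) (by
          simp only [argf, add_sub_cancel_left]; exact Complex.abs_arg_le_pi _))
      refine ⟨q1, fun l => ?_, fun l => ?_⟩
      · simp only [argf]
        rw [add_nn_div, p2, L.per (k + 1), L.per (k + 2)]; ring
      · have b1 := abs_le.1 (q2 l)
        have b2 := abs_le.1 (q2 (l + 1))
        by_cases hm : (l + 1) % M (k + 1) = 0
        · have e : l / M (k + 1) + 1 = (l + 1) / M (k + 1) := by
            have := pred_div_mul (k + 1) ((l + 1) / M (k + 1))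
            rw [← eq_mul_of_mod hm, add_sub_cancel_right] at this
            linarith
          have b3 := abs_le.1 (small (close (L.fan k (l / M (k + 1))).tbc (p1 _) (p1 _) (p3 _)))
          rw [e] at b3
          rw [abs_le]; constructor <;> linarith
        · have := pred_div_of_mod_ne (k + 1) hm
          rw [add_sub_cancel_right] at this
          rw [← this] at b2
          rw [abs_le]; constructor <;> linarith
  have st : ∀ k i, (argf U a0 k (i + 1) - argf U a0 k i) ^ 2 *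
      ((U (k + 1) i).τ * (U (k + 1) (i + 1)).τ) ≤ 11 := fun k i =>
    close (L.fan k i).tbc ((key k).1 _) ((key k).1 _) ((key k).2.2 i)
  refine ⟨argf U a0, fun k => (key k).1, fun k => (key k).2.1, fun k i => ?_, st, fun k i j hj => ?_⟩
  · exact sub_pos.1 (pos_of_cp ((key k).1 _) ((key k).1 _) (L.left h k i) ((key k).2.2 i))
  · refine close (L.tang (k + 1) i hj) ((key k).1 _) ((key (k + 1)).1 _) ?_
    have q2 : ∀ l, |argf U a0 (k + 1) l - argf U a0 k (l / M (k + 1))| ≤ 1 / 70 := fun l =>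
      small (close (L.fan (k + 1) l).tab ((key k).1 _) ((key (k + 1)).1 l) (by
        simp only [argf, add_sub_cancel_left]; exact Complex.abs_arg_le_pi _))
    have b1 := abs_le.1 (q2 (i * M (k + 1) + j))
    rcases hj.eq_or_lt with hj | hj
    · have b3 := abs_le.1 (small (st k i))
      rw [hj, blk_top, mul_div_M] at b1
      rw [hj, blk_top, abs_le]; constructor <;> linarith
    · rw [blk_div _ _ hj] at b1
      rw [abs_le]; constructor <;> linarith

/-- A closed chain turning once around the origin crosses every ray once. -/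
lemma wind {z : ℤ → ℂ} {φ : ℤ → ℝ} (h0 : ∀ i, z i ≠ 0) (hz : ∀ i, z i = ‖z i‖ • ex (φ i))
    (h1 : ∀ i, φ i < φ (i + 1)) (h2 : ∀ i, φ (i + 1) - φ i < π) {n : ℕ}
    (hn : φ n = φ 0 + 2 * π) {d : ℂ} (hd : d ≠ 0) :
    ∑ i ∈ range n, cr 0 d (z i) (z (i + 1)) = 1 := by
  have hp := Real.pi_pos
  have hd' := pol_step (z := 1) (x := 0) (by simp) one_ne_zero d
  set δ := 0 + Complex.arg (d / 1)
  have o1 : ∀ i, ori 0 (0 + d) (z i) = ‖d‖ * ‖z i‖ * sin (φ i - δ) := fun i => by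
    rw [← cp_pol hd' (hz i)]; simp [ori, cp]
  have o2 : ∀ i, 0 < ori (z i) (z (i + 1)) 0 := fun i => by
    have : ori (z i) (z (i + 1)) 0 = cp (z i) (z (i + 1)) := by simp [ori, cp]; ring
    rw [this, cp_pol (hz i) (hz (i + 1))]
    exact mul_pos (mul_pos (norm_pos_iff.2 (h0 _)) (norm_pos_iff.2 (h0 _)))
      (Real.sin_pos_of_pos_of_lt_pi (by linarith [h1 i]) (h2 i))
  have p : ∀ i, 0 < ‖d‖ * ‖z i‖ := fun i => mul_pos (norm_pos_iff.2 hd) (norm_pos_iff.2 (h0 _))
  let C : ℤ → ℤ := fun i => ⌈(φ i - δ) / (2 * π)⌉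
  have key : ∀ i, cr 0 d (z i) (z (i + 1)) = C (i + 1) - C i := by
    intro i
    have c1 : φ i - δ ≤ C i * (2 * π) := (div_le_iff₀ (by positivity)).1 (Int.le_ceil _)
    have c2 : (C i - 1) * (2 * π) < φ i - δ := by
      rw [← lt_div_iff₀ (by positivity)]; linarith [Int.ceil_lt_add_one ((φ i - δ) / (2 * π))]
    have s1 : sin (φ i - δ) = sin (φ i - δ - C i * (2 * π)) := (Real.sin_sub_int_mul_two_pi _ _).symm
    have s2 : sin (φ (i + 1) - δ) = sin (φ (i + 1) - δ - C i * (2 * π)) :=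
      (Real.sin_sub_int_mul_two_pi _ _).symm
    have a1 := h1 i
    have a2 := h2 i
    unfold cr
    rw [o1, o1]
    by_cases hc : C i * (2 * π) < φ (i + 1) - δ
    · have e : C (i + 1) = C i + 1 := by
        simp only [C] at hc c1 ⊢
        rw [Int.ceil_eq_iff, lt_div_iff₀ (by positivity), div_le_iff₀ (by positivity)]
        push_cast; constructor <;> linarith
      rw [fcr_np _ (mul_nonpos_of_nonneg_of_nonpos (p i).le (by
        rw [s1]; exact Real.sin_nonpos_of_nonpos_of_neg_pi_le (by linarith) (by linarith)))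
        (mul_pos (p _) (by rw [s2]; exact Real.sin_pos_of_pos_of_lt_pi (by linarith) (by linarith))),
        if_pos (o2 i), e]
      ring
    · have e : C (i + 1) = C i := by
        simp only [C] at hc c1 c2 ⊢
        rw [Int.ceil_eq_iff, lt_div_iff₀ (by positivity), div_le_iff₀ (by positivity)]
        constructor <;> linarith
      rw [e, sub_self]
      unfold fcr
      rw [if_neg, if_neg]
      · rintro ⟨-, -, h⟩; linarith [o2 i]
      · rintro ⟨b1, b2, -⟩
        have b3 : 0 < sin (φ (i + 1) - δ) := (mul_pos_iff_of_pos_left (p _)).1 b2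
        have b4 : φ (i + 1) - δ - C i * (2 * π) < -π := by
          by_contra hn
          have := Real.sin_nonpos_of_nonpos_of_neg_pi_le (x := φ (i + 1) - δ - C i * (2 * π))
            (by linarith) (not_lt.1 hn)
          linarith
        have b5 : 0 < sin (φ i - δ - C i * (2 * π) + 2 * π) :=
          Real.sin_pos_of_pos_of_lt_pi (by linarith) (by linarith)
        rw [Real.sin_add_two_pi, ← s1] at b5
        linarith [mul_pos (p i) b5]
  have tel : ∀ n : ℕ, ∑ i ∈ range n, cr 0 d (z i) (z (i + 1)) = C n - C 0 := by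
    intro n
    induction n with
    | zero => simp
    | succ n ih => rw [sum_range_succ, ih, key]; push_cast; ring
  rw [tel]
  simp only [C]
  rw [hn, show (φ 0 + 2 * π - δ) / (2 * π) = (φ 0 - δ) / (2 * π) + 1 by field_simp; ring,
    Int.ceil_add_one]
  ring

end Pool.Agent.P.MP_3555ad_an.Bd
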