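import Pool.Agent.P.MP_3555ad_an.Bd.Types

set_option autoImplicit false

namespace Pool.Agent.P.MP_3555ad_an.Bd

open Real Finset Filter Topology

lemma Fan.congr {n : ℕ} {v : ℂ × ℝ} {s s' : ℕ → ℂ × ℝ} (h : Fan n v s) (hn : 201 ≤ n)
    (e : ∀ j ≤ n, s' j = s j) : Fan n v s' :=
  ⟨fun j hj => by rw [e _ hj.le, e _ hj]; exact h.face j hj,
    fun j j0 hj => by rw [e _ hj.le]; exact h.sm j j0 hj,
    fun hv j hj => by rw [e _ (by omega), e _ (by omega)]; exact h.uu hv j hj⟩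

lemma Fan.tg {n : ℕ} {v : ℂ × ℝ} {s : ℕ → ℂ × ℝ} (h : Fan n v s) (hn : 0 < n) {j : ℕ}
    (hj : j ≤ n) : Tg v (s j) := by
  rcases hj.eq_or_lt with rfl | hj
  · obtain ⟨i, rfl⟩ : ∃ i, j = i + 1 := ⟨j - 1, by omega⟩
    exact Tg.symm (h.face i (by omega)).t3
  · exact (h.face j hj).t1

lemma Fan.good {n : ℕ} {v : ℂ × ℝ} {s : ℕ → ℂ × ℝ} (h : Fan n v s) (hn : 201 ≤ n) (hv : Good v)
    {j : ℕ} (j0 : 0 < j) (hj : j < n) : Good (s j) := by
  rcases h.sm j j0 hj with h1 | ⟨h1, rfl | rfl | h2 | h2⟩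
  · exact Or.inl (h1.tiny hv (h.face j hj).t1)
  · exact Or.inr (h.uu h1 200 (Or.inl rfl)).huge.1
  · exact Or.inr (h.uu h1 200 (Or.inl rfl)).huge.2
  · exact Or.inr (h.uu h1 j (Or.inr h2)).huge.1
  · obtain ⟨i, rfl⟩ : ∃ i, j = i + 1 := ⟨j - 1, by omega⟩
    exact Or.inr (h.uu h1 i (Or.inr (by omega))).huge.2

lemma Fan.typ {n : ℕ} {v : ℂ × ℝ} {s : ℕ → ℂ × ℝ} (h : Fan n v s) (hn : 1000 ≤ n) (hv : Good v)
    {j : ℕ} (hj : j < n) : Tiny (s j) ∨ Tiny (s (j + 1)) ∨ UU (s j) (s (j + 1)) := by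
  have key : ∀ j, 0 < j → j < n → Tiny (s j) ∨
      Tiny v ∧ (j = 200 ∨ j = 201 ∨ j + 201 = n ∨ j + 200 = n) := fun j j0 hj =>
    (h.sm j j0 hj).imp_left fun h1 => h1.tiny hv (h.face j hj).t1
  rcases Nat.eq_zero_or_pos j with rfl | j0
  · exact Or.inr (Or.inl ((key 1 one_pos (by omega)).resolve_right fun h => by omega))
  rcases key j j0 hj with h1 | ⟨h1, h2⟩
  · exact Or.inl h1
  rcases key (j + 1) (by omega) (by omega) with h3 | ⟨-, h3⟩
  · exact Or.inr (Or.inl h3)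
  · exact Or.inr (Or.inr (h.uu h1 j (by omega)))

/-- A chosen common child. -/
noncomputable def stE (a b : ℂ × ℝ) : ℂ × ℝ := Classical.choose (exists_st a b)

/-- A chosen chain of children. -/
noncomputable def fanE (k : ℕ) (v x y : ℂ × ℝ) : ℕ → ℂ × ℝ := Classical.choose (exists_fan k v x y)

/-- First child in the bounded packing. -/
noncomputable def startE (k : ℕ) (f : ℤ → ℂ × ℝ) (i : ℤ) : ℂ × ℝ :=
  if k = 0 then (((2 / 10 ^ 40 : ℝ) : ℂ), 1 / 10 ^ 40)
  else stE (f (i - 1)) (f i)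

/-- Children in the bounded packing. -/
noncomputable def kidsE (k : ℕ) (f : ℤ → ℂ × ℝ) (i : ℤ) : ℕ → ℂ × ℝ :=
  fanE k (f i) (startE k f i) (startE k f (i + 1))

/-- The bounded packing. -/
noncomputable def layE : ℕ → ℤ → ℂ × ℝ
  | 0 => fun _ => (0, 1 / 10 ^ 40)
  | k + 1 => fun l => kidsE k (layE k) (l / M k) (l % M k).toNat

lemma stepE {k : ℕ} {f : ℤ → ℂ × ℝ} (per : ∀ i, f (i + nn k) = f i) (gd : ∀ i, Good (f i))
    (gs : ∀ i, Good (startE k f i)) (t1 : ∀ i, Tg (f i) (startE k f i))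
    (t2 : ∀ i, Tg (f i) (startE k f (i + 1))) {g : ℤ → ℂ × ℝ}
    (hg : g = fun l => kidsE k f (l / M k) (l % M k).toNat) :
    (∀ i, g (i + nn (k + 1)) = g i) ∧ (∀ i, Good (g i)) ∧
      (∀ i, Fan (mN k) (f i) fun j => g (i * M k + j)) ∧ ∀ i, g (i * M k) = startE k f i := by
  have sp := fun i => Classical.choose_spec
    (exists_fan k (f i) (startE k f i) (startE k f (i + 1))) (gd i) (gs i).bd.1 (gs _).bd.1 (t1 i)
    (t2 i)
  have hm := mN_ge k
  have blk : ∀ i (j : ℕ), j ≤ mN k → g (i * M k + j) = kidsE k f i j := by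
    intro i j hj
    rcases hj.eq_or_lt with rfl | hj
    · have : i * M k + (mN k : ℕ) = (i + 1) * M k + (0 : ℕ) := by rw [blk_top]; simp
      have h0 : 0 < mN k := by omega
      rw [this, hg]
      simp only [blk_div k _ h0, blk_mod k _ h0]
      exact (sp (i + 1)).2.1.trans (sp i).2.2.symm
    · simp only [hg, blk_div k _ hj, blk_mod k _ hj, Int.toNat_natCast]
  refine ⟨fun i => ?_, fun i => ?_, fun i => (sp i).1.congr (by omega) (blk i), fun i => ?_⟩
  · simp only [hg, add_nn_div, add_nn_mod]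
    have e1 : ∀ i, startE k f (i + nn k) = startE k f i := by
      intro i
      unfold startE
      rw [per, add_sub_right_comm, per]
    unfold kidsE
    rw [per, e1, add_right_comm, e1]
  · obtain ⟨j, hj, e, -⟩ := blk_ex k i
    rw [e, blk _ _ hj.le]
    rcases Nat.eq_zero_or_pos j with rfl | j0
    · have := gs (i / M k)
      rwa [← (sp _).2.1] at this
    · exact (sp _).1.good (by omega) (gd _) j0 hj
  · have := blk i 0 (Nat.zero_le _)
    rw [Nat.cast_zero, add_zero] at this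
    rw [this]; exact (sp i).2.1

/-- The properties of the bounded packing. -/
structure Bld (X : ℕ → ℤ → ℂ × ℝ) : Prop where
  per : Per X
  good : ∀ k i, Good (X k i)
  fan : ∀ k i, Fan (mN k) (X k i) fun j => X (k + 1) (i * M k + j)
  st : ∀ k i, St (X (k + 1) i) (X (k + 1) (i + 1)) (X (k + 2) ((i + 1) * M (k + 1)))

lemma fan_face {k : ℕ} {f g : ℤ → ℂ × ℝ} (h : ∀ i, Fan (mN k) (f i) fun j => g (i * M k + j))
    (l : ℤ) : EFace (f (l / M k)) (g l) (g (l + 1)) := by
  obtain ⟨j, hj, e, -⟩ := blk_ex k l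
  have := (h (l / M k)).face j hj
  simp only [Nat.cast_add, Nat.cast_one, ← add_assoc] at this
  rwa [← e] at this

theorem exists_bld : ∃ X, Bld X := by
  have b0 : Good (0, 1 / 10 ^ 40) := Or.inl (by norm_num [Tiny, sg])
  have key : ∀ k, (∀ i, layE (k + 1) (i + nn (k + 1)) = layE (k + 1) i) ∧
      (∀ i, Good (layE (k + 1) i)) ∧
      (∀ i, Fan (mN k) (layE k i) fun j => layE (k + 1) (i * M k + j)) ∧
      (1 ≤ k → ∀ i, St (layE k i) (layE k (i + 1)) (layE (k + 1) ((i + 1) * M k))) := by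
    intro k
    induction k with
    | zero =>
      have t : ∀ i j, Tg (layE 0 i) (startE 0 (layE 0) j) := by
        intro i j
        simp only [Tg, layE, startE, if_true, zero_sub, norm_neg, Complex.norm_real,
          Real.norm_eq_abs]
        rw [abs_of_pos (by positivity)]; ring
      have := stepE (k := 0) (f := layE 0) (fun _ => rfl) (fun _ => b0)
        (fun i => Or.inl (Sm.tiny (by norm_num [Sm, sg, layE, startE]) b0 (t 0 i)))
        (fun i => t i i) (fun i => t i _) (g := layE 1) rfl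
      exact ⟨this.1, this.2.1, this.2.2.1, fun h => absurd h (by norm_num)⟩
    | succ k ih =>
      obtain ⟨per, gd, fan, -⟩ := ih
      have sf : ∀ i, St (layE (k + 1) (i - 1)) (layE (k + 1) i)
          (startE (k + 1) (layE (k + 1)) i) := fun i => by
        simp only [startE, Nat.succ_ne_zero, if_false]
        refine Classical.choose_spec (exists_st _ _) (gd _) (gd _) ?_
        have := (fan_face fan (i - 1)).t2
        rwa [sub_add_cancel] at this
      have sf' : ∀ i, St (layE (k + 1) i) (layE (k + 1) (i + 1))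
          (startE (k + 1) (layE (k + 1)) (i + 1)) := fun i => by
        have := sf (i + 1)
        rwa [add_sub_cancel_right] at this
      have := stepE (k := k + 1) (f := layE (k + 1)) per gd (fun i => (sf i).good)
        (fun i => Tg.symm (sf i).face.t3) (fun i => (sf' i).face.t2) (g := layE (k + 2)) rfl
      exact ⟨this.1, this.2.1, this.2.2.1, fun _ i => by rw [this.2.2.2]; exact sf' i⟩
  refine ⟨layE, fun k => ?_, fun k i => ?_, fun k => (key k).2.2.1,
    fun k => (key (k + 1)).2.2.2 (by omega)⟩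
  · cases k with
    | zero => exact fun _ => rfl
    | succ k => exact (key k).1
  · cases k with
    | zero => exact b0
    | succ k => exact (key k).2.1 i

variable {X : ℕ → ℤ → ℂ × ℝ}

lemma Bld.pack (B : Bld X) : Pack X :=
  ⟨B.per, fun k i => (B.good k i).bd.1, fun k => fan_face (B.fan k), fun k i => by
    have := (B.st k (i - 1)).face
    rwa [sub_add_cancel] at this⟩

lemma Bld.tg (B : Bld X) (k : ℕ) (l : ℤ) : Tg (X (k + 1) l) (X (k + 1) (l + 1)) :=
  (B.pack.fan k l).t2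

lemma Bld.typ (B : Bld X) (k : ℕ) (l : ℤ) : Tiny (X (k + 1) l) ∨ Tiny (X (k + 1) (l + 1)) ∨
    UU (X (k + 1) l) (X (k + 1) (l + 1)) := by
  obtain ⟨j, hj, e, -⟩ := blk_ex k l
  have := (B.fan k (l / M k)).typ (by linarith [mN_ge k]) (B.good _ _) hj
  simp only [Nat.cast_add, Nat.cast_one, ← add_assoc] at this
  rwa [← e] at this

/-- The drift of the scale along the tree of edges. -/
structure Dr (s : ℕ → ℤ → ℝ) (u : ℕ → ℤ → Prop) : Prop where
  pos : ∀ k i, 0 < s k i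
  le : ∀ k i, s k i ≤ 1
  far : ∀ k i l, (i + 1) * M (k + 1) - hN ≤ l → l < (i + 1) * M (k + 1) + hN →
    59 / 60 * s k i ≤ s (k + 1) l ∧ s (k + 1) l ≤ 61 / 60 * s k i
  near : ∀ k i l, (i + 1) * M (k + 1) - 10 ^ 18 ≤ l → l < (i + 1) * M (k + 1) + 10 ^ 18 →
    (¬u k i → (1 - 1 / 10 ^ 18) * s k i ≤ s (k + 1) l) ∧
      (u k i → s k i ≤ 3 / 4 → (1 + 1 / 2000) * s k i ≤ s (k + 1) l)
  nxt : ∀ k i, ¬u k i → u (k + 1) ((i + 1) * M (k + 1) + 200) ∨
    u (k + 1) ((i + 1) * M (k + 1) - 201)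

/-- The scale at an edge. -/
noncomputable def sE (X : ℕ → ℤ → ℂ × ℝ) (k : ℕ) (i : ℤ) : ℝ :=
  sg (tp (X (k + 1) i) (X (k + 1) (i + 1)))

/-- The edges that head for the origin. -/
def uE (X : ℕ → ℤ → ℂ × ℝ) (k : ℕ) (i : ℤ) : Prop := UU (X (k + 1) i) (X (k + 1) (i + 1))

lemma Bld.sE_pos (B : Bld X) (k : ℕ) (i : ℤ) : 0 < sE X k i := by
  have := ((B.tg k i).tp (B.good _ _) (B.good _ _)).2.1
  unfold sE
  linarith [(B.good (k + 1) i).bd.2.1]

lemma Bld.child (B : Bld X) (k : ℕ) (i l : ℤ) (h1 : (i + 1) * M (k + 1) - hN ≤ l)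
    (h2 : l < (i + 1) * M (k + 1) + hN) :
    59 / 60 * sE X k i ≤ sE X (k + 1) l ∧ sE X (k + 1) l ≤ 61 / 60 * sE X k i ∧
    ((i + 1) * M (k + 1) - 10 ^ 18 ≤ l → l < (i + 1) * M (k + 1) + 10 ^ 18 →
      (¬uE X k i → (1 - 1 / 10 ^ 18) * sE X k i ≤ sE X (k + 1) l) ∧
      (uE X k i → sE X k i ≤ 3 / 4 → (1 + 1 / 2000) * sE X k i ≤ sE X (k + 1) l)) := by
  have hH := hN_ge
  have hm := mN_eq (k + 1)
  have S := B.st k i
  have p := B.sE_pos k i
  have ty := B.typ k i
  rcases le_or_gt ((i + 1) * M (k + 1)) l with h | h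
  · obtain ⟨j, rfl⟩ : ∃ j : ℕ, l = (i + 1) * M (k + 1) + j :=
      ⟨(l - (i + 1) * M (k + 1)).toNat, by omega⟩
    have F := B.fan (k + 1) (i + 1)
    have := half (n := hN) (c := fun j => X (k + 2) ((i + 1) * M (k + 1) + j)) (B.good _ _)
      (B.good _ _) (B.tg k i).symm (fun j _ => B.good _ _)
      (fun j hj => F.tg (by omega) (by omega)) (fun j hj => (F.face j (by omega)).t2)
      (fun j j0 hj => (F.sm j j0 (by omega)).imp_right And.left) (by simpa [Tg] using S.face.t2)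
      (j := j) (by omega)
    simp only [Nat.cast_add, Nat.cast_one, ← add_assoc, Nat.cast_zero, add_zero,
      tp_comm (X (k + 1) (i + 1)) (X (k + 1) i)] at this
    obtain ⟨a1, a2, a3⟩ := this
    refine ⟨a1, a2, fun _ h4 => ?_⟩
    obtain ⟨a3, a4⟩ := a3 (by omega)
    refine ⟨fun hu => a3 ?_, fun hu hs => ?_⟩
    · rcases ty with h | h | h
      exacts [Or.inr ⟨h, S.nu hu⟩, Or.inl h, absurd h hu]
    · have b1 := a4 hu.huge.2.not_tiny
      have b2 := (S.uu hu hs).2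
      unfold sE at p ⊢
      linarith
  · obtain ⟨j, rfl⟩ : ∃ j : ℕ, l = (i + 1) * M (k + 1) - (j + 1) :=
      ⟨((i + 1) * M (k + 1) - 1 - l).toNat, by omega⟩
    have F := B.fan (k + 1) i
    have e : ∀ j : ℕ, j ≤ mN (k + 1) →
        (i + 1) * M (k + 1) - j = i * M (k + 1) + (mN (k + 1) - j : ℕ) := fun j hj => by
      rw [Nat.cast_sub hj, ← add_sub_assoc, blk_top]
    have := half (n := hN) (c := fun j => X (k + 2) ((i + 1) * M (k + 1) - j)) (B.good _ _)
      (B.good _ _) (B.tg k i) (fun j _ => B.good _ _)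
      (fun j hj => by rw [e j (by omega)]; exact F.tg (by omega) (by omega))
      (fun j hj => by
        have := (B.tg (k + 1) ((i + 1) * M (k + 1) - (j + 1))).symm
        rwa [show (i + 1) * M (k + 1) - (j + 1) + 1 = (i + 1) * M (k + 1) - j by ring] at this)
      (fun j j0 hj => by
        rw [e j (by omega)]; exact (F.sm _ (by omega) (by omega)).imp_right And.left)
      (by simpa [Tg] using Tg.symm S.face.t3) (j := j) (by omega)
    simp only [Nat.cast_add, Nat.cast_one, Nat.cast_zero, sub_zero] at this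
    have e2 : sE X (k + 1) ((i + 1) * M (k + 1) - (j + 1)) =
        sg (tp (X (k + 2) ((i + 1) * M (k + 1) - j)) (X (k + 2) ((i + 1) * M (k + 1) - (j + 1)))) := by
      rw [sE, tp_comm, show (i + 1) * M (k + 1) - (j + 1) + 1 = (i + 1) * M (k + 1) - j by ring]
    rw [e2]
    obtain ⟨a1, a2, a3⟩ := this
    refine ⟨a1, a2, fun h4 _ => ?_⟩
    obtain ⟨a3, a4⟩ := a3 (by omega)
    refine ⟨fun hu => a3 ?_, fun hu hs => ?_⟩
    · rcases ty with h | h | h
      exacts [Or.inl h, Or.inr ⟨h, S.nu hu⟩, absurd h hu]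
    · have b1 := a4 hu.huge.1.not_tiny
      have b2 := (S.uu hu hs).1
      unfold sE at p ⊢
      linarith

theorem Bld.dr (B : Bld X) : Dr (sE X) (uE X) := by
  have hH : (10 : ℤ) ^ 18 ≤ hN := by
    have := hN_ge
    omega
  refine ⟨B.sE_pos, fun k i => sg_le _, fun k i l h1 h2 => ?_, fun k i l h1 h2 => ?_,
    fun k i hu => ?_⟩
  · exact ⟨(B.child k i l h1 h2).1, (B.child k i l h1 h2).2.1⟩
  · exact (B.child k i l (by linarith) (by linarith)).2.2 h1 h2
  · rcases B.typ k i with h | h | h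
    · right
      obtain ⟨j, hj⟩ : ∃ j, j + 201 = mN (k + 1) := ⟨_, Nat.sub_add_cancel (by linarith [mN_ge (k + 1)])⟩
      have := (B.fan (k + 1) i).uu h j (Or.inr hj)
      have e : (i + 1) * M (k + 1) - 201 = i * M (k + 1) + j := by
        rw [← blk_top, ← hj]; push_cast; ring
      simp only [Nat.cast_add, Nat.cast_one, ← add_assoc] at this
      rw [e]; exact this
    · left
      have := (B.fan (k + 1) (i + 1)).uu h 200 (Or.inl rfl)
      simp only [Nat.cast_add, Nat.cast_one, ← add_assoc] at this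
      exact this
    · exact absurd h hu

lemma Bld.bdd (B : Bld X) (k : ℕ) (i : ℤ) : ‖(X k i).1‖ + (X k i).2 ≤ 2 := by
  obtain ⟨-, h1, h2, -⟩ := (B.good k i).bd
  have := sg_le (X k i).1
  have h3 : ‖(X k i).1‖ ≤ 1 := by unfold sg at h1; nlinarith [norm_nonneg (X k i).1]
  linarith

lemma Bld.apart (B : Bld X) (k : ℕ) (i : ℤ) (h : 3 / 4 < sE X k i) :
    1 / 10 ^ 41 ≤ ‖(X (k + 1) i).1 - (X (k + 1) (i + 1)).1‖ := by
  have t := B.tg k i
  have h1 := (t.tp (B.good _ _) (B.good _ _)).2.2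
  have h2 := (B.good (k + 1) i).bd.2.2.2
  have h3 := (B.good (k + 1) (i + 1)).bd.1
  rw [t]
  unfold sE at h
  linarith

end Pool.Agent.P.MP_3555ad_an.Bd
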