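import Pool.Agent.P.MP_3555ad_an.Bd.Tiling

set_option autoImplicit false

namespace Pool.Agent.P.MP_3555ad_an.Bd

open Real Finset Filter Topology

lemma third_euc (x y : ℂ × ℝ) (t : ℝ) : ∃ z : ℂ × ℝ, 0 < x.2 → 0 < y.2 → ‖x.1 - y.1‖ = x.2 + y.2 →
    0 < t → EFace x y z ∧ z.2 = t := by
  obtain ⟨c, ρ⟩ := x
  obtain ⟨e, α⟩ := y
  obtain ⟨p, hp⟩ : ∃ p : ℝ, p = ((ρ + α) ^ 2 + (ρ + t) ^ 2 - (α + t) ^ 2) / (2 * (ρ + α) ^ 2) :=
    ⟨_, rfl⟩
  obtain ⟨q, hq⟩ : ∃ q : ℝ, q = √(4 * ρ * α * t * (ρ + α + t) / (ρ + α) ^ 4) := ⟨_, rfl⟩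
  refine ⟨(c + (e - c) * ⟨p, q⟩, t), fun h1 h2 h3 h4 => ⟨⟨h3, ?_, ?_, ?_⟩, rfl⟩⟩ <;>
    simp only at h1 h2 h3 ⊢
  all_goals
    have q0 : 0 < q := by rw [hq]; positivity
    have q2 : q ^ 2 = 4 * ρ * α * t * (ρ + α + t) / (ρ + α) ^ 4 := by
      rw [hq]; exact Real.sq_sqrt (by positivity)
    have n2 : ‖e - c‖ ^ 2 = (ρ + α) ^ 2 := by rw [norm_sub_rev, h3]
  · rw [← sq_eq_sq₀ (norm_nonneg _) (by positivity),
      show e - (c + (e - c) * ⟨p, q⟩) = (e - c) * ⟨1 - p, -q⟩ by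
        apply Complex.ext <;> simp <;> ring,
      norm_mul, mul_pow, n2, ← ip_self]
    simp only [ip]
    rw [← sq, ← sq, neg_sq, q2, hp]; field_simp; ring
  · rw [← sq_eq_sq₀ (norm_nonneg _) (by positivity), add_sub_cancel_left, norm_mul, mul_pow, n2,
      ← ip_self]
    simp only [ip]
    rw [← sq, ← sq, q2, hp]; field_simp; ring
  · have : ori c e (c + (e - c) * ⟨p, q⟩) = ip (e - c) (e - c) * q := by simp [ori, ip]; ring
    rw [this, ip_self, n2]; positivity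

lemma exists_unit (c : ℂ) : ∃ u : ℂ, ‖u‖ = 1 ∧ c = ‖c‖ • u :=
  ⟨ex _, norm_ex _, pol_step (z := 1) (x := 0) (by simp) one_ne_zero c⟩

/-- The Euclidean angle at a circle of radius `r` between tangent petals of radii `a` and `b`. -/
noncomputable def ea (r a b : ℝ) : ℝ := arccos (1 - 2 * (a / (r + a) * (b / (r + b))))

lemma frac_bd {r a : ℝ} (hr : 0 < r) (ha : 0 < a) : 0 < a / (r + a) ∧ a / (r + a) < 1 :=
  ⟨by positivity, (div_lt_one (by positivity)).2 (by linarith)⟩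

lemma ea_face (A : ℂ) {r a b : ℝ} (x : ℝ) (hr : 0 < r) (ha : 0 < a) (hb : 0 < b) :
    EFace (A, r) (A + (r + a) • ex x, a) (A + (r + b) • ex (x + ea r a b), b) := by
  obtain ⟨a1, a2⟩ := frac_bd hr ha
  obtain ⟨b1, b2⟩ := frac_bd hr hb
  have q1 := mul_pos a1 b1
  have q2 : a / (r + a) * (b / (r + b)) < 1 := by nlinarith
  have hc : cos (ea r a b) = 1 - 2 * (a / (r + a) * (b / (r + b))) :=
    Real.cos_arccos (by linarith) (by linarith)
  have hs : 0 < sin (ea r a b) := by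
    rw [ea, Real.sin_arccos]; exact Real.sqrt_pos.2 (by nlinarith)
  have i1 := ip_ex 1 (by simp) x (x + ea r a b)
  have i2 := cp_ex 1 (by simp) x (x + ea r a b)
  have i3 := ip_self (ex x)
  have i4 := ip_self (ex (x + ea r a b))
  rw [one_mul, one_mul, add_sub_cancel_left] at i1 i2
  rw [norm_ex] at i3 i4
  refine ⟨?_, ?_, ?_, ?_⟩ <;> simp only
  · rw [sub_add_cancel_left, norm_neg, norm_smul, norm_ex, Real.norm_eq_abs,
      abs_of_pos (by positivity), mul_one]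
  · rw [add_sub_add_left_eq_sub, ← sq_eq_sq₀ (norm_nonneg _) (by positivity), ← ip_self]
    have : ip ((r + a) • ex x - (r + b) • ex (x + ea r a b))
        ((r + a) • ex x - (r + b) • ex (x + ea r a b)) = (r + a) ^ 2 * ip (ex x) (ex x) +
        (r + b) ^ 2 * ip (ex (x + ea r a b)) (ex (x + ea r a b)) -
        2 * (r + a) * (r + b) * ip (ex x) (ex (x + ea r a b)) := by
      simp only [ip, Complex.sub_re, Complex.sub_im, Complex.smul_re, Complex.smul_im, smul_eq_mul]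
      ring
    rw [this, i1, i3, i4, hc]; field_simp; ring
  · rw [add_sub_cancel_left, norm_smul, norm_ex, Real.norm_eq_abs, abs_of_pos (by positivity),
      mul_one, add_comm]
  · have : ori A (A + (r + a) • ex x) (A + (r + b) • ex (x + ea r a b)) =
        (r + a) * (r + b) * cp (ex x) (ex (x + ea r a b)) := by
      simp only [ori, cp, Complex.add_re, Complex.add_im, Complex.smul_re, Complex.smul_im,
        smul_eq_mul]
      ring
    rw [this, i2]; positivity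

lemma ea_mono {r a b a' b' : ℝ} (hr : 0 < r) (ha : 0 < a) (hb : 0 < b) (h1 : a ≤ a') (h2 : b ≤ b') :
    ea r a b ≤ ea r a' b' := by
  have key : ∀ {x y : ℝ}, 0 < x → x ≤ y → x / (r + x) ≤ y / (r + y) := by
    intro x y hx hxy
    rw [div_le_div_iff₀ (by positivity) (by linarith)]; nlinarith
  refine Real.arccos_le_arccos ?_
  have := mul_le_mul (key ha h1) (key hb h2) (frac_bd hr hb).1.le (frac_bd hr (by linarith)).1.le
  linarith

lemma ea_jump {r t : ℝ} (ht : 0 < t) (h : t ≤ 2 * r) :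
    ea r t t + 2 * (t ^ 2 / (2 * t + r) ^ 2) ≤ ea r (2 * t) (2 * t) := by
  have hr : 0 < r := by linarith
  obtain ⟨a1, a2⟩ := frac_bd hr ht
  obtain ⟨b1, b2⟩ := frac_bd hr (show 0 < 2 * t by linarith)
  have m := ea_mono hr ht ht (show t ≤ 2 * t by linarith) (show t ≤ 2 * t by linarith)
  have c := Real.abs_cos_sub_cos_le (ea r t t) (ea r (2 * t) (2 * t))
  rw [abs_sub_comm (ea r t t), abs_of_nonneg (sub_nonneg.2 m), ea, ea,
    Real.cos_arccos (by nlinarith) (by nlinarith), Real.cos_arccos (by nlinarith) (by nlinarith)] at c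
  have e1 : 2 * t / (r + 2 * t) * (2 * t / (r + 2 * t)) = 4 * (t ^ 2 / (2 * t + r) ^ 2) := by
    field_simp; ring
  have e2 : t / (r + t) * (t / (r + t)) ≤ 3 * (t ^ 2 / (2 * t + r) ^ 2) := by
    rw [div_mul_div_comm, ← mul_div_assoc, div_le_div_iff₀ (by positivity) (by positivity)]
    nlinarith [mul_nonneg (sq_nonneg t) (show 0 ≤ 3 * (r + t) ^ 2 - (2 * t + r) ^ 2 by nlinarith)]
  have := (abs_le.1 c).2
  unfold ea
  linarith

/-- A chain of equal small petals between two prescribed petals. -/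
lemma chainE {v x y : ℂ × ℝ} (hv : 0 < v.2) (hx : 0 < x.2) (hy : 0 < y.2)
    (tx : ‖v.1 - x.1‖ = v.2 + x.2) (ty : ‖v.1 - y.1‖ = v.2 + y.2) {t₀ : ℝ} (ht : 0 < t₀)
    (h2 : t₀ ≤ 2 * v.2) {n : ℕ} (hn : 2 ≤ n) (big : 4 * (2 * t₀ + v.2) ^ 2 ≤ (n - 2) * t₀ ^ 2) :
    ∃ s : ℕ → ℂ × ℝ, s 0 = x ∧ s n = y ∧ (∀ j, EFace v (s j) (s (j + 1))) ∧
      ∀ j, 0 < j → j < n → t₀ ≤ (s j).2 ∧ (s j).2 ≤ 2 * t₀ := by
  obtain ⟨A, r⟩ := v
  simp only at hv tx ty h2 big
  have pol : ∀ w : ℂ × ℝ, ‖A - w.1‖ = r + w.2 → ∃ α, w = (A + (r + w.2) • ex α, w.2) := by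
    intro w hw
    have := pol_step (z := 1) (x := 0) (by simp) one_ne_zero (w.1 - A)
    rw [norm_sub_rev, hw] at this
    exact ⟨_, Prod.ext (by simp only; rw [← this]; ring) rfl⟩
  obtain ⟨α, hα⟩ := pol x tx
  obtain ⟨β, hβ⟩ := pol y ty
  let T : ℝ → ℕ → ℝ := fun t j => if j = 0 then x.2 else if j < n then t else y.2
  have T0 : ∀ t, 0 < t → ∀ j, 0 < T t j := by
    intro t ht j
    simp only [T]
    split_ifs
    exacts [hx, ht, hy]
  have Tc : ∀ j, Continuous fun t => T t j := by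
    intro j
    simp only [T]
    split_ifs
    exacts [continuous_const, continuous_id, continuous_const]
  have Tm : ∀ j, T t₀ j ≤ T (2 * t₀) j := by
    intro j
    simp only [T]
    split_ifs <;> linarith
  let G : ℝ → ℝ := fun t => ∑ j ∈ range n, ea r (T t j) (T t (j + 1))
  have Gc : ContinuousOn G (Set.Icc t₀ (2 * t₀)) := by
    refine continuousOn_finsetSum _ fun j _ => Real.continuous_arccos.comp_continuousOn ?_
    have k : ∀ j, ContinuousOn (fun t => T t j / (r + T t j)) (Set.Icc t₀ (2 * t₀)) := fun j =>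
      (Tc j).continuousOn.div (continuous_const.add (Tc j)).continuousOn fun t h =>
        (add_pos hv (T0 t (ht.trans_le h.1) j)).ne'
    exact continuousOn_const.sub (continuousOn_const.mul ((k j).mul (k (j + 1))))
  have G1 : G t₀ + 2 * π ≤ G (2 * t₀) := by
    have e1 : ∑ j ∈ Ico 1 (n - 1), (ea r (T (2 * t₀) j) (T (2 * t₀) (j + 1)) -
        ea r (T t₀ j) (T t₀ (j + 1))) ≤ G (2 * t₀) - G t₀ := by
      rw [← sum_sub_distrib]
      exact sum_le_sum_of_subset_of_nonneg (fun j hj => by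
        rw [mem_Ico] at hj; rw [mem_range]; omega) fun j _ _ =>
          sub_nonneg.2 (ea_mono hv (T0 _ ht _) (T0 _ ht _) (Tm _) (Tm _))
    have e2 := card_nsmul_le_sum (Ico 1 (n - 1)) (fun j => ea r (T (2 * t₀) j) (T (2 * t₀) (j + 1)) -
        ea r (T t₀ j) (T t₀ (j + 1))) (2 * (t₀ ^ 2 / (2 * t₀ + r) ^ 2)) fun j hj => by
      rw [mem_Ico] at hj
      simp only [T]
      rw [if_neg (by omega), if_pos (by omega), if_neg (by omega), if_pos (by omega),
        if_neg (by omega), if_pos (by omega), if_neg (by omega), if_pos (by omega)]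
      linarith [ea_jump ht h2]
    rw [Nat.card_Ico, nsmul_eq_mul, Nat.sub_sub, Nat.cast_sub hn] at e2
    have e3 : 4 ≤ ((n : ℝ) - 2) * (t₀ ^ 2 / (2 * t₀ + r) ^ 2) := by
      rw [← mul_div_assoc, le_div_iff₀ (by positivity)]; exact big
    push_cast at e2
    linarith [Real.pi_le_four]
  have hp := Real.pi_pos
  obtain ⟨m, m1, m2⟩ : ∃ m : ℤ, G t₀ ≤ β - α + m * (2 * π) ∧ β - α + m * (2 * π) ≤ G t₀ + 2 * π := by
    refine ⟨⌈(G t₀ - (β - α)) / (2 * π)⌉, ?_, ?_⟩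
    · have := (div_le_iff₀ (by positivity)).1 (Int.le_ceil ((G t₀ - (β - α)) / (2 * π)))
      linarith
    · have := Int.ceil_lt_add_one ((G t₀ - (β - α)) / (2 * π))
      rw [← sub_lt_iff_lt_add, lt_div_iff₀ (by positivity)] at this
      linarith
  obtain ⟨t, ⟨t1, t2⟩, e⟩ := intermediate_value_Icc (by linarith) Gc ⟨m1, m2.trans G1⟩
  have t0 : 0 < t := by linarith
  refine ⟨fun j => (A + (r + T t j) • ex (α + ∑ i ∈ range j, ea r (T t i) (T t (i + 1))), T t j),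
    ?_, ?_, fun j => ?_, fun j j0 j1 => ?_⟩
  · rw [hα]; simp [T]
  · have e' : ∑ i ∈ range n, ea r (T t i) (T t (i + 1)) = β - α + m * (2 * π) := e
    have e2 : T t n = y.2 := by simp only [T]; rw [if_neg (by omega), if_neg (by omega)]
    simp only
    rw [e', e2, ← add_assoc, add_sub_cancel, ex_add, ex_int, mul_one, ← hβ]
  · simp only
    rw [sum_range_succ, ← add_assoc]
    exact ea_face A _ hv (T0 t t0 _) (T0 t t0 _)
  · simp only [T]
    rw [if_neg (by omega), if_pos j1]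
    exact ⟨t1, t2⟩

/-- The point of tangency. -/
noncomputable def tp (x y : ℂ × ℝ) : ℂ := (x.2 + y.2)⁻¹ • (y.2 • x.1 + x.2 • y.1)

lemma tp_comm (x y : ℂ × ℝ) : tp x y = tp y x := by rw [tp, tp, add_comm x.2, add_comm (y.2 • _)]

lemma tp_left {x y : ℂ × ℝ} (hx : 0 < x.2) (hy : 0 < y.2) (t : ‖x.1 - y.1‖ = x.2 + y.2) :
    ‖tp x y - x.1‖ = x.2 := by
  have : tp x y - x.1 = (-(x.2 / (x.2 + y.2))) • (x.1 - y.1) := by
    have h : x.2 + y.2 ≠ 0 := by positivity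
    apply Complex.ext <;>
      simp only [tp, Complex.sub_re, Complex.sub_im, Complex.add_re, Complex.add_im,
        Complex.smul_re, Complex.smul_im, smul_eq_mul] <;> field_simp <;> ring
  rw [this, norm_smul, t, norm_neg, Real.norm_eq_abs, abs_of_pos (by positivity)]
  field_simp

lemma stewart {v x y : ℂ × ℝ} (hv : 0 < v.2) (hx : 0 < x.2) (hy : 0 < y.2)
    (t1 : ‖v.1 - x.1‖ = v.2 + x.2) (t2 : ‖v.1 - y.1‖ = v.2 + y.2) (t3 : ‖x.1 - y.1‖ = x.2 + y.2)
    {d : ℝ} (hd : 0 ≤ d) (h : v.2 ^ 2 + 4 * v.2 * x.2 ≤ d ^ 2) : ‖tp x y - v.1‖ ≤ d := by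
  apply le_of_sq_le_sq _ hd
  refine le_trans ?_ h
  have e1 := ip_self (v.1 - x.1)
  have e2 := ip_self (v.1 - y.1)
  have e3 := ip_self (x.1 - y.1)
  rw [t1] at e1
  rw [t2] at e2
  rw [t3] at e3
  have h0 : 0 < x.2 + y.2 := by positivity
  have e : ‖tp x y - v.1‖ ^ 2 = v.2 ^ 2 + 4 * v.2 * x.2 * (y.2 / (x.2 + y.2)) := by
    rw [← ip_self]
    simp only [ip, tp, Complex.sub_re, Complex.sub_im, Complex.add_re, Complex.add_im,
      Complex.smul_re, Complex.smul_im, smul_eq_mul] at e1 e2 e3 ⊢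
    field_simp
    linear_combination (x.2 + y.2) * y.2 * e1 + (x.2 + y.2) * x.2 * e2 - x.2 * y.2 * e3
  have := (frac_bd hx hy).2
  rw [e]
  nlinarith [mul_pos hv hx]

/-- The conformal scale. -/
noncomputable def sg (z : ℂ) : ℝ := 1 - ‖z‖ ^ 2

lemma sg_le (z : ℂ) : sg z ≤ 1 := by unfold sg; nlinarith [sq_nonneg ‖z‖]

lemma sg_near {z w : ℂ} {d : ℝ} (hz : 0 < sg z) (h : ‖w - z‖ ≤ d) (hd : d ≤ sg z / 4) :
    sg z - 2 * d ≤ sg w ∧ sg w ≤ sg z + 2 * d := by
  unfold sg at *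
  have h1 := abs_le.1 ((abs_norm_sub_norm_le w z).trans h)
  have h2 := norm_nonneg z
  have h3 := norm_nonneg w
  have h4 : ‖z‖ < 1 := by nlinarith
  have h5 : ‖w‖ ≤ 1 := by nlinarith
  have h6 : 0 ≤ d := (norm_nonneg _).trans h
  constructor <;> nlinarith

end Pool.Agent.P.MP_3555ad_an.Bd
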