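import Pool.Agent.P.MP_3555ad_an.Bd.Build

set_option autoImplicit false

namespace Pool.Agent.P.MP_3555ad_an.Bd

open Real Finset Filter Topology MeasureTheory

/-- The measure of `F` in an interval. -/
noncomputable def mu (F : Set ℝ) (x y : ℝ) : ℝ := volume.real (F ∩ Set.Ioc x y)

lemma mu_fin (F : Set ℝ) (x y : ℝ) : volume (F ∩ Set.Ioc x y) ≠ ⊤ :=
  ne_top_of_le_ne_top (by simp) (measure_mono Set.inter_subset_right)

lemma mu_add (F : Set ℝ) (x y z : ℝ) : mu F x z ≤ mu F x y + mu F y z := by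
  refine le_trans (measureReal_mono ?_ ?_) (measureReal_union_le _ _)
  · rw [← Set.inter_union_distrib_left]
    exact Set.inter_subset_inter_right _ Set.Ioc_subset_Ioc_union_Ioc
  · exact measure_union_ne_top (mu_fin _ _ _) (mu_fin _ _ _)

lemma mu_mono {F G : Set ℝ} (h : F ⊆ G) (x y : ℝ) : mu F x y ≤ mu G x y :=
  measureReal_mono (Set.inter_subset_inter_left _ h) (mu_fin _ _ _)

lemma mu_le (F : Set ℝ) {x y : ℝ} (h : x ≤ y) : mu F x y ≤ y - x := by
  refine (measureReal_mono Set.inter_subset_right (by simp)).trans ?_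
  rw [Real.volume_real_Ioc_of_le h]

lemma mu_chain {F : Set ℝ} {g : ℤ → ℝ} {κ : ℝ} {x y : ℤ} (hxy : x ≤ y)
    (h : ∀ l, x ≤ l → l < y → mu F (g l) (g (l + 1)) ≤ κ * (g (l + 1) - g l)) :
    mu F (g x) (g y) ≤ κ * (g y - g x) := by
  induction y, hxy using Int.leInduction with
  | base => simp [mu]
  | succ m hm ih =>
    linarith [mu_add F (g x) (g m) (g (m + 1)), ih fun l h1 h2 => h l h1 (by omega),
      h m hm (by omega)]

/-- A tree of nested arcs. -/
structure Arc (θ : ℕ → ℤ → ℝ) : Prop where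
  nest : ∀ k i, θ k i = θ (k + 1) (i * M (k + 1) + hN)
  lt : ∀ k i, θ k i < θ k (i + 1)
  big : ∀ k i l, l = (i + 1) * M (k + 1) + 200 ∨ l = (i + 1) * M (k + 1) - 201 →
    θ k (i + 1) - θ k i ≤ 10 ^ 10 * (θ (k + 1) (l + 1) - θ (k + 1) l)
  tail : ∀ k i,
    θ k (i + 1) - θ (k + 1) ((i + 1) * M (k + 1) + 10 ^ 18) ≤ (θ k (i + 1) - θ k i) / 10 ^ 15 ∧
      θ (k + 1) ((i + 1) * M (k + 1) - 10 ^ 18) - θ k i ≤ (θ k (i + 1) - θ k i) / 10 ^ 15
  cover : ∀ k t, ∃ i, t ∈ Set.Ioc (θ k i) (θ k (i + 1))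

open scoped Classical in
/-- The weight in the potential. -/
noncomputable def wt (p : Prop) : ℝ := if p then 1 - 1 / 10 ^ 4 else 1

lemma wt_bd (p : Prop) : 1 / 2 ≤ wt p ∧ wt p ≤ 1 := by
  unfold wt
  split_ifs <;> norm_num

lemma wt_pos {p : Prop} (h : p) : wt p = 1 - 1 / 10 ^ 4 := if_pos h
lemma wt_neg {p : Prop} (h : ¬p) : wt p = 1 := if_neg h

/-- The points that never again see the central region. -/
def Lost (θ s : ℕ → ℤ → ℝ) (k : ℕ) : Set ℝ :=
  {t | ∀ k' ≥ k, ∀ i, t ∈ Set.Ioc (θ k' i) (θ k' (i + 1)) → s k' i ≤ 3 / 4}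

variable {θ s : ℕ → ℤ → ℝ} {u : ℕ → ℤ → Prop}

lemma Arc.decay (T : Arc θ) (D : Dr s u) (n : ℕ) : ∀ k i, mu (Lost θ s k) (θ k i) (θ k (i + 1)) ≤
    2 * (1 - 1 / 10 ^ 15) ^ n * (wt (u k i) / s k i) * (θ k (i + 1) - θ k i) := by
  induction n with
  | zero =>
    intro k i
    have h1 := (T.lt k i).le
    have h2 : 1 / 2 ≤ wt (u k i) / s k i := by
      rw [le_div_iff₀ (D.pos k i)]; linarith [(wt_bd (u k i)).1, D.le k i]
    nlinarith [mu_le (Lost θ s k) h1]
  | succ n ih =>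
    intro k i
    have p := D.pos k i
    have L0 := sub_pos.2 (T.lt k i)
    have q0 : (0 : ℝ) < (1 - 1 / 10 ^ 15) ^ n := by positivity
    by_cases hs : s k i ≤ 3 / 4
    swap
    · have : Lost θ s k ∩ Set.Ioc (θ k i) (θ k (i + 1)) = ∅ :=
        Set.eq_empty_of_forall_notMem fun t ht => hs (ht.1 k le_rfl i ht.2)
      rw [mu, this, measureReal_empty]
      have := (wt_bd (u k i)).1
      positivity
    have hH : (10 : ℤ) ^ 18 ≤ hN := by
      have := hN_ge
      omega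
    obtain ⟨W, hW⟩ : ∃ W, W = 2 * (1 - 1 / 10 ^ 15) ^ n / s k i := ⟨_, rfl⟩
    have W0 : 0 < W := by rw [hW]; positivity
    have piece : ∀ (A : ℝ) (x y : ℤ), x ≤ y →
        (∀ l, x ≤ l → l < y → wt (u (k + 1) l) * s k i ≤ A * s (k + 1) l) →
        mu (Lost θ s (k + 1)) (θ (k + 1) x) (θ (k + 1) y) ≤ W * (A * (θ (k + 1) y - θ (k + 1) x)) := by
      intro A x y hxy h
      rw [← mul_assoc]
      refine mu_chain hxy fun l h1 h2 => (ih (k + 1) l).trans
        (mul_le_mul_of_nonneg_right ?_ (sub_pos.2 (T.lt _ _)).le)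
      have h3 : wt (u (k + 1) l) / s (k + 1) l ≤ A / s k i := by
        rw [div_le_div_iff₀ (D.pos _ _) p]; exact h l h1 h2
      rw [hW, div_mul_eq_mul_div, mul_div_assoc]
      exact mul_le_mul_of_nonneg_left h3 (by positivity)
    have wl : ∀ l, wt (u (k + 1) l) * s k i ≤ s k i := fun l =>
      mul_le_of_le_one_left p.le (wt_bd _).2
    obtain ⟨c, hc⟩ : ∃ c, c = (i + 1) * M (k + 1) := ⟨_, rfl⟩
    have e1 : θ k i = θ (k + 1) (c - hN) := by
      rw [T.nest k i, hc]; congr 1; unfold M; rw [mN_eq]; push_cast; ring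
    have e2 : θ k (i + 1) = θ (k + 1) (c + hN) := by rw [T.nest k (i + 1), hc]
    have far := D.far k i
    have near := D.near k i
    obtain ⟨t1, t2⟩ := T.tail k i
    have big := T.big k i
    have nxt := D.nxt k i
    rw [← hc] at far near t1 t2 big nxt
    have f1 := piece (60 / 59) (c - hN) (c - 10 ^ 18) (by linarith) fun l h1 h2 => by
      linarith [(far l h1 (by linarith)).1, wl l]
    have f2 := piece (60 / 59) (c + 10 ^ 18) (c + hN) (by linarith) fun l h1 h2 => by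
      linarith [(far l (by linarith) h2).1, wl l]
    have mono : Monotone (θ (k + 1)) := (strictMono_int_of_lt_succ (T.lt (k + 1))).monotone
    have o1 := mono (show c - hN ≤ c - 10 ^ 18 by linarith)
    have o2 := mono (show c + 10 ^ 18 ≤ c + hN by linarith)
    have sub : Lost θ s k ⊆ Lost θ s (k + 1) := fun t ht k' hk => ht k' (by omega)
    have a1 := mu_add (Lost θ s (k + 1)) (θ (k + 1) (c - hN)) (θ (k + 1) (c - 10 ^ 18))
      (θ (k + 1) (c + hN))
    have a2 := mu_add (Lost θ s (k + 1)) (θ (k + 1) (c - 10 ^ 18)) (θ (k + 1) (c + 10 ^ 18))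
      (θ (k + 1) (c + hN))
    refine (mu_mono sub _ _).trans ?_
    have goal : 2 * (1 - 1 / 10 ^ 15) ^ (n + 1) * (wt (u k i) / s k i) * (θ k (i + 1) - θ k i) =
        W * ((1 - 1 / 10 ^ 15) * wt (u k i) * (θ k (i + 1) - θ k i)) := by
      rw [hW]; ring
    rw [goal]
    rw [← e1] at f1 o1 a1
    rw [← e2] at f2 o2 a1 a2
    by_cases hu : u k i
    · have f3 := piece (2000 / 2001) (c - 10 ^ 18) (c + 10 ^ 18) (by linarith) fun l h1 h2 => by
        linarith [(near l h1 h2).2 hu hs, wl l]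
      have : 60 / 59 * (θ (k + 1) (c - 10 ^ 18) - θ k i) +
          2000 / 2001 * (θ (k + 1) (c + 10 ^ 18) - θ (k + 1) (c - 10 ^ 18)) +
          60 / 59 * (θ k (i + 1) - θ (k + 1) (c + 10 ^ 18)) ≤
          (1 - 1 / 10 ^ 15) * wt (u k i) * (θ k (i + 1) - θ k i) := by
        rw [wt_pos hu]; linarith
      refine le_trans ?_ (mul_le_mul_of_nonneg_left this W0.le)
      rw [mul_add, mul_add]
      exact a1.trans ((add_le_add f1 (a2.trans (add_le_add f3 f2))).trans_eq (add_assoc _ _ _).symm)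
    · obtain ⟨l, hl, ul⟩ : ∃ l, (l = c + 200 ∨ l = c - 201) ∧ u (k + 1) l := by
        rcases nxt hu with h | h
        exacts [⟨_, Or.inl rfl, h⟩, ⟨_, Or.inr rfl, h⟩]
      have l1 : c - 10 ^ 18 ≤ l := by rcases hl with rfl | rfl <;> linarith
      have l2 : l + 1 ≤ c + 10 ^ 18 := by rcases hl with rfl | rfl <;> linarith
      have nr : ∀ j, c - 10 ^ 18 ≤ j → j < c + 10 ^ 18 →
          s k i ≤ (1 + 2 / 10 ^ 18) * s (k + 1) j := fun j h1 h2 => by
        linarith [(near j h1 h2).1 hu]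
      have f3 := piece (1 + 2 / 10 ^ 18) (c - 10 ^ 18) l l1 fun j h1 h2 =>
        (wl j).trans (nr j h1 (by linarith))
      have f4 := piece (1 + 2 / 10 ^ 18) (l + 1) (c + 10 ^ 18) l2 fun j h1 h2 =>
        (wl j).trans (nr j (by linarith) h2)
      have f5 := piece (1 + 2 / 10 ^ 18 - 9 / 10 ^ 5) l (l + 1) (by linarith) fun j h1 h2 => by
        obtain rfl : j = l := by omega
        rw [wt_pos ul]
        linarith [nr j l1 (by linarith), D.pos (k + 1) j]
      have a3 := mu_add (Lost θ s (k + 1)) (θ (k + 1) (c - 10 ^ 18)) (θ (k + 1) l)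
        (θ (k + 1) (c + 10 ^ 18))
      have a4 := mu_add (Lost θ s (k + 1)) (θ (k + 1) l) (θ (k + 1) (l + 1))
        (θ (k + 1) (c + 10 ^ 18))
      have : 60 / 59 * (θ (k + 1) (c - 10 ^ 18) - θ k i) +
          (1 + 2 / 10 ^ 18) * (θ (k + 1) l - θ (k + 1) (c - 10 ^ 18)) +
          (1 + 2 / 10 ^ 18 - 9 / 10 ^ 5) * (θ (k + 1) (l + 1) - θ (k + 1) l) +
          (1 + 2 / 10 ^ 18) * (θ (k + 1) (c + 10 ^ 18) - θ (k + 1) (l + 1)) +
          60 / 59 * (θ k (i + 1) - θ (k + 1) (c + 10 ^ 18)) ≤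
          (1 - 1 / 10 ^ 15) * wt (u k i) * (θ k (i + 1) - θ k i) := by
        rw [wt_neg hu]; linarith [big l hl]
      refine le_trans ?_ (mul_le_mul_of_nonneg_left this W0.le)
      rw [mul_add, mul_add, mul_add, mul_add]
      refine a1.trans ((add_le_add f1 (a2.trans (add_le_add (a3.trans (add_le_add f3
        (a4.trans (add_le_add f5 f4)))) f2))).trans_eq ?_)
      simp only [add_assoc]

theorem Arc.ae (T : Arc θ) (D : Dr s u) : ∀ᵐ t : ℝ, ∀ k, ∃ k' ≥ k, ∃ i,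
    t ∈ Set.Ioc (θ k' i) (θ k' (i + 1)) ∧ 3 / 4 < s k' i := by
  refine ae_all_iff.2 fun k => ?_
  have key : ∀ i, volume (Lost θ s k ∩ Set.Ioc (θ k i) (θ k (i + 1))) = 0 := by
    intro i
    have t1 := (((tendsto_pow_atTop_nhds_zero_of_lt_one (r := (1 - 1 / 10 ^ 15 : ℝ)) (by norm_num)
      (by norm_num)).const_mul 2).mul_const (wt (u k i) / s k i)).mul_const (θ k (i + 1) - θ k i)
    rw [mul_zero, zero_mul, zero_mul] at t1
    have := ge_of_tendsto' t1 fun n => T.decay D n k i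
    exact (measureReal_eq_zero_iff (mu_fin _ _ _)).1 (le_antisymm this measureReal_nonneg)
  rw [ae_iff]
  refine measure_mono_null (fun t ht => ?_) (measure_iUnion_null key)
  obtain ⟨i, hi⟩ := T.cover k t
  refine Set.mem_iUnion.2 ⟨i, fun k' hk i' hi' => ?_, hi⟩
  by_contra hn
  exact ht ⟨k', hk, i', hi', not_le.1 hn⟩

end Pool.Agent.P.MP_3555ad_an.Bd
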