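import Pool.Agent.P.MP_3555ad_an.Bd.Arcs
import Pool.Agent.P.MP_3555ad_an.Bd.Drift

set_option autoImplicit false

namespace Pool.Agent.P.MP_3555ad_an.Bd

open Real Filter Topology MeasureTheory Metric

/-- A nontangential approach along which the images do not converge. -/
def BadV (Z z : V → ℂ) (ζ : ℂ) : Prop :=
  ∃ v : ℕ → V, Tendsto (fun j => Z (v j)) atTop (𝓝 ζ) ∧
    (∃ C : ℝ, ∀ j, ‖ζ - Z (v j)‖ ≤ C * (1 - ‖Z (v j)‖)) ∧
    ¬∃ w, Tendsto (fun j => z (v j)) atTop (𝓝 w)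

lemma bad_of {Z z : V → ℂ} {ζ : ℂ} {C c : ℝ} (hC : 0 ≤ C) (hc : 0 < c)
    (H : ∀ k : ℕ, ∃ v : ℕ → V, (∀ j, ‖ζ - Z (v j)‖ ≤ C * (1 - ‖Z (v j)‖) ∧
      1 - ‖Z (v j)‖ ≤ 3 * eps k) ∧ c ≤ ‖z (v 0) - z (v 1)‖) : BadV Z z ζ := by
  choose v h1 h2 using H
  refine ⟨fun j => v (j / 2) (j % 2), ?_, ⟨C, fun j => (h1 _ _).1⟩, ?_⟩
  · rw [tendsto_iff_norm_sub_tendsto_zero]
    refine squeeze_zero (g := fun j => C * (3 * eps (j / 2))) (fun _ => norm_nonneg _)
      (fun j => (norm_sub_rev _ _).trans_le ((h1 _ _).1.trans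
        (mul_le_mul_of_nonneg_left (h1 _ _).2 hC))) ?_
    have := ((eps_tendsto.comp (Nat.tendsto_div_const_atTop two_ne_zero)).const_mul 3).const_mul C
    simpa using this
  · rintro ⟨w, hw⟩
    have t0 : Tendsto (fun k : ℕ => 2 * k) atTop atTop := tendsto_id.const_mul_atTop' two_pos
    have t1 := ((hw.comp t0).sub (hw.comp ((tendsto_add_atTop_nat 1).comp t0))).norm
    rw [sub_self, norm_zero] at t1
    obtain ⟨j, hj⟩ := (t1.eventually (gt_mem_nhds hc)).exists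
    simp only [Function.comp] at hj
    rw [show 2 * j / 2 = j by omega, show 2 * j % 2 = 0 by omega, show (2 * j + 1) / 2 = j by omega,
      show (2 * j + 1) % 2 = 1 by omega] at hj
    linarith [h2 j]

lemma nbr (b : V) : ∃ S : Finset V, S.card ≤ mN 0 + 5 ∧ ∀ a d, FF a b d → a ∈ S := by
  classical
  obtain ⟨⟨k, i⟩, hb⟩ := b
  refine ⟨(Finset.range (mN k + 1)).image (fun j : ℕ => mk (k + 1) (i * M k + j)) ∪
    {mk (k - 1) (i / M (k - 1)), mk k (i + 1), mk k (i - 1), mk (k - 1) (i / M (k - 1) - 1)},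
    (Finset.card_union_le _ _).trans ((add_le_add (Finset.card_image_le.trans_eq
      (Finset.card_range _)) Finset.card_le_four).trans_eq (add_assoc _ _ _)), fun a d h => ?_⟩
  have key : ∀ {k' : ℕ} {l : ℤ}, (⟨(k, i), hb⟩ : V) = mk k' l → k = k' ∧
      ∀ g : ℤ → V, (∀ x, g (x + nn k') = g x) → g l = g i := by
    intro k' l e
    have e' := congrArg Subtype.val e
    simp only [mk, Prod.mk.injEq] at e'
    exact ⟨e'.1, fun g hg => by rw [e'.2, per_emod hg]⟩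
  have kid : ∀ (q : ℤ) (j : ℕ), mk (k + 1) ((q + nn k) * M k + j) = mk (k + 1) (q * M k + j) :=
    fun q j => by rw [add_nn_mul, add_right_comm, per_mk]
  simp only [Finset.mem_union, Finset.mem_image, Finset.mem_range, Finset.mem_insert,
    Finset.mem_singleton]
  rcases h with (⟨k', l, rfl, e, -⟩ | ⟨k', l, rfl, e, -⟩) | (⟨k', l, e, -, rfl⟩ | ⟨k', l, e, -, rfl⟩) |
    (⟨k', l, -, rfl, e⟩ | ⟨k', l, -, rfl, e⟩) <;> obtain ⟨rfl, g⟩ := key e
  · exact Or.inr (Or.inl (g (fun x => mk k' (x / M k')) fun x => by rw [add_nn_div, per_mk]))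
  · refine Or.inr (Or.inr (Or.inl ?_))
    have := g (fun x => mk (k' + 1) (x + 1)) fun x => by rw [add_right_comm, per_mk]
    rwa [sub_add_cancel] at this
  · obtain ⟨j, hj, h1, -⟩ := blk_ex k l
    refine Or.inl ⟨j + 1, by omega, ?_⟩
    rw [← g (fun x => mk (k + 1) (x * M k + (j + 1 : ℕ))) fun x => kid x _]
    congr 1
    push_cast
    linarith
  · refine Or.inl ⟨0, by omega, ?_⟩
    rw [← g (fun x => mk (k' + 1 + 1) (x * M (k' + 1) + (0 : ℕ))) fun x => kid x _]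
    simp
  · refine Or.inr (Or.inr (Or.inr (Or.inl ?_)))
    have := g (fun x => mk (k' + 1) (x - 1)) fun x => by rw [add_sub_right_comm, per_mk]
    rwa [add_sub_cancel_right] at this
  · refine Or.inr (Or.inr (Or.inr (Or.inr ?_)))
    have := g (fun x => mk (k' + 1) (x / M (k' + 1) - 1)) fun x => by
      rw [add_nn_div, add_sub_right_comm, per_mk]
    rwa [mul_div_M] at this

theorem core : ∃ (c H z : V → ℂ) (r ρ : V → ℝ) (m : Mesh c FF),
    m.complex.space = ball 0 1 ∧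
    (∀ t < 1, {s ∈ m.complex.faces |
      (convexHull ℝ (s : Set ℂ) ∩ closedBall 0 t).Nonempty}.Finite) ∧
    (∀ v, 0 < r v ∧ ‖c v‖ + r v < 1) ∧
    (∀ x y w, FF x y w → EFace (c x, r x) (c y, r y) (c w, r w)) ∧
    (∀ v, 0 < ρ v ∧ ‖z v‖ + ρ v ≤ 2) ∧
    (∀ x y w, FF x y w → EFace (z x, ρ x) (z y, ρ y) (z w, ρ w)) ∧
    (∀ v, ‖H v‖ < 1 ∧ ∃ q : ℝ, ∀ w, ‖w - c v‖ = r v →
      ‖w - H v‖ = q * ‖1 - (starRingEnd ℂ) (H v) * w‖) ∧
    ∀ᵐ t : ℝ, BadV c z (ex t) ∧ BadV H z (ex t) := by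
  obtain ⟨η, h⟩ := exists_lab
  obtain ⟨U, L⟩ := exists_lay h
  obtain ⟨a, A⟩ := exists_args h L
  obtain ⟨θ, T⟩ := exists_th h L A
  obtain ⟨X, B⟩ := exists_bld
  have P := B.pack
  have R : Arc θ := ⟨T.nest, T.lt h L A, fun k i _ hl => T.big h L A k i hl, T.tail h L A,
    T.cover h L A⟩
  refine ⟨cV U, fun v => hc (lift U v), fun v => (lift X v).1, rV U, fun v => (lift X v).2,
    A.mesh h L, A.space h L, fun t ht => A.finite h L ht, fun v => ⟨L.rV_pos h v, L.inside h v⟩,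
    fun x y w hF => (L.pack h).face hF, fun v => ⟨P.pos _ _, B.bdd _ _⟩, fun x y w hF => P.face hF,
    fun v => ⟨?_, _, (L.ok h _ _).hc_spec (L.gt h _ _)⟩, ?_⟩
  · have := (L.ok h v.1.1 v.1.2).hc_lower (L.gt h _ _)
    have h2 := div_pos (sv_pos (L.gt h v.1.1 v.1.2)) (mul_pos two_pos (L.ok h v.1.1 v.1.2).pos)
    simp only [lift]
    linarith
  · filter_upwards [R.ae B.dr] with t ht
    have key : ∀ Z : V → ℂ, (∀ k i, Z (mk k i) = cen (U k i) ∨ Z (mk k i) = hc (U k i)) →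
        BadV Z (fun v => (lift X v).1) (ex t) := by
      intro Z hZ
      refine bad_of (C := 400 * hN) (c := 1 / 10 ^ 41) (by positivity) (by positivity) fun k => ?_
      obtain ⟨k', hk, i, hi, hs⟩ := ht k
      refine ⟨fun j => mk (k' + 1) (if j = 0 then i else i + 1), fun j => ?_, ?_⟩
      · have := T.near h L A (v := if j = 0 then i else i + 1) (by split_ifs <;> simp) hi (hZ _ _)
        exact ⟨this.1, this.2.trans (by linarith [eps_anti hk])⟩
      · simp only [lift_mk P.per, if_true, one_ne_zero, if_false]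
        exact B.apart k' i hs
    exact ⟨key _ fun k i => Or.inl (cV_mk h L k i), key _ fun k i => Or.inr (by rw [lift_mk L.per])⟩

end Pool.Agent.P.MP_3555ad_an.Bd
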