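import Pool.Agent.P.MP_3555ad_an.Bd.Labels

set_option autoImplicit false

namespace Pool.Agent.P.MP_3555ad_an.Bd

open Real Finset

lemma blk_div (k : ℕ) (i : ℤ) {j : ℕ} (hj : j < mN k) : (i * M k + j) / M k = i := by
  have h : (j : ℤ) < M k := by unfold M; exact_mod_cast hj
  rw [add_comm, Int.add_mul_ediv_right _ _ (M_pos k).ne', Int.ediv_eq_zero_of_lt (by omega) h,
    zero_add]
lemma blk_mod (k : ℕ) (i : ℤ) {j : ℕ} (hj : j < mN k) : (i * M k + j) % M k = j := by
  have h : (j : ℤ) < M k := by unfold M; exact_mod_cast hj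
  rw [add_comm, Int.add_mul_emod_self_right, Int.emod_eq_of_lt (by omega) h]
lemma blk_ex (k : ℕ) (l : ℤ) : ∃ j : ℕ, j < mN k ∧ l = l / M k * M k + j ∧ (j : ℤ) = l % M k := by
  have h1 := Int.emod_nonneg l (M_pos k).ne'
  have h2 := Int.emod_lt_of_pos l (M_pos k)
  refine ⟨(l % M k).toNat, ?_, ?_, ?_⟩
  · unfold M at h1 h2 ⊢; omega
  · rw [Int.toNat_of_nonneg h1, add_comm, mul_comm]; exact (Int.emod_add_mul_ediv l _).symm
  · rw [Int.toNat_of_nonneg h1]
lemma blk_top (k : ℕ) (i : ℤ) : i * M k + (mN k : ℕ) = (i + 1) * M k := by unfold M; ring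
lemma pred_div_of_mod_ne (k : ℕ) {i : ℤ} (h : i % M k ≠ 0) : (i - 1) / M k = i / M k := by
  obtain ⟨j, hj, h1, h2⟩ := blk_ex k i
  obtain ⟨j, rfl⟩ : ∃ j', j = j' + 1 := ⟨j - 1, by omega⟩
  have : i - 1 = i / M k * M k + j := by push_cast at h1; linarith
  rw [this, blk_div k _ (by omega)]
lemma pred_div_mul (k : ℕ) (q : ℤ) : (q * M k - 1) / M k = q - 1 := by
  have h := mN_ge k
  have : q * M k - 1 = (q - 1) * M k + (mN k - 1 : ℕ) := by
    rw [Nat.cast_sub (by omega)]; unfold M; push_cast; ring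
  rw [this, blk_div k _ (by omega)]
lemma mul_div_M (k : ℕ) (q : ℤ) : q * M k / M k = q := Int.mul_ediv_cancel _ (M_pos k).ne'
lemma eq_mul_of_mod {k : ℕ} {i : ℤ} (h : i % M k = 0) : i = i / M k * M k := by
  obtain ⟨j, -, h1, h2⟩ := blk_ex k i
  rw [h] at h2; rw [h2] at h1; simpa using h1

/-- A chain of petals around `v`. -/
noncomputable def chain (v st : Cir) (y : ℕ → ℝ) : ℕ → Cir
  | 0 => st
  | j + 1 => third v (chain v st y j) (y (j + 1))

lemma chain_spec {v st : Cir} {y : ℕ → ℝ} (hv : Ok v) (h1 : 1 < v.η) (hs : Ok st)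
    (ht : Tang v st) (h0 : st.η = y 0) (hy : ∀ j, 1 ≤ y j) (j : ℕ) :
    Ok (chain v st y j) ∧ Tang v (chain v st y j) ∧ (chain v st y j).η = y j ∧
      dir v (chain v st y j) = dir v st * ex (∑ n ∈ range j, ang v.η (y n) (y (n + 1))) := by
  induction j with
  | zero => exact ⟨hs, ht, h0, by simp [chain]⟩
  | succ j ih =>
    have hf := face_third hv h1 ih.1 ih.2.1 (hy (j + 1))
    refine ⟨hf.oc, hf.tca.symm, rfl, ?_⟩
    have := hf.dir h1
    rw [ih.2.2.2, ih.2.2.1] at this
    rw [sum_range_succ, ex_add, ← mul_assoc]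
    exact this

lemma chain_face {v st : Cir} {y : ℕ → ℝ} (hv : Ok v) (h1 : 1 < v.η) (hs : Ok st)
    (ht : Tang v st) (h0 : st.η = y 0) (hy : ∀ j, 1 ≤ y j) (j : ℕ) :
    Face v (chain v st y j) (chain v st y (j + 1)) :=
  face_third hv h1 (chain_spec hv h1 hs ht h0 hy j).1 (chain_spec hv h1 hs ht h0 hy j).2.1
    (hy (j + 1))

/-- The first child. -/
noncomputable def start (η : ℕ → ℤ → ℝ) (k : ℕ) (f : ℤ → Cir) (i : ℤ) : Cir :=
  if k = 0 then petal (f i) (η 1 (i * M 0)) 1 else third (f i) (f (i - 1)) (η (k + 1) (i * M k))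

/-- The children of vertex `i`. -/
noncomputable def kids (η : ℕ → ℤ → ℝ) (k : ℕ) (f : ℤ → Cir) (i : ℤ) : ℕ → Cir :=
  chain (f i) (start η k f i) fun j => η (k + 1) (i * M k + j)

/-- The layout. -/
noncomputable def lay (η : ℕ → ℤ → ℝ) : ℕ → ℤ → Cir
  | 0 => fun _ => ⟨η 0 0, sv (η 0 0), 0⟩
  | k + 1 => fun l => kids η k (lay η k) (l / M k) (l % M k).toNat

/-- A layout of the layered complex in the disc. -/
structure Lay (η : ℕ → ℤ → ℝ) (U : ℕ → ℤ → Cir) : Prop where
  per : Per U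
  root : ∀ i, U 0 i = ⟨η 0 0, sv (η 0 0), 0⟩
  lab : ∀ k i, (U k i).η = η k i
  fan : ∀ k l, Face (U k (l / M k)) (U (k + 1) l) (U (k + 1) (l + 1))
  down : ∀ k i, Face (U (k + 1) i) (U (k + 1) (i - 1)) (U (k + 2) (i * M (k + 1)))

variable {η : ℕ → ℤ → ℝ}

lemma dir_inner (h : Lab η) {U : ℕ → ℤ → Cir} {k : ℕ} (root : ∀ i j, U 0 i = U 0 j)
    (l0 : ∀ i, (U k i).η = η k i) (l1 : ∀ i, (U (k + 1) i).η = η (k + 1) i)
    (fan : ∀ l, Face (U k (l / M k)) (U (k + 1) l) (U (k + 1) (l + 1)))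
    (down : 1 ≤ k → ∀ i, Face (U k i) (U k (i - 1)) (U (k + 1) (i * M k))) (i : ℤ) :
    dir (U (k + 1) i) (U (k + 1) (i - 1)) =
      dir (U (k + 1) i) (U (k + 1) (i + 1)) * ex (inS η k i (η (k + 1) i)) := by
  have h1 : 1 < (U (k + 1) i).η := by rw [l1]; exact h.gt _ _
  have a1 := (fan i).rot.dir h1
  have a3 := fan (i - 1)
  rw [sub_add_cancel] at a3
  have a3 := a3.rot.rot.dir h1
  simp only [l0, l1] at a1 a3
  unfold inS
  rw [ex_add, ex_add, a3, ← mul_assoc, ← mul_assoc, ← a1]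
  congr 1
  split_ifs with hc
  · have a2 := down hc.1 (i / M k)
    rw [← eq_mul_of_mod hc.2] at a2
    have e : (i - 1) / M k = i / M k - 1 := by
      conv_lhs => rw [eq_mul_of_mod hc.2, pred_div_mul]
    have a2 := a2.rot.rot.dir h1
    simp only [l0, l1] at a2
    rw [e, a2]
  · rw [ex_zero, mul_one]
    by_cases hk : k = 0
    · subst hk; rw [root]
    · rw [pred_div_of_mod_ne k (fun h0 => hc ⟨by omega, h0⟩)]

lemma lab_zero (h : Lab η) (i : ℤ) : η 0 i = η 0 0 := by
  have := per_int (h.per 0) 0 i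
  simpa [nn] using this

lemma root_ok (h : Lab η) : Ok ⟨η 0 0, sv (η 0 0), 0⟩ :=
  ⟨h.one 0 0, sv_pos (h.gt 0 0), by
    simp only [bb, ip, Complex.zero_re, Complex.zero_im]; linarith [sv_sq (h.one 0 0)]⟩

lemma layer_step (h : Lab η) {k : ℕ} {f : ℤ → Cir} (per : ∀ i, f (i + nn k) = f i)
    (ok : ∀ i, Ok (f i)) (l0 : ∀ i, (f i).η = η k i)
    (so : ∀ i, Ok (start η k f i)) (st : ∀ i, Tang (f i) (start η k f i))
    (cl : ∀ i, kids η k f i (mN k) = start η k f (i + 1)) {g : ℤ → Cir}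
    (hg : g = fun l => kids η k f (l / M k) (l % M k).toNat) :
    (∀ i, g (i + nn (k + 1)) = g i) ∧ (∀ i, (g i).η = η (k + 1) i) ∧
      (∀ l, Face (f (l / M k)) (g l) (g (l + 1))) ∧ ∀ i, g (i * M k) = start η k f i := by
  have s0 : ∀ i, (start η k f i).η = η (k + 1) (i * M k + (0 : ℕ)) := by
    intro i
    unfold start
    split_ifs with hk
    · subst hk; simp
    · simp
  have h1 : ∀ i, 1 < (f i).η := fun i => by rw [l0]; exact h.gt _ _
  have blk : ∀ i (j : ℕ), j ≤ mN k → g (i * M k + j) = kids η k f i j := by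
    intro i j hj
    rcases hj.eq_or_lt with rfl | hj
    · have : i * M k + (mN k : ℕ) = (i + 1) * M k + (0 : ℕ) := by rw [blk_top]; simp
      have h0 : 0 < mN k := by linarith [mN_ge k]
      rw [this, hg, cl]
      simp only [blk_div k _ h0, blk_mod k _ h0]
      rfl
    · simp only [hg, blk_div k _ hj, blk_mod k _ hj, Int.toNat_natCast]
  refine ⟨fun i => ?_, fun i => ?_, fun l => ?_, fun i => ?_⟩
  · simp only [hg, add_nn_div, add_nn_mod]
    have e1 : start η k f (i / M k + nn k) = start η k f (i / M k) := by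
      unfold start
      split_ifs with hk
      · subst hk; rw [per, add_nn_mul, h.per]
      · rw [per, add_nn_mul, h.per, show i / M k + nn k - 1 = i / M k - 1 + nn k by ring, per]
    unfold kids
    rw [per, e1]
    congr 1
    funext j
    rw [add_nn_mul, add_right_comm, h.per]
  · obtain ⟨j, hj, e, -⟩ := blk_ex k i
    rw [e, blk _ _ hj.le]
    exact (chain_spec (ok _) (h1 _) (so _) (st _) (s0 _) (fun _ => h.one _ _) j).2.2.1
  · obtain ⟨j, hj, e, -⟩ := blk_ex k l
    have e' : l + 1 = l / M k * M k + (j + 1 : ℕ) := by push_cast; linarith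
    rw [e', blk _ _ hj]
    nth_rewrite 2 [e]
    rw [blk _ _ hj.le]
    exact chain_face (ok _) (h1 _) (so _) (st _) (s0 _) (fun _ => h.one _ _) j
  · have := blk i 0 (Nat.zero_le _)
    simpa [kids, chain] using this

lemma kids_dir (h : Lab η) {k : ℕ} {f : ℤ → Cir} {i : ℤ} (ok : Ok (f i)) (l0 : (f i).η = η k i)
    (so : Ok (start η k f i)) (st : Tang (f i) (start η k f i)) :
    Ok (kids η k f i (mN k)) ∧ Tang (f i) (kids η k f i (mN k)) ∧
      (kids η k f i (mN k)).η = η (k + 1) ((i + 1) * M k) ∧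
      dir (f i) (kids η k f i (mN k)) =
        dir (f i) (start η k f i) * ex (fanS η k i (η k i) (mN k)) := by
  have s0 : (start η k f i).η = η (k + 1) (i * M k + (0 : ℕ)) := by
    unfold start
    split_ifs with hk
    · subst hk; simp
    · simp
  have := chain_spec (y := fun j => η (k + 1) (i * M k + j)) ok (by rw [l0]; exact h.gt _ _) so st
    s0 (fun _ => h.one _ _) (mN k)
  refine ⟨this.1, this.2.1, by rw [← blk_top]; exact this.2.2.1, ?_⟩
  have e := this.2.2.2
  rw [l0] at e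
  simp only [Nat.cast_add, Nat.cast_one, ← add_assoc] at e
  exact e

theorem exists_lay (h : Lab η) : ∃ U, Lay η U := by
  have root : ∀ i j, lay η 0 i = lay η 0 j := fun _ _ => rfl
  have l00 : ∀ i, (lay η 0 i).η = η 0 i := fun i => (lab_zero h i).symm
  have key : ∀ k, (∀ i, (lay η k i).η = η k i) ∧ (∀ i, lay η (k + 1) (i + nn (k + 1)) = lay η (k + 1) i) ∧
      (∀ i, (lay η (k + 1) i).η = η (k + 1) i) ∧
      (∀ l, Face (lay η k (l / M k)) (lay η (k + 1) l) (lay η (k + 1) (l + 1))) ∧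
      (1 ≤ k → ∀ i, Face (lay η k i) (lay η k (i - 1)) (lay η (k + 1) (i * M k))) := by
    intro k
    induction k with
    | zero =>
      have ok : ∀ i, Ok (lay η 0 i) := fun _ => root_ok h
      have h1 : ∀ i, 1 < (lay η 0 i).η := fun _ => h.gt 0 0
      have so : ∀ i, Ok (start η 0 (lay η 0) i) := fun i => by
        simp only [start, if_true]
        exact petal_ok (ok i) (h1 i) (h.one _ _) (by simp)
      have st : ∀ i, Tang (lay η 0 i) (start η 0 (lay η 0) i) := fun i => by
        simp only [start, if_true]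
        exact petal_tang (ok i) (h1 i) _ _
      have := layer_step h (k := 0) (f := lay η 0) (fun _ => rfl) ok l00 so st (fun i => by
        obtain ⟨c1, c2, c3, c4⟩ := kids_dir h (ok i) (l00 i) (so i) (st i)
        have hs : fanS η 0 i (η 0 i) (mN 0) = 2 * π := h.sum 0 i
        rw [hs, ex_two_pi, mul_one] at c4
        rw [eq_petal (ok i) (h1 i) c1 c2, c3, c4]
        simp only [start, if_true]
        rw [dir_petal (ok i) (h1 i) (h.one _ _)]
        rfl) (g := lay η 1) rfl
      exact ⟨l00, this.1, this.2.1, this.2.2.1, fun h => absurd h (by norm_num)⟩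
    | succ k ih =>
      obtain ⟨l0, per, l1, fan, down⟩ := ih
      have ok : ∀ i, Ok (lay η (k + 1) i) := fun i => (fan i).ob
      have h1 : ∀ i, 1 < (lay η (k + 1) i).η := fun i => by rw [l1]; exact h.gt _ _
      have tp : ∀ i, Tang (lay η (k + 1) i) (lay η (k + 1) (i - 1)) := fun i => by
        have := (fan (i - 1)).tbc.symm
        rwa [sub_add_cancel] at this
      have sf : ∀ i, Face (lay η (k + 1) i) (lay η (k + 1) (i - 1))
          (start η (k + 1) (lay η (k + 1)) i) := fun i => by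
        simp only [start, Nat.succ_ne_zero, if_false]
        exact face_third (ok i) (h1 i) (ok _) (tp i) (h.one _ _)
      have := layer_step h (k := k + 1) (f := lay η (k + 1)) per ok l1 (fun i => (sf i).oc)
        (fun i => (sf i).tca.symm) (fun i => by
        obtain ⟨c1, c2, c3, c4⟩ := kids_dir h (ok i) (l1 i) (sf i).oc (sf i).tca.symm
        have d1 := (sf i).dir (h1 i)
        have d2 := dir_inner h root l0 l1 fan down i
        have s0 : (start η (k + 1) (lay η (k + 1)) i).η = η (k + 2) (i * M (k + 1)) := by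
          simp [start]
        have hs := h.sum (k + 1) i
        simp only [angS] at hs
        have hf : Face (lay η (k + 1) i) (kids η (k + 1) (lay η (k + 1)) i (mN (k + 1)))
            (lay η (k + 1) (i + 1)) := by
          refine (face_iff (ok i) (h1 i) c1 (ok _) c2 (fan i).tbc).2 ?_
          rw [c4, d1, d2, c3, s0, l1, l1, l1, mul_assoc, mul_assoc, mul_assoc, ← ex_add, ← ex_add,
            ← ex_add, ← add_assoc, ← add_assoc, hs, ex_two_pi, mul_one]
        rw [hf.rot.rot.eq_third (h1 _), c3]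
        simp [start]) (g := lay η (k + 2)) rfl
      exact ⟨l1, this.1, this.2.1, this.2.2.1, fun _ i => by rw [this.2.2.2]; exact sf i⟩
  refine ⟨lay η, fun k => ?_, fun _ => rfl, fun k => (key k).1, fun k => (key k).2.2.2.1,
    fun k => (key (k + 1)).2.2.2.2 (by omega)⟩
  cases k with
  | zero => exact fun _ => rfl
  | succ k => exact (key k).2.1

end Pool.Agent.P.MP_3555ad_an.Bd
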