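import Pool.Agent.P.MP_3555ad_an.Bd.Layout

set_option autoImplicit false

namespace Pool.Agent.P.MP_3555ad_an.Bd

open Real Finset

section pic
variable {v a b : Cir} {ω : ℂ} {x y : ℝ}

lemma ip_smul (s t : ℝ) (w z : ℂ) : ip (s • w) (t • z) = s * t * ip w z := by
  simp [ip]; ring
lemma cp_smul (s t : ℝ) (w z : ℂ) : cp (s • w) (t • z) = s * t * cp w z := by
  simp [cp]; ring
lemma cp_swap (w z : ℂ) : cp z w = -cp w z := by unfold cp; ring

lemma pic_tau (hv : Ok v) (h1 : 1 < v.η) (hω : ‖ω‖ = 1) (ho : -v.ζ = ‖v.ζ‖ • ω) (ha : Ok a)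
    (ta : Tang v a) (hx : dir v a = ω * ex x) :
    a.τ * sv v.η ^ 2 = v.τ * (1 + v.η * a.η) - ‖v.ζ‖ * (v.η + a.η) * cos x := by
  have hs := sv_pos h1
  have e := bb_view hv h1 orig a
  have h0 := ip_ex ω hω 0 x
  rw [ex_zero, mul_one, sub_zero] at h0
  rw [bb_orig, view_orig, (view_tang hv h1 ha ta).1, hx, ← smul_neg, ho, smul_smul] at e
  simp only [bb, std, ip_smul, h0] at e
  rw [← e]; field_simp

lemma pic_cpv (hv : Ok v) (h1 : 1 < v.η) (hω : ‖ω‖ = 1) (ho : -v.ζ = ‖v.ζ‖ • ω) (ha : Ok a)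
    (ta : Tang v a) (hx : dir v a = ω * ex x) :
    cp v.ζ a.ζ * sv v.η = -(‖v.ζ‖ * (v.η + a.η) * sin x) := by
  have hs := sv_pos h1
  have e := dd_view hv h1 orig v a
  have h0 := cp_ex ω hω x 0
  rw [ex_zero, mul_one, zero_sub, sin_neg] at h0
  rw [dd_orig, view_orig, view_self hv h1, (view_tang hv h1 ha ta).1, hx, ← smul_neg, ho,
    smul_smul] at e
  have z1 : ∀ z, cp z 0 = 0 := fun z => by simp [cp]
  have z2 : ∀ z, cp 0 z = 0 := fun z => by simp [cp]
  simp only [dd, std, cp_smul, h0, z1, z2] at e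
  rw [← e]; field_simp; ring

lemma pic_cpw (hv : Ok v) (h1 : 1 < v.η) (hω : ‖ω‖ = 1) (ho : -v.ζ = ‖v.ζ‖ • ω) (ha : Ok a)
    (ta : Tang v a) (hx : dir v a = ω * ex x) (hb : Ok b) (tb : Tang v b)
    (hy : dir v b = ω * ex y) :
    cp a.ζ b.ζ * sv v.η ^ 3 = v.τ * (v.η + a.η) * (v.η + b.η) * sin (y - x) -
      ‖v.ζ‖ * ((1 + v.η * a.η) * (v.η + b.η) * sin y - (1 + v.η * b.η) * (v.η + a.η) * sin x) := by
  have hs := sv_pos h1
  have e := dd_view hv h1 orig a b
  have h0 := cp_ex ω hω y 0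
  rw [ex_zero, mul_one, zero_sub, sin_neg] at h0
  have h2 := cp_ex ω hω 0 x
  rw [ex_zero, mul_one, sub_zero] at h2
  rw [dd_orig, view_orig, (view_tang hv h1 ha ta).1, (view_tang hv h1 hb tb).1, hx, hy, ← smul_neg,
    ho, smul_smul] at e
  simp only [dd, std, cp_smul, h0, h2, cp_ex ω hω] at e
  rw [← e]; field_simp; ring

end pic

lemma exists_ex {ω z : ℂ} (hω : ‖ω‖ = 1) (hz : ‖z‖ = 1) :
    ∃ x, -π < x ∧ x ≤ π ∧ z = ω * ex x := by
  have h0 : ω ≠ 0 := by rintro rfl; simp at hω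
  refine ⟨Complex.arg (z / ω), Complex.neg_pi_lt_arg _, Complex.arg_le_pi _, ?_⟩
  have := Complex.norm_mul_exp_arg_mul_I (z / ω)
  rw [norm_div, hω, hz, div_one, Complex.ofReal_one, one_mul] at this
  rw [ex, this]; field_simp

lemma sin_half_ge {x φ : ℝ} (h0 : 0 ≤ x) (h1 : x ≤ 1 / 10) (h2 : 2 * x ≤ φ)
    (h3 : φ ≤ 2 * π - 2 * x) : 99 / 100 * x ≤ sin (φ / 2) := by
  have hp := Real.pi_gt_three
  have h4 : 99 / 100 * x ≤ sin x := by
    rcases h0.eq_or_lt with rfl | h0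
    · simp
    · have := Real.sin_gt_sub_cube h0
      nlinarith [mul_pos h0 h0]
  refine h4.trans ?_
  rcases le_total (φ / 2) (π / 2) with h | h
  · exact Real.sin_le_sin_of_le_of_le_pi_div_two (by linarith) h (by linarith)
  · rw [← Real.sin_pi_sub (φ / 2)]
    exact Real.sin_le_sin_of_le_of_le_pi_div_two (by linarith) (by linarith) (by linarith)

lemma sub_one_le_sv {η : ℝ} (h : 1 ≤ η) : η - 1 ≤ sv η ^ 2 / 2 := by
  rw [sv_sq h]; nlinarith

lemma tau_lower {τ ρ η a s φ y t : ℝ} (hρ : 0 ≤ ρ) (hτ : ρ ≤ τ) (hη : 1 ≤ η) (ha : 1 ≤ a)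
    (e : t * s ^ 2 = τ * (1 + η * a) - ρ * (η + a) * cos φ) (hy : 0 ≤ y) (hy' : y ≤ 1 / 2)
    (h : y ≤ sin (φ / 2)) : 4 * τ * y ^ 2 ≤ t * s ^ 2 := by
  have hc : cos φ = 1 - 2 * sin (φ / 2) ^ 2 := by
    have := Real.cos_two_mul_eq_one_sub (φ / 2)
    rwa [mul_div_cancel₀ _ two_ne_zero] at this
  have h1 : cos φ ≤ 1 - 2 * y ^ 2 := by rw [hc]; nlinarith
  have h2 : ρ * cos φ ≤ τ * (1 - 2 * y ^ 2) :=
    (mul_le_mul_of_nonneg_left h1 hρ).trans (mul_le_mul_of_nonneg_right hτ (by nlinarith))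
  have h3 : 0 ≤ τ * ((η - 1) * (a - 1)) :=
    mul_nonneg (by linarith) (mul_nonneg (by linarith) (by linarith))
  have h4 : 2 * (τ * (2 * y ^ 2)) ≤ (η + a) * (τ - ρ * cos φ) :=
    mul_le_mul (by linarith) (by linarith) (mul_nonneg (by linarith) (by positivity)) (by linarith)
  nlinarith

lemma cpw_pos {τ ρ η a b s x y : ℝ} (hρ : 0 ≤ ρ) (hτ : ρ < τ) (hη : 1 ≤ η) (ha : 1 ≤ a)
    (hb : 1 ≤ b) (ha' : a ≤ 101 / 100) (hb' : b ≤ 101 / 100) (hs : 0 < s)
    (hη' : η - 1 ≤ s ^ 2 / 2) (h0 : 0 < sin (y - x)) (h1 : 49 / 100 * s ≤ sin ((y - x) / 2))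
    (h2 : 49 / 100 * s ≤ sin (x / 2)) (h3 : 49 / 100 * s ≤ sin (y / 2)) :
    0 < τ * (η + a) * (η + b) * sin (y - x) -
      ρ * ((1 + η * a) * (η + b) * sin y - (1 + η * b) * (η + a) * sin x) := by
  have id : sin (y - x) - sin y + sin x = 4 * sin ((y - x) / 2) * sin (x / 2) * sin (y / 2) := by
    have e1 : y - x = 2 * (y / 2 - x / 2) := by ring
    have e2 : sin y = sin (2 * (y / 2)) := by congr 1; ring
    have e3 : sin x = sin (2 * (x / 2)) := by congr 1; ring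
    have e4 : (y - x) / 2 = y / 2 - x / 2 := by ring
    rw [e4, e1, e2, e3, sin_two_mul, sin_two_mul, sin_two_mul, sin_sub, cos_sub]
    have p1 := Real.sin_sq_add_cos_sq (x / 2)
    have p2 := Real.sin_sq_add_cos_sq (y / 2)
    grind
  have sx : -(2 * sin (x / 2)) ≤ sin x := by
    have e3 : sin x = sin (2 * (x / 2)) := by congr 1; ring
    rw [e3, sin_two_mul]
    nlinarith [Real.neg_one_le_cos (x / 2)]
  have sy : sin y ≤ 2 * sin (y / 2) := by
    have e3 : sin y = sin (2 * (y / 2)) := by congr 1; ring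
    rw [e3, sin_two_mul]
    nlinarith [Real.cos_le_one (y / 2)]
  set X := sin (x / 2)
  set Y := sin (y / 2)
  set Z := sin ((y - x) / 2)
  have hX : 0 < X := by linarith
  have hY : 0 < Y := by linarith
  have ea : (η - 1) * (a - 1) ≤ s ^ 2 / 200 := by nlinarith
  have eb : (η - 1) * (b - 1) ≤ s ^ 2 / 200 := by nlinarith
  have ea0 : 0 ≤ (η - 1) * (a - 1) := mul_nonneg (by linarith) (by linarith)
  have eb0 : 0 ≤ (η - 1) * (b - 1) := mul_nonneg (by linarith) (by linarith)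
  have zx : s ^ 2 / 5 ≤ Z * X := by nlinarith
  have zy : s ^ 2 / 5 ≤ Z * Y := by nlinarith
  have k1 : (η - 1) * (a - 1) * sin y ≤ (η + a) * (2 * (Z * X) * Y) := by
    have : (η - 1) * (a - 1) * sin y ≤ s ^ 2 / 200 * (2 * Y) :=
      (mul_le_mul_of_nonneg_left sy ea0).trans (mul_le_mul_of_nonneg_right ea (by linarith))
    have h5 : s ^ 2 / 5 * Y ≤ Z * X * Y := mul_le_mul_of_nonneg_right zx hY.le
    have h6 : 0 ≤ s ^ 2 * Y := by positivity
    nlinarith
  have k2 : -((η - 1) * (b - 1) * sin x) ≤ (η + b) * (2 * (Z * Y) * X) := by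
    have : (η - 1) * (b - 1) * -sin x ≤ s ^ 2 / 200 * (2 * X) :=
      (mul_le_mul_of_nonneg_left (by linarith) eb0).trans
        (mul_le_mul_of_nonneg_right eb (by linarith))
    have h5 : s ^ 2 / 5 * X ≤ Z * Y * X := mul_le_mul_of_nonneg_right zy hX.le
    have h6 : 0 ≤ s ^ 2 * X := by positivity
    nlinarith
  have k3 := mul_le_mul_of_nonneg_left k1 (show 0 ≤ η + b by linarith)
  have k4 := mul_le_mul_of_nonneg_left k2 (show 0 ≤ η + a by linarith)
  have k5 : 0 ≤ (η + a) * (η + b) * sin (y - x) -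
      ((1 + η * a) * (η + b) * sin y - (1 + η * b) * (η + a) * sin x) := by
    have : sin (y - x) = sin y - sin x + 4 * Z * X * Y := by linarith
    rw [this]; nlinarith
  have k6 : 0 < (τ - ρ) * ((η + a) * (η + b) * sin (y - x)) :=
    mul_pos (by linarith) (by positivity)
  nlinarith [mul_nonneg hρ k5]

variable {η : ℕ → ℤ → ℝ} {U : ℕ → ℤ → Cir}

lemma Lay.ok (h : Lab η) (L : Lay η U) (k : ℕ) (i : ℤ) : Ok (U k i) := by
  cases k with
  | zero => rw [L.root]; exact root_ok h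
  | succ k => exact (L.fan k i).ob

lemma Lay.gt (h : Lab η) (L : Lay η U) (k : ℕ) (i : ℤ) : 1 < (U k i).η := by
  rw [L.lab]; exact h.gt k i

lemma Lay.fan' (L : Lay η U) (k : ℕ) (i : ℤ) {j : ℕ} (hj : j < mN k) :
    Face (U k i) (U (k + 1) (i * M k + j)) (U (k + 1) (i * M k + j + 1)) := by
  have := L.fan k (i * M k + j)
  rwa [blk_div k i hj] at this

lemma Lay.tang (L : Lay η U) (k : ℕ) (i : ℤ) {j : ℕ} (hj : j ≤ mN k) :
    Tang (U k i) (U (k + 1) (i * M k + j)) := by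
  rcases hj.eq_or_lt with rfl | hj
  · have h := mN_ge k
    have := (L.fan' k i (j := mN k - 1) (by omega)).tca.symm
    rwa [Nat.cast_sub (by omega), Nat.cast_one, add_assoc, sub_add_cancel] at this
  · exact (L.fan' k i hj).tab

lemma Lay.dir_fan (h : Lab η) (L : Lay η U) (k : ℕ) (i : ℤ) {j : ℕ} (hj : j ≤ mN k) :
    dir (U k i) (U (k + 1) (i * M k + j)) =
      dir (U k i) (U (k + 1) (i * M k)) * ex (fanS η k i (η k i) j) := by
  induction j with
  | zero => simp [fanS]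
  | succ j ih =>
    have := (L.fan' k i (j := j) (by omega)).dir (L.gt h k i)
    rw [ih (by omega), L.lab, L.lab, L.lab] at this
    rw [fanS, sum_range_succ, ex_add, ← mul_assoc, Nat.cast_succ, ← add_assoc]
    exact this

/-- The origin lies to the left of every edge of ring `k`. -/
def Left (U : ℕ → ℤ → Cir) (k : ℕ) : Prop := ∀ i, 0 < cp (U k i).ζ (U k (i + 1)).ζ

/-- The directions of the children of `(k, i)` measured from the direction of the origin. -/
structure Pic (η : ℕ → ℤ → ℝ) (U : ℕ → ℤ → Cir) (k : ℕ) (i : ℤ) (ω : ℂ) (φ : ℝ) : Prop where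
  nrm : ‖ω‖ = 1
  org : -(U k i).ζ = ‖(U k i).ζ‖ • ω
  dir : ∀ j ≤ mN k, dir (U k i) (U (k + 1) (i * M k + j)) = ω * ex (φ + fanS η k i (η k i) j)
  lo : ∀ j ≤ mN k, (j + 1) * (sv (η k i) / (101 / 100)) ≤ φ + fanS η k i (η k i) j
  hi : ∀ j ≤ mN k, φ + fanS η k i (η k i) j ≤ (2 * j + 8) * sv (η k i)
  lo' : ∀ j ≤ mN k, φ + fanS η k i (η k i) j ≤
    2 * π - (mN k - j + 1) * (sv (η k i) / (101 / 100))
  hi' : ∀ j ≤ mN k, 2 * π - (2 * (mN k - j) + 8) * sv (η k i) ≤ φ + fanS η k i (η k i) j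

lemma exists_pic (h : Lab η) (L : Lay η U) {k : ℕ} (hl : Left U (k + 1)) (i : ℤ) :
    ∃ ω φ, Pic η U (k + 1) i ω φ := by
  have ok := L.ok h (k + 1)
  have h1 := L.gt h (k + 1) i
  have hs := sv_pos h1
  have hss := h.sv_small (k + 1) i
  have hp := Real.pi_gt_three
  have c1 := hl i
  have c2 := hl (i - 1)
  rw [sub_add_cancel, cp_swap] at c2
  have z0 : (U (k + 1) i).ζ ≠ 0 := by
    intro h0; rw [h0] at c1; simp [cp] at c1
  have zp : 0 < ‖(U (k + 1) i).ζ‖ := norm_pos_iff.2 z0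
  set ω : ℂ := ‖(U (k + 1) i).ζ‖⁻¹ • -(U (k + 1) i).ζ with hω
  have n1 : ‖ω‖ = 1 := by
    rw [hω, norm_smul, norm_neg, norm_inv, norm_norm, inv_mul_cancel₀ zp.ne']
  have ho : -(U (k + 1) i).ζ = ‖(U (k + 1) i).ζ‖ • ω := by
    rw [hω, smul_smul, mul_inv_cancel₀ zp.ne', one_smul]
  have tn : Tang (U (k + 1) i) (U (k + 1) (i + 1)) := (L.fan k i).tbc
  have tp : Tang (U (k + 1) i) (U (k + 1) (i - 1)) := (L.down k i).tab
  obtain ⟨x, x1, x2, hx⟩ := exists_ex n1 (view_tang (ok i) h1 (ok _) tn).2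
  have d2 := dir_inner h (fun i j => by rw [L.root, L.root]) (L.lab k) (L.lab (k + 1)) (L.fan k)
    (fun hk i => by
      obtain ⟨k, rfl⟩ : ∃ k', k = k' + 1 := ⟨k - 1, by omega⟩
      exact L.down k i) i
  rw [hx, mul_assoc, ← ex_add] at d2
  have e1 := pic_cpv (ok i) h1 n1 ho (ok _) tn hx
  have e2 := pic_cpv (ok i) h1 n1 ho (ok _) tp d2
  have i1 := inS_nonneg η k i (η (k + 1) i)
  have i2 := inS_le h.one k i (h.one (k + 1) i)
  have p1 : 0 < ‖(U (k + 1) i).ζ‖ * ((U (k + 1) i).η + (U (k + 1) (i + 1)).η) :=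
    mul_pos zp (by linarith [(ok (i + 1)).one])
  have p2 : 0 < ‖(U (k + 1) i).ζ‖ * ((U (k + 1) i).η + (U (k + 1) (i - 1)).η) :=
    mul_pos zp (by linarith [(ok (i - 1)).one])
  have s1 : x < 0 := by
    by_contra hn
    have := Real.sin_nonneg_of_nonneg_of_le_pi (not_lt.1 hn) x2
    nlinarith [mul_pos c1 hs, mul_nonneg p1.le this]
  have s2 : 0 < x + inS η k i (η (k + 1) i) := by
    by_contra hn
    have := Real.sin_nonpos_of_nonpos_of_neg_pi_le (not_lt.1 hn) (by linarith)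
    nlinarith [mul_pos c2 hs, mul_nonneg p2.le (neg_nonneg.2 this)]
  have d1 := (L.down k i).dir h1
  rw [d2, mul_assoc, ← ex_add, L.lab, L.lab, L.lab] at d1
  have hsum := h.sum (k + 1) i
  simp only [angS] at hsum
  have a1 := le_ang (h.one (k + 1) i) (h.one (k + 1) (i - 1)) (h.one (k + 2) (i * M (k + 1)))
    (h.le _ _) (h.le _ _) (h.le _ _)
  have a2 := ang_le (h.one (k + 1) i) (h.one (k + 1) (i - 1)) (h.one (k + 2) (i * M (k + 1)))
  have a3 := le_ang (h.one (k + 1) i) (h.one (k + 2) ((i + 1) * M (k + 1))) (h.one (k + 1) (i + 1))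
    (h.le _ _) (h.le _ _) (h.le _ _)
  have a4 := ang_le (h.one (k + 1) i) (h.one (k + 2) ((i + 1) * M (k + 1))) (h.one (k + 1) (i + 1))
  refine ⟨ω, x + inS η k i (η (k + 1) i) + ang (η (k + 1) i) (η (k + 1) (i - 1))
    (η (k + 2) (i * M (k + 1))), n1, ho, fun j hj => ?_, fun j hj => ?_, fun j hj => ?_,
    fun j hj => ?_, fun j hj => ?_⟩
  · rw [L.dir_fan h _ _ hj, d1, mul_assoc, ← ex_add]
  · have := fanS_ge h.one h.le (k + 1) i (h.one (k + 1) i) (h.le _ _) (Nat.zero_le j)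
    rw [fanS_zero] at this
    push_cast at this; linarith
  · have := fanS_le h.one (k + 1) i (h.one (k + 1) i) (Nat.zero_le j)
    rw [fanS_zero] at this
    push_cast at this; linarith
  · have := fanS_ge h.one h.le (k + 1) i (h.one (k + 1) i) (h.le _ _) hj
    linarith
  · have := fanS_le h.one (k + 1) i (h.one (k + 1) i) hj
    linarith

namespace Pic
variable {k : ℕ} {i : ℤ} {ω : ℂ} {φ : ℝ}

lemma tau (P : Pic η U k i ω φ) (h : Lab η) (L : Lay η U) {j : ℕ} (hj : j ≤ mN k) :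
    (U (k + 1) (i * M k + j)).τ * sv (η k i) ^ 2 =
      (U k i).τ * (1 + η k i * η (k + 1) (i * M k + j)) -
        ‖(U k i).ζ‖ * (η k i + η (k + 1) (i * M k + j)) * cos (φ + fanS η k i (η k i) j) := by
  have := pic_tau (L.ok h k i) (L.gt h k i) P.nrm P.org (L.ok h _ _) (L.tang k i hj) (P.dir j hj)
  rwa [L.lab, L.lab] at this

lemma cpv (P : Pic η U k i ω φ) (h : Lab η) (L : Lay η U) {j : ℕ} (hj : j ≤ mN k) :
    cp (U k i).ζ (U (k + 1) (i * M k + j)).ζ * sv (η k i) =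
      -(‖(U k i).ζ‖ * (η k i + η (k + 1) (i * M k + j)) * sin (φ + fanS η k i (η k i) j)) := by
  have := pic_cpv (L.ok h k i) (L.gt h k i) P.nrm P.org (L.ok h _ _) (L.tang k i hj) (P.dir j hj)
  rwa [L.lab, L.lab] at this

lemma sin_ge (P : Pic η U k i ω φ) (h : Lab η) {j n : ℕ} (hn : n ≤ 1) (hj : n ≤ j)
    (hj' : j + n ≤ mN k) :
    49 / 100 * (n + 1) * sv (η k i) ≤ sin ((φ + fanS η k i (η k i) j) / 2) := by
  have hs := sv_pos (h.gt k i)
  have hss := h.sv_small k i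
  have h1 := P.lo j (by omega)
  have h2 := P.lo' j (by omega)
  have c1 : (n : ℝ) ≤ 1 := by exact_mod_cast hn
  have c2 : (n : ℝ) ≤ j := by exact_mod_cast hj
  have c3 : (j : ℝ) + n ≤ mN k := by exact_mod_cast hj'
  have c0 : (0 : ℝ) ≤ n := Nat.cast_nonneg n
  have := sin_half_ge (x := (n + 1) * (sv (η k i) / (101 / 100)) / 2)
    (φ := φ + fanS η k i (η k i) j) (by positivity) (by nlinarith) (by nlinarith) (by nlinarith)
  nlinarith

lemma lower (P : Pic η U k i ω φ) (h : Lab η) (L : Lay η U) {j n : ℕ} (hn : n ≤ 1) (hj : n ≤ j)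
    (hj' : j + n ≤ mN k) :
    96 / 100 * (n + 1) ^ 2 * (U k i).τ ≤ (U (k + 1) (i * M k + j)).τ := by
  have hs := sv_pos (h.gt k i)
  have hss := h.sv_small k i
  have c1 : (n : ℝ) ≤ 1 := by exact_mod_cast hn
  have c0 : (0 : ℝ) ≤ n := Nat.cast_nonneg n
  have := tau_lower (norm_nonneg _) (L.ok h k i).norm_le (h.one k i) (h.one _ _)
    (P.tau h L (j := j) (by omega)) (by positivity) (by nlinarith) (P.sin_ge h hn hj hj')
  have hp := (L.ok h k i).pos
  refine le_of_mul_le_mul_right (le_trans ?_ this) (pow_pos hs 2)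
  have : 0 ≤ (n + 1) ^ 2 * (U k i).τ * sv (η k i) ^ 2 := by positivity
  nlinarith

lemma upper (P : Pic η U k i ω φ) (h : Lab η) (L : Lay η U) (h1 : 1 ≤ (U k i).τ) {j : ℕ}
    (hj : j ≤ 14 ∨ j = mN k) : (U (k + 1) (i * M k + j)).τ ≤ 2000 * (U k i).τ := by
  have hs := sv_pos (h.gt k i)
  have hss := h.sv_small k i
  have hj' : j ≤ mN k := by have hm := mN_ge k; omega
  have hc : 1 - 648 * sv (η k i) ^ 2 ≤ cos (φ + fanS η k i (η k i) j) := by
    have key : ∀ x, 0 ≤ x → x ≤ 36 * sv (η k i) → 1 - 648 * sv (η k i) ^ 2 ≤ cos x := by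
      intro x x0 x1
      have := Real.one_sub_sq_div_two_le_cos (x := x)
      nlinarith
    rcases hj with hj | hj
    · have c1 : (j : ℝ) ≤ 14 := by exact_mod_cast hj
      exact key _ (le_trans (by positivity) (P.lo j hj')) ((P.hi j hj').trans (by nlinarith))
    · have a1 := P.lo' _ hj'
      have a2 := P.hi' _ hj'
      rw [← hj, sub_self] at a1 a2
      rw [← Real.cos_two_pi_sub]
      exact key _ (by linarith) (by linarith)
  have e := P.tau h L hj'
  have o := L.ok h k i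
  have n1 := o.nrm'
  have n2 := o.norm_le
  have n3 := norm_nonneg (U k i).ζ
  rw [L.lab, ← sv_sq (h.one k i)] at n1
  have b1 := sub_one_le_sv (h.one k i)
  have b2 := h.one k i
  have b3 := h.le k i
  have b4 := h.one (k + 1) (i * M k + j)
  have b5 := h.le (k + 1) (i * M k + j)
  set s := sv (η k i)
  set τ := (U k i).τ
  set ρ := ‖(U k i).ζ‖
  set a := η (k + 1) (i * M k + j)
  have k1 : τ - ρ ≤ s ^ 2 * τ := by nlinarith
  have k2 : τ - ρ * cos (φ + fanS η k i (η k i) j) ≤ 649 * s ^ 2 * τ := by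
    nlinarith [mul_le_mul_of_nonneg_left hc n3, mul_le_mul_of_nonneg_left n2 (sq_nonneg s)]
  have k3 : (η k i + a) * (τ - ρ * cos (φ + fanS η k i (η k i) j)) ≤ 3 * (649 * s ^ 2 * τ) := by
    have : 0 ≤ τ - ρ * cos (φ + fanS η k i (η k i) j) := by
      nlinarith [Real.cos_le_one (φ + fanS η k i (η k i) j)]
    exact mul_le_mul (by linarith) k2 this (by norm_num)
  have k4 : τ * ((η k i - 1) * (a - 1)) ≤ τ * s ^ 2 :=
    mul_le_mul_of_nonneg_left (by nlinarith) (by linarith)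
  refine le_of_mul_le_mul_right ?_ (pow_pos hs 2)
  have : 0 ≤ s ^ 2 * τ := by positivity
  nlinarith

lemma left (P : Pic η U k i ω φ) (h : Lab η) (L : Lay η U) {j : ℕ} (hj : j < mN k) :
    0 < cp (U (k + 1) (i * M k + j)).ζ (U (k + 1) (i * M k + j + 1)).ζ := by
  have hs := sv_pos (h.gt k i)
  have o := L.ok h k i
  have e := pic_cpw o (L.gt h k i) P.nrm P.org (L.ok h _ _) (L.tang k i hj.le) (P.dir j hj.le)
    (L.ok h _ _) (L.tang k i (j := j + 1) hj) (P.dir (j + 1) hj)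
  rw [L.lab, L.lab, L.lab, Nat.cast_succ, ← add_assoc] at e
  have d : φ + fanS η k i (η k i) (j + 1) - (φ + fanS η k i (η k i) j) =
      ang (η k i) (η (k + 1) (i * M k + j)) (η (k + 1) (i * M k + j + 1)) := by
    simp only [fanS, sum_range_succ]; ring
  have n1 := o.nrm'
  rw [L.lab, ← sv_sq (h.one k i)] at n1
  have := cpw_pos (norm_nonneg (U k i).ζ) (τ := (U k i).τ)
    (lt_of_pow_lt_pow_left₀ 2 o.pos.le (by nlinarith)) (h.one k i)
    (h.one (k + 1) (i * M k + j)) (h.one (k + 1) (i * M k + j + 1)) (h.le _ _) (h.le _ _) hs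
    (sub_one_le_sv (h.one k i)) (x := φ + fanS η k i (η k i) j) (y := φ + fanS η k i (η k i) (j + 1))
    (by rw [d]; exact sin_ang_pos (h.gt _ _) (h.one _ _) (h.one _ _))
    (by
      rw [d]
      refine le_trans ?_ (le_sin_half_ang (h.one _ _) (h.one _ _) (h.one _ _) (h.le _ _) (h.le _ _)
        (h.le _ _))
      rw [le_div_iff₀ (by norm_num)]; linarith)
    (by simpa using P.sin_ge h (n := 0) (j := j) (by omega) (by omega) (by omega))
    (by simpa using P.sin_ge h (n := 0) (j := j + 1) (by omega) (by omega) (by omega))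
  rw [← e] at this
  exact (mul_pos_iff_of_pos_right (pow_pos hs 3)).1 this

end Pic

lemma Lay.root_pic (h : Lab η) (L : Lay η U) :
    ∃ ω : ℂ, ‖ω‖ = 1 ∧ ∀ l : ℤ, ∀ j ≤ mN 0,
      U 1 (l * M 0 + j) = std (η 0 0) (η 1 j) (ω * ex (fanS η 0 0 (η 0 0) j)) := by
  have o := L.ok h 0 0
  have g := L.gt h 0 0
  have t0 := L.tang 0 0 (Nat.zero_le _)
  refine ⟨dir (U 0 0) (U 1 (0 * M 0)), by simpa using (view_tang o g (L.ok h _ _) t0).2,
    fun l j hj => ?_⟩
  have e : U 1 (l * M 0 + j) = U 1 (0 * M 0 + j) := by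
    have := per_int (L.per 1) (j : ℤ) l
    simpa [nn, add_comm] using this
  have e2 := (view_tang o g (L.ok h _ _) (L.tang 0 0 hj)).1
  rw [L.dir_fan h 0 0 hj, L.lab, L.lab] at e2
  have e3 : ∀ c, view (U 0 0) c = c := by
    intro c
    have hs := sv_pos (h.gt 0 0)
    rw [L.root]
    refine Cir.ext rfl ?_ ?_ <;> simp [view, boost, ip, hs.ne']
  rw [e3] at e2
  rw [e, e2]; simp

lemma Lay.left (h : Lab η) (L : Lay η U) (k : ℕ) : Left U (k + 1) := by
  induction k with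
  | zero =>
    intro l
    obtain ⟨ω, n1, hω⟩ := L.root_pic h
    obtain ⟨j, hj, e, -⟩ := blk_ex 0 l
    have e' : l + 1 = l / M 0 * M 0 + (j + 1 : ℕ) := by push_cast; linarith
    rw [e', hω _ _ hj, e, hω _ _ hj.le]
    simp only [std, cp_smul, cp_ex ω n1, fanS, sum_range_succ, add_sub_cancel_left]
    have hs := sv_pos (h.gt 0 0)
    have := h.one 0 0
    have := h.one 1 j
    have := h.one 1 (j + 1 : ℕ)
    exact mul_pos (by positivity) (sin_ang_pos (h.gt _ _) (h.one _ _) (h.one _ _))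
  | succ k ih =>
    intro l
    obtain ⟨j, hj, e, -⟩ := blk_ex (k + 1) l
    obtain ⟨ω, φ, P⟩ := exists_pic h L ih (l / M (k + 1))
    rw [e]; exact P.left h L hj

lemma Lay.pic (h : Lab η) (L : Lay η U) (k : ℕ) (i : ℤ) : ∃ ω φ, Pic η U (k + 1) i ω φ :=
  exists_pic h L (L.left h k) i

lemma Lay.low1 (h : Lab η) (L : Lay η U) (k : ℕ) (i : ℤ) {j : ℕ} (hj : j ≤ mN (k + 1)) :
    96 / 100 * (U (k + 1) i).τ ≤ (U (k + 2) (i * M (k + 1) + j)).τ := by
  obtain ⟨ω, φ, P⟩ := L.pic h k i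
  simpa using P.lower h L (n := 0) (j := j) (by omega) (by omega) hj

lemma Lay.low2 (h : Lab η) (L : Lay η U) (k : ℕ) (i : ℤ) {j : ℕ} (h1 : 1 ≤ j)
    (hj : j < mN (k + 1)) : 38 / 10 * (U (k + 1) i).τ ≤ (U (k + 2) (i * M (k + 1) + j)).τ := by
  obtain ⟨ω, φ, P⟩ := L.pic h k i
  have := P.lower h L (n := 1) (j := j) (by omega) h1 hj
  have := (L.ok h (k + 1) i).pos
  push_cast at *
  linarith

lemma Lay.tau_ge (h : Lab η) (L : Lay η U) (k : ℕ) :
    ∀ i, 250 * (3 / 2) ^ k ≤ (U (k + 1) i).τ := by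
  have b0 : ∀ i, 500 ≤ (U 1 i).τ := by
    intro l
    obtain ⟨ω, n1, hω⟩ := L.root_pic h
    obtain ⟨j, hj, e, -⟩ := blk_ex 0 l
    rw [e, hω _ _ hj.le]
    have hs := sv_pos (h.gt 0 0)
    have := h.sv_small 0 0
    have := h.one 0 0
    have := h.one 1 j
    simp only [std]
    rw [le_div_iff₀ hs]; nlinarith
  have one : ∀ k (T : ℝ), (∀ i, T ≤ (U (k + 1) i).τ) → ∀ i, 96 / 100 * T ≤ (U (k + 2) i).τ := by
    intro k T hT l
    obtain ⟨j, hj, e, -⟩ := blk_ex (k + 1) l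
    have := L.low1 h k (l / M (k + 1)) hj.le
    rw [← e] at this
    linarith [hT (l / M (k + 1))]
  have two : ∀ k (T : ℝ), 0 ≤ T → (∀ i, T ≤ (U (k + 1) i).τ) →
      ∀ i, 9 / 4 * T ≤ (U (k + 3) i).τ := by
    intro k T T0 hT l
    have sing : ∀ p, p % M (k + 1) ≠ 0 → 38 / 10 * T ≤ (U (k + 2) p).τ := by
      intro p hp
      obtain ⟨j, hj, e, e'⟩ := blk_ex (k + 1) p
      have := L.low2 h k (p / M (k + 1)) (j := j) (by omega) hj
      rw [← e] at this
      linarith [hT (p / M (k + 1))]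
    obtain ⟨j, hj, e, e'⟩ := blk_ex (k + 2) l
    rcases Nat.eq_zero_or_pos j with rfl | hj0
    · by_cases hp : (l / M (k + 2)) % M (k + 1) = 0
      · have h1 := L.low1 h (k + 1) (l / M (k + 2) - 1) le_rfl
        rw [blk_top, sub_add_cancel] at h1
        have h2 := sing (l / M (k + 2) - 1) (by
          intro h0
          have h3 := Int.dvd_of_emod_eq_zero hp
          have h4 := Int.dvd_of_emod_eq_zero h0
          have h5 : M (k + 1) ∣ 1 := by simpa using dvd_sub h3 h4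
          have := Int.le_of_dvd one_pos h5
          linarith [M_ge (k + 1)])
        simp only [Nat.cast_zero, add_zero] at e
        rw [← e] at h1
        linarith
      · have h1 := L.low1 h (k + 1) (l / M (k + 2)) hj.le
        rw [← e] at h1
        linarith [sing _ hp]
    · have h1 := L.low2 h (k + 1) (l / M (k + 2)) hj0 hj
      rw [← e] at h1
      linarith [one k T hT (l / M (k + 2))]
  induction k using Nat.twoStepInduction with
  | zero => intro i; linarith [b0 i]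
  | one => intro i; linarith [one 0 500 b0 i]
  | more k ih _ =>
    intro i
    have := two k _ (by positivity) ih i
    rw [pow_add]; linarith

lemma Lay.tau_ge' (h : Lab η) (L : Lay η U) (k : ℕ) (i : ℤ) : 250 ≤ (U (k + 1) i).τ := by
  have := L.tau_ge h k i
  have h2 : (1 : ℝ) ≤ (3 / 2) ^ k := one_le_pow₀ (by norm_num)
  linarith

lemma Lay.up (h : Lab η) (L : Lay η U) (k : ℕ) (i : ℤ) {j : ℕ} (hj : j ≤ 14 ∨ j = mN (k + 1)) :
    (U (k + 2) (i * M (k + 1) + j)).τ ≤ 2000 * (U (k + 1) i).τ := by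
  obtain ⟨ω, φ, P⟩ := L.pic h k i
  exact P.upper h L (by linarith [L.tau_ge' h k i]) hj

end Pool.Agent.P.MP_3555ad_an.Bd
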