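import Pool.Agent.P.MP_3555ad_an.Bd.Plane

set_option autoImplicit false

namespace Pool.Agent.P.MP_3555ad_an.Bd

open Real

/-- A circle in the unit disc in Lorentz coordinates. -/
@[ext] structure Cir where
  η : ℝ
  τ : ℝ
  ζ : ℂ

def ip (w z : ℂ) : ℝ := w.re * z.re + w.im * z.im
def cp (w z : ℂ) : ℝ := w.re * z.im - w.im * z.re
def bb (u w : Cir) : ℝ := u.τ * w.τ - ip u.ζ w.ζ
def dd (u v w : Cir) : ℝ := u.τ * cp v.ζ w.ζ + v.τ * cp w.ζ u.ζ + w.τ * cp u.ζ v.ζ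

lemma ip_self (z : ℂ) : ip z z = ‖z‖ ^ 2 := by
  rw [← Complex.normSq_eq_norm_sq, Complex.normSq_apply]; rfl
lemma ip_comm (w z : ℂ) : ip w z = ip z w := by unfold ip; ring
lemma bb_comm (u w : Cir) : bb u w = bb w u := by unfold bb ip; ring
lemma dd_rot (u v w : Cir) : dd v w u = dd u v w := by unfold dd; ring
lemma dd_swap (u v w : Cir) : dd u w v = -dd u v w := by unfold dd cp; ring
lemma ip_sq_add (w z : ℂ) : ip w z ^ 2 + cp w z ^ 2 = ‖w‖ ^ 2 * ‖z‖ ^ 2 := by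
  rw [← ip_self, ← ip_self]; unfold ip cp; ring
lemma abs_ip_le (w z : ℂ) : |ip w z| ≤ ‖w‖ * ‖z‖ := by
  apply abs_le_of_sq_le_sq _ (by positivity)
  nlinarith [ip_sq_add w z, sq_nonneg (cp w z)]

structure Ok (c : Cir) : Prop where
  one : 1 ≤ c.η
  pos : 0 < c.τ
  nrm : bb c c = c.η ^ 2 - 1

lemma Ok.nrm' {c : Cir} (h : Ok c) : c.τ ^ 2 - ‖c.ζ‖ ^ 2 = c.η ^ 2 - 1 := by
  have := h.nrm
  unfold bb at this
  rw [ip_self] at this
  linarith

lemma Ok.norm_le {c : Cir} (h : Ok c) : ‖c.ζ‖ ≤ c.τ := by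
  apply le_of_sq_le_sq _ h.pos.le
  nlinarith [h.nrm', h.one]

def Tang (a b : Cir) : Prop := bb a b = 1 + a.η * b.η

lemma Tang.symm {a b : Cir} (h : Tang a b) : Tang b a := by
  unfold Tang at *; rw [bb_comm, h]; ring

structure Face (a b c : Cir) : Prop where
  oa : Ok a
  ob : Ok b
  oc : Ok c
  tab : Tang a b
  tbc : Tang b c
  tca : Tang c a
  pos : 0 < dd a b c

lemma Face.rot {a b c : Cir} (h : Face a b c) : Face b c a :=
  ⟨h.ob, h.oc, h.oa, h.tbc, h.tca, h.tab, by rw [dd_rot]; exact h.pos⟩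

noncomputable def boost (t : ℝ) (z : ℂ) (c : Cir) : Cir :=
  ⟨c.η, c.τ * t + ip c.ζ z, c.ζ + (c.τ + ip c.ζ z / (1 + t)) • z⟩

section boost
variable {t : ℝ} {z : ℂ}

lemma bb_boost (ht : 0 < t) (h : t ^ 2 - ip z z = 1) (u w : Cir) :
    bb (boost t z u) (boost t z w) = bb u w := by
  obtain ⟨k, hk⟩ : ∃ k : ℝ, k = (1 + t)⁻¹ := ⟨_, rfl⟩
  have h1 : k * (1 + t) = 1 := by rw [hk]; field_simp
  simp only [bb, boost, ip, div_eq_mul_inv, ← hk, Complex.add_re, Complex.add_im, Complex.smul_re,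
    Complex.smul_im, smul_eq_mul] at h ⊢
  grind

lemma dd_boost (ht : 0 < t) (h : t ^ 2 - ip z z = 1) (u v w : Cir) :
    dd (boost t z u) (boost t z v) (boost t z w) = dd u v w := by
  obtain ⟨k, hk⟩ : ∃ k : ℝ, k = (1 + t)⁻¹ := ⟨_, rfl⟩
  have h1 : k * (1 + t) = 1 := by rw [hk]; field_simp
  simp only [dd, boost, ip, cp, div_eq_mul_inv, ← hk, Complex.add_re, Complex.add_im,
    Complex.smul_re, Complex.smul_im, smul_eq_mul] at h ⊢
  grind

lemma boost_boost (ht : 0 < t) (h : t ^ 2 - ip z z = 1) (u : Cir) :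
    boost t (-z) (boost t z u) = u := by
  obtain ⟨k, hk⟩ : ∃ k : ℝ, k = (1 + t)⁻¹ := ⟨_, rfl⟩
  have h1 : k * (1 + t) = 1 := by rw [hk]; field_simp
  refine Cir.ext rfl ?_ (Complex.ext ?_ ?_) <;>
  simp only [boost, ip, div_eq_mul_inv, ← hk, Complex.add_re, Complex.add_im, Complex.neg_re,
    Complex.neg_im, Complex.smul_re, Complex.smul_im, smul_eq_mul] at h ⊢ <;>
  grind

lemma boost_pos (ht : 0 < t) (h : t ^ 2 - ip z z = 1) {u : Cir} (hu : 0 < u.τ)
    (hn : ‖u.ζ‖ ≤ u.τ) : 0 < (boost t z u).τ := by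
  have h1 := (abs_le.1 (abs_ip_le u.ζ z)).1
  rw [ip_self] at h
  have h2 : ‖z‖ < t := lt_of_pow_lt_pow_left₀ 2 ht.le (by linarith)
  have h3 : ‖u.ζ‖ * ‖z‖ ≤ u.τ * ‖z‖ := mul_le_mul_of_nonneg_right hn (norm_nonneg _)
  have h4 : u.τ * ‖z‖ < u.τ * t := mul_lt_mul_of_pos_left h2 hu
  simp only [boost]
  linarith

lemma Ok.boost (ht : 0 < t) (h : t ^ 2 - ip z z = 1) {u : Cir} (hu : Ok u) : Ok (boost t z u) :=
  ⟨hu.one, boost_pos ht h hu.pos hu.norm_le, by rw [bb_boost ht h]; exact hu.nrm⟩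

end boost

/-- The Lorentz length of a circle vector. -/
noncomputable def sv (η : ℝ) : ℝ := √(η ^ 2 - 1)

lemma sv_pos {η : ℝ} (h : 1 < η) : 0 < sv η := Real.sqrt_pos.2 (by nlinarith)
lemma sv_sq {η : ℝ} (h : 1 ≤ η) : sv η ^ 2 = η ^ 2 - 1 := Real.sq_sqrt (by nlinarith)

/-- The isometry that moves `v` to the origin. -/
noncomputable def view (v c : Cir) : Cir := boost (v.τ / sv v.η) (-((sv v.η)⁻¹ • v.ζ)) c
/-- Its inverse. -/
noncomputable def unview (v c : Cir) : Cir := boost (v.τ / sv v.η) ((sv v.η)⁻¹ • v.ζ) c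

section view
variable {v : Cir}

lemma view_aux (hv : Ok v) (h1 : 1 < v.η) : 0 < v.τ / sv v.η ∧
    (v.τ / sv v.η) ^ 2 - ip ((sv v.η)⁻¹ • v.ζ) ((sv v.η)⁻¹ • v.ζ) = 1 ∧
    (v.τ / sv v.η) ^ 2 - ip (-((sv v.η)⁻¹ • v.ζ)) (-((sv v.η)⁻¹ • v.ζ)) = 1 := by
  have hs := sv_pos h1
  have h2 := sv_sq h1.le
  have h3 := hv.nrm'
  have : (v.τ / sv v.η) ^ 2 - ‖(sv v.η)⁻¹ • v.ζ‖ ^ 2 = 1 := by
    rw [norm_smul, Real.norm_eq_abs, abs_of_pos (inv_pos.2 hs)]
    field_simp
    linarith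
  exact ⟨div_pos hv.pos hs, by rw [ip_self]; exact this, by rw [ip_self, norm_neg]; exact this⟩

lemma bb_view (hv : Ok v) (h1 : 1 < v.η) (a b : Cir) : bb (view v a) (view v b) = bb a b :=
  bb_boost (view_aux hv h1).1 (view_aux hv h1).2.2 a b
lemma dd_view (hv : Ok v) (h1 : 1 < v.η) (a b c : Cir) :
    dd (view v a) (view v b) (view v c) = dd a b c :=
  dd_boost (view_aux hv h1).1 (view_aux hv h1).2.2 a b c
lemma view_unview (hv : Ok v) (h1 : 1 < v.η) (a : Cir) : view v (unview v a) = a :=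
  boost_boost (view_aux hv h1).1 (view_aux hv h1).2.1 a
lemma unview_view (hv : Ok v) (h1 : 1 < v.η) (a : Cir) : unview v (view v a) = a := by
  have := boost_boost (view_aux hv h1).1 (view_aux hv h1).2.2 a
  rwa [neg_neg] at this
lemma Ok.view (hv : Ok v) (h1 : 1 < v.η) {a : Cir} (ha : Ok a) : Ok (view v a) :=
  ha.boost (view_aux hv h1).1 (view_aux hv h1).2.2
lemma Ok.unview (hv : Ok v) (h1 : 1 < v.η) {a : Cir} (ha : Ok a) : Ok (unview v a) :=
  ha.boost (view_aux hv h1).1 (view_aux hv h1).2.1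

lemma view_self (hv : Ok v) (h1 : 1 < v.η) : view v v = ⟨v.η, sv v.η, 0⟩ := by
  have hs := sv_pos h1
  have h2 := sv_sq h1.le
  have h3 := hv.nrm
  have hτ := hv.pos
  have e : ip v.ζ (-((sv v.η)⁻¹ • v.ζ)) = -((v.τ ^ 2 - sv v.η ^ 2) / sv v.η) := by
    have : ip v.ζ (-((sv v.η)⁻¹ • v.ζ)) = -(ip v.ζ v.ζ / sv v.η) := by
      simp [ip]; field_simp; ring
    rw [this]; unfold bb at h3; congr 2; linarith
  refine Cir.ext rfl ?_ ?_
  · simp only [view, boost, e]; field_simp; ring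
  · simp only [view, boost, e]
    have : v.τ + -((v.τ ^ 2 - sv v.η ^ 2) / sv v.η) / (1 + v.τ / sv v.η) = sv v.η := by
      field_simp; ring
    rw [this, smul_neg, smul_smul, mul_inv_cancel₀ hs.ne', one_smul, add_neg_cancel]

/-- The origin of the disc as a unit vector. -/
def orig : Cir := ⟨0, 1, 0⟩

lemma view_orig (v : Cir) : view v orig = ⟨0, v.τ / sv v.η, -((sv v.η)⁻¹ • v.ζ)⟩ := by
  refine Cir.ext rfl ?_ ?_ <;> simp [view, boost, orig, ip]

lemma bb_orig (a : Cir) : bb orig a = a.τ := by simp [bb, orig, ip]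
lemma dd_orig (a b : Cir) : dd orig a b = cp a.ζ b.ζ := by simp [dd, orig, cp]

/-- The standard petal in direction `ω` of a circle centred at the origin. -/
noncomputable def std (η y : ℝ) (ω : ℂ) : Cir := ⟨y, (1 + η * y) / sv η, ((η + y) / sv η) • ω⟩

/-- The petal of `v` with label `y` in direction `ω`. -/
noncomputable def petal (v : Cir) (y : ℝ) (ω : ℂ) : Cir := unview v (std v.η y ω)

/-- The direction in which `v` sees `a`. -/
noncomputable def dir (v a : Cir) : ℂ := (sv v.η / (v.η + a.η)) • (view v a).ζ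

lemma std_ok {η y : ℝ} {ω : ℂ} (h1 : 1 < η) (hy : 1 ≤ y) (hω : ‖ω‖ = 1) : Ok (std η y ω) := by
  have hs := sv_pos h1
  have h2 := sv_sq h1.le
  refine ⟨hy, div_pos (by nlinarith) hs, ?_⟩
  simp only [bb, std, ip_self, norm_smul, hω, Real.norm_eq_abs, mul_one, sq_abs]
  field_simp
  rw [h2]; ring

@[simp] lemma petal_η (v : Cir) (y : ℝ) (ω : ℂ) : (petal v y ω).η = y := rfl

lemma view_petal (hv : Ok v) (h1 : 1 < v.η) (y : ℝ) (ω : ℂ) :
    view v (petal v y ω) = std v.η y ω := view_unview hv h1 _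

lemma petal_ok (hv : Ok v) (h1 : 1 < v.η) {y : ℝ} {ω : ℂ} (hy : 1 ≤ y) (hω : ‖ω‖ = 1) :
    Ok (petal v y ω) := hv.unview h1 (std_ok h1 hy hω)

lemma petal_tang (hv : Ok v) (h1 : 1 < v.η) (y : ℝ) (ω : ℂ) : Tang v (petal v y ω) := by
  have hs := sv_pos h1
  unfold Tang
  rw [← bb_view hv h1, view_petal hv h1, view_self hv h1]
  simp only [bb, std, ip, petal_η]
  field_simp
  simp

lemma dir_petal (hv : Ok v) (h1 : 1 < v.η) {y : ℝ} (hy : 1 ≤ y) (ω : ℂ) :
    dir v (petal v y ω) = ω := by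
  have hs := sv_pos h1
  have : 0 < v.η + y := by linarith
  simp only [dir, view_petal hv h1, std, petal_η, smul_smul]
  rw [show sv v.η / (v.η + y) * ((v.η + y) / sv v.η) = 1 by field_simp, one_smul]

lemma view_tang (hv : Ok v) (h1 : 1 < v.η) {a : Cir} (ha : Ok a) (ht : Tang v a) :
    view v a = std v.η a.η (dir v a) ∧ ‖dir v a‖ = 1 := by
  have hs := sv_pos h1
  have h2 := sv_sq h1.le
  have hp : 0 < v.η + a.η := by linarith [ha.one]
  have e1 : (view v a).τ = (1 + v.η * a.η) / sv v.η := by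
    unfold Tang at ht
    rw [← bb_view hv h1, view_self hv h1] at ht
    simp only [bb, ip, Complex.zero_re, Complex.zero_im, zero_mul, add_zero, sub_zero] at ht
    field_simp; linarith
  have e2 : ‖(view v a).ζ‖ = (v.η + a.η) / sv v.η := by
    have h3 := (hv.view h1 ha).nrm'
    rw [e1] at h3
    have h4 : (view v a).η = a.η := rfl
    rw [h4] at h3
    rw [← sq_eq_sq₀ (norm_nonneg _) (by positivity)]
    have : ‖(view v a).ζ‖ ^ 2 = ((1 + v.η * a.η) / sv v.η) ^ 2 - (a.η ^ 2 - 1) := by linarith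
    rw [this]; field_simp; rw [h2]; ring
  constructor
  · refine Cir.ext rfl e1 ?_
    simp only [std, dir, smul_smul]
    rw [show (v.η + a.η) / sv v.η * (sv v.η / (v.η + a.η)) = 1 by field_simp, one_smul]
  · rw [dir, norm_smul, e2, Real.norm_eq_abs, abs_of_pos (by positivity)]
    field_simp

lemma eq_petal (hv : Ok v) (h1 : 1 < v.η) {a : Cir} (ha : Ok a) (ht : Tang v a) :
    a = petal v a.η (dir v a) := by
  rw [petal, ← (view_tang hv h1 ha ht).1, unview_view hv h1]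

end view

/-- The angle at a circle with label `η` between tangent petals with labels `a` and `b`. -/
noncomputable def ang (η a b : ℝ) : ℝ := 2 * arcsin √((η ^ 2 - 1) / ((η + a) * (η + b)))

/-- The rotation by angle `x`. -/
noncomputable def ex (x : ℝ) : ℂ := Complex.exp (x * Complex.I)

lemma ex_add (x y : ℝ) : ex (x + y) = ex x * ex y := by
  simp [ex, add_mul, Complex.exp_add]
@[simp] lemma norm_ex (x : ℝ) : ‖ex x‖ = 1 := Complex.norm_exp_ofReal_mul_I x
@[simp] lemma ex_re (x : ℝ) : (ex x).re = cos x := Complex.exp_ofReal_mul_I_re x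
@[simp] lemma ex_im (x : ℝ) : (ex x).im = sin x := Complex.exp_ofReal_mul_I_im x
@[simp] lemma ex_zero : ex 0 = 1 := by simp [ex]
lemma ex_two_pi : ex (2 * π) = 1 := by
  apply Complex.ext <;> simp
lemma ex_add_two_pi (x : ℝ) : ex (x + 2 * π) = ex x := by rw [ex_add, ex_two_pi, mul_one]
lemma ex_int (n : ℤ) : ex (n * (2 * π)) = 1 := by
  apply Complex.ext <;> simp [Real.cos_int_mul_two_pi]
  have := Real.sin_int_mul_pi (2 * n)
  push_cast at this
  rw [← this]; congr 1; ring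

lemma ip_ex (ω : ℂ) (hω : ‖ω‖ = 1) (x y : ℝ) : ip (ω * ex x) (ω * ex y) = cos (y - x) := by
  have h := ip_self ω
  rw [hω] at h
  simp only [ip, Complex.mul_re, Complex.mul_im, ex_re, ex_im, cos_sub] at h ⊢
  linear_combination (cos y * cos x + sin y * sin x) * h
lemma cp_ex (ω : ℂ) (hω : ‖ω‖ = 1) (x y : ℝ) : cp (ω * ex x) (ω * ex y) = sin (y - x) := by
  have h := ip_self ω
  rw [hω] at h
  simp only [ip, cp, Complex.mul_re, Complex.mul_im, ex_re, ex_im, sin_sub] at h ⊢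
  linear_combination (sin y * cos x - cos y * sin x) * h

lemma eq_mul_ex {ω ω' : ℂ} (hω : ‖ω‖ = 1) {x : ℝ} (h1 : ip ω ω' = cos x) (h2 : cp ω ω' = sin x) :
    ω' = ω * ex x := by
  have h := ip_self ω
  rw [hω] at h
  simp only [ip, cp] at h h1 h2
  apply Complex.ext
  · simp only [Complex.mul_re, ex_re, ex_im, ← h1, ← h2]
    linear_combination (-ω'.re) * h
  · simp only [Complex.mul_im, ex_re, ex_im, ← h1, ← h2]
    linear_combination (-ω'.im) * h

section ang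
variable {η a b : ℝ}

lemma ang_q (h : 1 ≤ η) (ha : 1 ≤ a) (hb : 1 ≤ b) :
    0 ≤ (η ^ 2 - 1) / ((η + a) * (η + b)) ∧ (η ^ 2 - 1) / ((η + a) * (η + b)) < 1 := by
  have : 0 < (η + a) * (η + b) := by positivity
  refine ⟨div_nonneg (by nlinarith) this.le, (div_lt_one this).2 (by nlinarith)⟩

lemma sin_half_ang (h : 1 ≤ η) (ha : 1 ≤ a) (hb : 1 ≤ b) :
    sin (ang η a b / 2) = √((η ^ 2 - 1) / ((η + a) * (η + b))) := by
  rw [ang, mul_div_cancel_left₀ _ (two_ne_zero), Real.sin_arcsin]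
  · linarith [Real.sqrt_nonneg ((η ^ 2 - 1) / ((η + a) * (η + b)))]
  · exact Real.sqrt_le_one.2 (ang_q h ha hb).2.le

lemma cos_ang (h : 1 ≤ η) (ha : 1 ≤ a) (hb : 1 ≤ b) :
    cos (ang η a b) = 1 - 2 * ((η ^ 2 - 1) / ((η + a) * (η + b))) := by
  have h1 := Real.cos_two_mul_eq_one_sub (ang η a b / 2)
  rw [mul_div_cancel₀ _ (two_ne_zero), sin_half_ang h ha hb, Real.sq_sqrt (ang_q h ha hb).1] at h1
  exact h1

lemma ang_nonneg (η a b : ℝ) : 0 ≤ ang η a b :=
  mul_nonneg zero_le_two (Real.arcsin_nonneg.2 (Real.sqrt_nonneg _))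

lemma ang_pos (h : 1 < η) (ha : 1 ≤ a) (hb : 1 ≤ b) : 0 < ang η a b := by
  have : 0 < (η + a) * (η + b) := by positivity
  exact mul_pos two_pos (Real.arcsin_pos.2 (Real.sqrt_pos.2 (div_pos (by nlinarith) this)))

lemma ang_lt_pi (h : 1 ≤ η) (ha : 1 ≤ a) (hb : 1 ≤ b) : ang η a b < π := by
  have : arcsin √((η ^ 2 - 1) / ((η + a) * (η + b))) < π / 2 :=
    Real.arcsin_lt_pi_div_two.2 ((Real.sqrt_lt' one_pos).2 (by simpa using (ang_q h ha hb).2))
  unfold ang; linarith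

lemma sin_ang_pos (h : 1 < η) (ha : 1 ≤ a) (hb : 1 ≤ b) : 0 < sin (ang η a b) :=
  Real.sin_pos_of_pos_of_lt_pi (ang_pos h ha hb) (ang_lt_pi h.le ha hb)

lemma ang_comm (η a b : ℝ) : ang η a b = ang η b a := by unfold ang; rw [mul_comm (η + a)]

end ang

lemma bb_std (η a b : ℝ) (ω ω' : ℂ) : bb (std η a ω) (std η b ω') =
    ((1 + η * a) * (1 + η * b) - (η + a) * (η + b) * ip ω ω') / sv η ^ 2 := by
  simp only [bb, std, ip, Complex.smul_re, Complex.smul_im, smul_eq_mul]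
  ring

lemma dd_std (η a b : ℝ) (ω ω' : ℂ) : dd ⟨η, sv η, 0⟩ (std η a ω) (std η b ω') =
    sv η * ((η + a) / sv η) * ((η + b) / sv η) * cp ω ω' := by
  simp only [dd, std, cp, Complex.smul_re, Complex.smul_im, smul_eq_mul, Complex.zero_re,
    Complex.zero_im]
  ring

lemma face_iff {v a b : Cir} (hv : Ok v) (h1 : 1 < v.η) (ha : Ok a) (hb : Ok b) (ta : Tang v a)
    (tb : Tang v b) : Face v a b ↔ dir v b = dir v a * ex (ang v.η a.η b.η) := by
  have hs := sv_pos h1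
  have h2 := sv_sq h1.le
  obtain ⟨a1, a2⟩ := view_tang hv h1 ha ta
  obtain ⟨b1, b2⟩ := view_tang hv h1 hb tb
  have pa : 0 < v.η + a.η := by linarith [ha.one]
  have pb : 0 < v.η + b.η := by linarith [hb.one]
  have hc := cos_ang h1.le ha.one hb.one
  have hsin := sin_ang_pos h1 ha.one hb.one
  have k1 : Tang a b ↔ ip (dir v a) (dir v b) = cos (ang v.η a.η b.η) := by
    unfold Tang
    rw [← bb_view hv h1, a1, b1, bb_std, hc, div_eq_iff (by positivity), h2]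
    constructor
    · intro h; field_simp; linarith
    · intro h; rw [h]; field_simp; ring
  have k2 : 0 < dd v a b ↔ 0 < cp (dir v a) (dir v b) := by
    rw [← dd_view hv h1, a1, b1, view_self hv h1, dd_std]
    exact mul_pos_iff_of_pos_left (by positivity)
  constructor
  · intro h
    have h3 := k1.1 h.tbc
    have h4 := k2.1 h.pos
    refine eq_mul_ex a2 h3 ?_
    have h5 := ip_sq_add (dir v a) (dir v b)
    rw [a2, b2, h3] at h5
    rw [← sq_eq_sq₀ h4.le hsin.le]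
    linarith [Real.sin_sq_add_cos_sq (ang v.η a.η b.η)]
  · intro h
    have e : dir v a = dir v a * ex 0 := by simp
    refine ⟨hv, ha, hb, ta, k1.2 ?_, tb.symm, k2.2 ?_⟩
    · rw [h]; nth_rewrite 1 [e]; rw [ip_ex _ a2, sub_zero]
    · rw [h]; nth_rewrite 1 [e]; rw [cp_ex _ a2, sub_zero]; exact hsin

lemma Face.dir {v a b : Cir} (h : Face v a b) (h1 : 1 < v.η) :
    dir v b = dir v a * ex (ang v.η a.η b.η) :=
  (face_iff h.oa h1 h.ob h.oc h.tab h.tca.symm).1 h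

/-- The circle with label `y` that completes `v a` to a positive face. -/
noncomputable def third (v a : Cir) (y : ℝ) : Cir := petal v y (dir v a * ex (ang v.η a.η y))

@[simp] lemma third_η (v a : Cir) (y : ℝ) : (third v a y).η = y := rfl

lemma face_third {v a : Cir} (hv : Ok v) (h1 : 1 < v.η) (ha : Ok a) (ta : Tang v a) {y : ℝ}
    (hy : 1 ≤ y) : Face v a (third v a y) := by
  have a2 := (view_tang hv h1 ha ta).2
  refine (face_iff hv h1 ha (petal_ok hv h1 hy (by rw [norm_mul, a2, norm_ex, mul_one])) ta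
    (petal_tang hv h1 _ _)).2 ?_
  rw [dir_petal hv h1 hy]; rfl

lemma Face.eq_third {v a b : Cir} (h : Face v a b) (h1 : 1 < v.η) : b = third v a b.η := by
  rw [third, ← h.dir h1]; exact eq_petal h.oa h1 h.oc h.tca.symm

section euclid

/-- Euclidean centre. -/
noncomputable def cen (c : Cir) : ℂ := (c.τ + c.η)⁻¹ • c.ζ
/-- Euclidean radius. -/
noncomputable def rad (c : Cir) : ℝ := (c.τ + c.η)⁻¹

lemma Ok.rad_pos {c : Cir} (h : Ok c) : 0 < rad c := inv_pos.2 (by linarith [h.one, h.pos])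

lemma Ok.rad_le {c : Cir} (h : Ok c) : rad c ≤ c.τ⁻¹ :=
  inv_anti₀ h.pos (by linarith [h.one])

lemma Ok.norm_cen {c : Cir} (h : Ok c) : ‖cen c‖ = ‖c.ζ‖ * rad c := by
  rw [cen, norm_smul, Real.norm_eq_abs, ← rad, abs_of_pos h.rad_pos, mul_comm]

lemma Ok.euc {c : Cir} (h : Ok c) : 1 - ‖cen c‖ ^ 2 + rad c ^ 2 = 2 * c.η * rad c := by
  have h1 := h.nrm'
  have : 0 < c.τ + c.η := by linarith [h.one, h.pos]
  rw [h.norm_cen, rad]
  field_simp
  linarith

lemma Ok.inside {c : Cir} (h : Ok c) : ‖cen c‖ + rad c ≤ 1 := by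
  have h1 := h.euc
  have h2 := h.rad_pos
  have h3 : rad c ≤ 1 := by
    rw [rad]; exact inv_le_one_of_one_le₀ (by linarith [h.one, h.pos])
  have : ‖cen c‖ ≤ 1 - rad c :=
    le_of_sq_le_sq (by nlinarith [h.one]) (by linarith)
  linarith

lemma Ok.inside' {c : Cir} (h : Ok c) (h0 : 1 < c.η) : ‖cen c‖ + rad c < 1 := by
  have h1 := h.euc
  have h2 := h.rad_pos
  have h3 : rad c ≤ 1 := by
    rw [rad]; exact inv_le_one_of_one_le₀ (by linarith [h.one, h.pos])
  have : ‖cen c‖ < 1 - rad c :=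
    lt_of_pow_lt_pow_left₀ 2 (by linarith) (by nlinarith)
  linarith

lemma tang_iff {a b : Cir} (ha : Ok a) (hb : Ok b) :
    Tang a b ↔ ‖cen a - cen b‖ = rad a + rad b := by
  have pa : 0 < a.τ + a.η := by linarith [ha.one, ha.pos]
  have pb : 0 < b.τ + b.η := by linarith [hb.one, hb.pos]
  have h1 := ha.nrm
  have h2 := hb.nrm
  rw [← sq_eq_sq₀ (norm_nonneg _) (by linarith [ha.rad_pos, hb.rad_pos]), ← ip_self]
  have e : ip (cen a - cen b) (cen a - cen b) - (rad a + rad b) ^ 2 =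
      2 * (bb a b - (1 + a.η * b.η)) / ((a.τ + a.η) * (b.τ + b.η)) := by
    simp only [bb, ip, cen, rad, Complex.sub_re, Complex.sub_im, Complex.smul_re, Complex.smul_im,
      smul_eq_mul] at h1 h2 ⊢
    field_simp
    grind
  unfold Tang
  rw [← sub_eq_zero, ← sub_eq_zero (a := ip _ _), e, div_eq_zero_iff]
  constructor
  · intro h; left; linarith
  · rintro (h | h)
    · linarith
    · exact absurd h (by positivity)

lemma Face.ori_pos {a b c : Cir} (h : Face a b c) : 0 < ori (cen a) (cen b) (cen c) := by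
  have pa : 0 < a.τ + a.η := by linarith [h.oa.one, h.oa.pos]
  have pb : 0 < b.τ + b.η := by linarith [h.ob.one, h.ob.pos]
  have pc : 0 < c.τ + c.η := by linarith [h.oc.one, h.oc.pos]
  set W0 := a.η * cp b.ζ c.ζ + b.η * cp c.ζ a.ζ + c.η * cp a.ζ b.ζ with hW0
  have e : ori (cen a) (cen b) (cen c) =
      (dd a b c + W0) / ((a.τ + a.η) * (b.τ + b.η) * (c.τ + c.η)) := by
    simp only [ori, dd, cp, cen, hW0, Complex.smul_re, Complex.smul_im, smul_eq_mul]
    field_simp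
    ring
  set W : ℂ := ⟨-(a.η * (b.ζ.im * c.τ - b.τ * c.ζ.im) + b.η * (c.ζ.im * a.τ - c.τ * a.ζ.im) +
      c.η * (a.ζ.im * b.τ - a.τ * b.ζ.im)),
    -(a.η * (b.τ * c.ζ.re - b.ζ.re * c.τ) + b.η * (c.τ * a.ζ.re - c.ζ.re * a.τ) +
      c.η * (a.τ * b.ζ.re - a.ζ.re * b.τ))⟩ with hW
  have e1 : W0 * a.τ - ip W a.ζ = a.η * dd a b c := by
    simp only [hW0, hW, ip, cp, dd]; ring
  have e2 : W0 ^ 2 - ip W W = 4 * (a.η * b.η + b.η * c.η + c.η * a.η) := by
    have g : W0 ^ 2 - ip W W =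
        a.η ^ 2 * (bb b b * bb c c - bb b c ^ 2) + b.η ^ 2 * (bb c c * bb a a - bb c a ^ 2) +
        c.η ^ 2 * (bb a a * bb b b - bb a b ^ 2) +
        2 * a.η * b.η * (bb b c * bb c a - bb a b * bb c c) +
        2 * b.η * c.η * (bb c a * bb a b - bb b c * bb a a) +
        2 * c.η * a.η * (bb a b * bb b c - bb c a * bb b b) := by
      simp only [hW0, hW, ip, cp, bb]; ring
    rw [g, h.oa.nrm, h.ob.nrm, h.oc.nrm, h.tab, h.tbc, h.tca]; ring
  have hW1 : 0 ≤ W0 := by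
    by_contra hn
    push Not at hn
    rw [ip_self] at e2
    have i1 := h.oa.one
    have i2 := h.ob.one
    have i3 := h.oc.one
    have h3 : ‖W‖ ≤ -W0 := le_of_sq_le_sq (by nlinarith) (by linarith)
    have h4 := (abs_le.1 (abs_ip_le W a.ζ)).1
    have h5 : ‖W‖ * ‖a.ζ‖ ≤ -W0 * a.τ :=
      mul_le_mul h3 h.oa.norm_le (norm_nonneg _) (by linarith)
    have h6 : 0 < a.η * dd a b c := mul_pos (by linarith) h.pos
    linarith
  rw [e]
  exact div_pos (by linarith [h.pos]) (by positivity)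

/-- Lorentz coordinates of a Euclidean circle. -/
noncomputable def ofEuc (c : ℂ) (r : ℝ) : Cir :=
  ⟨(1 - ‖c‖ ^ 2 + r ^ 2) / (2 * r), (1 + ‖c‖ ^ 2 - r ^ 2) / (2 * r), r⁻¹ • c⟩

lemma rad_ofEuc (c : ℂ) {r : ℝ} (hr : 0 < r) : rad (ofEuc c r) = r := by
  simp only [rad, ofEuc]; field_simp; ring

lemma cen_ofEuc (c : ℂ) {r : ℝ} (hr : 0 < r) : cen (ofEuc c r) = c := by
  have := rad_ofEuc c hr
  rw [cen, ← rad, this]
  simp only [ofEuc, smul_smul, mul_inv_cancel₀ hr.ne', one_smul]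

lemma ofEuc_ok {c : ℂ} {r : ℝ} (hr : 0 < r) (h : ‖c‖ + r ≤ 1) (h' : r < 1) : Ok (ofEuc c r) := by
  have h0 := norm_nonneg c
  refine ⟨?_, ?_, ?_⟩
  · simp only [ofEuc]; rw [le_div_iff₀ (by positivity)]; nlinarith
  · simp only [ofEuc]; exact div_pos (by nlinarith) (by positivity)
  · simp only [bb, ofEuc, ip_self, norm_smul, Real.norm_eq_abs, abs_of_pos (inv_pos.2 hr)]
    field_simp; ring

lemma Ok.eq_ofEuc {c : Cir} (h : Ok c) : c = ofEuc (cen c) (rad c) := by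
  have h1 := h.euc
  have h2 := h.rad_pos
  have pa : 0 < c.τ + c.η := by linarith [h.one, h.pos]
  have h3 : (c.τ + c.η) * rad c = 1 := by rw [rad]; field_simp
  refine Cir.ext ?_ ?_ ?_
  · simp only [ofEuc]; rw [h1]; field_simp
  · simp only [ofEuc]; field_simp; nlinarith
  · simp only [ofEuc, cen, rad, smul_smul, inv_inv, mul_inv_cancel₀ pa.ne', one_smul]

end euclid

end Pool.Agent.P.MP_3555ad_an.Bd
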