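import Mathlib

set_option autoImplicit false

namespace Pool.Agent.P.MP_3555ad_an.Bd

open Finset Filter Topology Metric

/-- Twice the signed area of the triangle `a b c`. -/
def ori (a b c : ℂ) : ℝ := (b.re - a.re) * (c.im - a.im) - (b.im - a.im) * (c.re - a.re)

lemma ori_rot (a b c : ℂ) : ori b c a = ori a b c := by unfold ori; ring
lemma ori_swap (a b c : ℂ) : ori b a c = -ori a b c := by unfold ori; ring
lemma ori_swap' (a b c : ℂ) : ori a c b = -ori a b c := by unfold ori; ring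
@[simp] lemma ori_aab (a b : ℂ) : ori a a b = 0 := by unfold ori; ring
@[simp] lemma ori_aba (a b : ℂ) : ori a b a = 0 := by unfold ori; ring
@[simp] lemma ori_abb (a b : ℂ) : ori a b b = 0 := by unfold ori; ring
lemma ori_sum (a b c p : ℂ) : ori a b p + ori b c p + ori c a p = ori a b c := by unfold ori; ring
lemma ori_comb (a b p q : ℂ) (t : ℝ) :
    ori a b (p + t • (q - p)) = (1 - t) * ori a b p + t * ori a b q := by
  simp [ori]; ring
lemma continuous_ori (a b : ℂ) : Continuous fun p => ori a b p := by unfold ori; fun_prop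

/-- The closed triangle. -/
def Tri (a b c : ℂ) : Set ℂ := {p | 0 ≤ ori a b p ∧ 0 ≤ ori b c p ∧ 0 ≤ ori c a p}
/-- The open triangle. -/
def OTri (a b c : ℂ) : Set ℂ := {p | 0 < ori a b p ∧ 0 < ori b c p ∧ 0 < ori c a p}

lemma Tri.rot {a b c p : ℂ} (h : p ∈ Tri a b c) : p ∈ Tri b c a := ⟨h.2.1, h.2.2, h.1⟩
lemma OTri.rot {a b c p : ℂ} (h : p ∈ OTri a b c) : p ∈ OTri b c a := ⟨h.2.1, h.2.2, h.1⟩
lemma OTri.tri {a b c p : ℂ} (h : p ∈ OTri a b c) : p ∈ Tri a b c := ⟨h.1.le, h.2.1.le, h.2.2.le⟩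

lemma isOpen_OTri (a b c : ℂ) : IsOpen (OTri a b c) :=
  (isOpen_lt continuous_const (continuous_ori a b)).inter
    ((isOpen_lt continuous_const (continuous_ori b c)).inter
      (isOpen_lt continuous_const (continuous_ori c a)))

lemma vertex_mem_Tri {a b c : ℂ} (h : 0 < ori a b c) : a ∈ Tri a b c :=
  ⟨by simp, by rw [ori_rot]; exact h.le, by simp⟩

lemma bary {a b c : ℂ} (h : ori a b c ≠ 0) (p : ℂ) :
    (ori b c p / ori a b c) • a + (ori c a p / ori a b c) • b + (ori a b p / ori a b c) • c = p := by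
  apply Complex.ext
  · simp only [Complex.add_re, Complex.smul_re, smul_eq_mul]
    field_simp; unfold ori; ring
  · simp only [Complex.add_im, Complex.smul_im, smul_eq_mul]
    field_simp; unfold ori; ring

lemma convex_Tri (a b c : ℂ) : Convex ℝ (Tri a b c) := by
  intro p hp q hq s t hs ht hst
  have e : s • p + t • q = p + t • (q - p) := by
    have : s = 1 - t := by linarith
    rw [this]; module
  have hs' : 0 ≤ 1 - t := by linarith
  rw [e]
  refine ⟨?_, ?_, ?_⟩ <;> rw [ori_comb]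
  · exact add_nonneg (mul_nonneg hs' hp.1) (mul_nonneg ht hq.1)
  · exact add_nonneg (mul_nonneg hs' hp.2.1) (mul_nonneg ht hq.2.1)
  · exact add_nonneg (mul_nonneg hs' hp.2.2) (mul_nonneg ht hq.2.2)

lemma Tri_subset_convex {a b c : ℂ} (h : 0 < ori a b c) {S : Set ℂ} (hS : Convex ℝ S)
    (ha : a ∈ S) (hb : b ∈ S) (hc : c ∈ S) : Tri a b c ⊆ S := by
  intro p hp
  have := hS.sum_mem (t := univ) (w := ![ori b c p / ori a b c, ori c a p / ori a b c,
    ori a b p / ori a b c]) (z := ![a, b, c]) (by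
      intro i _
      fin_cases i
      · exact div_nonneg hp.2.1 h.le
      · exact div_nonneg hp.2.2 h.le
      · exact div_nonneg hp.1 h.le) (by
      rw [Fin.sum_univ_three]
      simp only [Matrix.cons_val_zero, Matrix.cons_val_one, Matrix.cons_val]
      field_simp
      linarith [ori_sum a b c p]) (by
      intro i _
      fin_cases i <;> assumption)
  rw [Fin.sum_univ_three] at this
  simp only [Matrix.cons_val_zero, Matrix.cons_val_one, Matrix.cons_val] at this
  rwa [bary h.ne'] at this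

lemma convexHull_eq_Tri {a b c : ℂ} (h : 0 < ori a b c) :
    convexHull ℝ ({a, b, c} : Set ℂ) = Tri a b c := by
  apply Set.Subset.antisymm
  · refine convexHull_min ?_ (convex_Tri a b c)
    intro x hx
    rcases hx with rfl | rfl | rfl
    · exact vertex_mem_Tri h
    · exact Tri.rot (Tri.rot (vertex_mem_Tri (by rw [ori_rot]; exact h)))
    · exact Tri.rot (vertex_mem_Tri (by rw [ori_rot, ori_rot]; exact h))
  · exact Tri_subset_convex h (convex_convexHull _ _) (subset_convexHull _ _ (by simp))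
      (subset_convexHull _ _ (by simp)) (subset_convexHull _ _ (by simp))

lemma approach {a b c p : ℂ} (h : 0 < ori a b c) (hp : p ∈ Tri a b c) {U : Set ℂ} (hU : U ∈ 𝓝 p) :
    ∃ q ∈ U, q ∈ OTri a b c := by
  set g : ℂ := (1 / 3 : ℝ) • (a + b + c) with hg
  have g1 : ori a b g = ori a b c / 3 := by simp [hg, ori]; ring
  have g2 : ori b c g = ori a b c / 3 := by simp [hg, ori]; ring
  have g3 : ori c a g = ori a b c / 3 := by simp [hg, ori]; ring
  have t1 : Tendsto (fun t : ℝ => p + t • (g - p)) (𝓝[>] 0) (𝓝 p) := by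
    have : Continuous fun t : ℝ => p + t • (g - p) := by fun_prop
    have h2 := this.tendsto 0
    simp only [zero_smul, add_zero] at h2
    exact h2.mono_left nhdsWithin_le_nhds
  obtain ⟨t, ht1, ht2⟩ := ((t1.eventually hU).and (Ioo_mem_nhdsGT (show (0 : ℝ) < 1 by norm_num))).exists
  have h1 : 0 ≤ 1 - t := by linarith [ht2.2]
  have h2 : 0 < t * (ori a b c / 3) := mul_pos ht2.1 (by positivity)
  refine ⟨_, ht1, ?_, ?_, ?_⟩ <;> rw [ori_comb]
  · rw [g1]; linarith [mul_nonneg h1 hp.1]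
  · rw [g2]; linarith [mul_nonneg h1 hp.2.1]
  · rw [g3]; linarith [mul_nonneg h1 hp.2.2]

lemma mem_segment_of_ori {a b c p : ℂ} (h : 0 < ori a b c) (hp : p ∈ Tri a b c)
    (h0 : ori a b p = 0) : p ∈ segment ℝ a b := by
  have := bary h.ne' p
  rw [h0, zero_div, zero_smul, add_zero] at this
  refine ⟨_, _, div_nonneg hp.2.1 h.le, div_nonneg hp.2.2 h.le, ?_, this⟩
  field_simp
  linarith [ori_sum a b c p]

lemma eq_vertex_of_ori {a b c p : ℂ} (h : 0 < ori a b c) (h1 : ori a b p = 0)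
    (h2 : ori c a p = 0) : p = a := by
  have := bary h.ne' p
  have h3 := ori_sum a b c p
  rw [h1, h2] at h3 this
  have h4 : ori b c p = ori a b c := by linarith
  rw [h4, div_self h.ne'] at this
  simpa using this.symm

lemma affineIndependent_of_ori {a b c : ℂ} (h : ori a b c ≠ 0) :
    AffineIndependent ℝ ((↑) : ({a, b, c} : Set ℂ) → ℂ) := by
  have h1 : AffineIndependent ℝ ![a, b, c] := by
    rw [affineIndependent_iff_not_collinear_set, collinear_iff_of_mem (p₀ := a) (by simp)]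
    rintro ⟨v, hv⟩
    obtain ⟨r1, h1⟩ := hv b (by simp)
    obtain ⟨r2, h2⟩ := hv c (by simp)
    apply h
    rw [h1, h2]
    simp [ori]; ring
  have h2 := h1.range
  have e : Set.range ![a, b, c] = {a, b, c} := by
    simp only [Matrix.range_cons, Matrix.range_empty, Set.union_empty]
    ext x; simp; tauto
  rwa [e] at h2

/-- A closed chain of left turns around `v` covers every direction. -/
lemma cone_cover {v q : ℂ} (hq : q ≠ v) {n : ℕ} (hn : 0 < n) {z : ℕ → ℂ} (hz : z n = z 0)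
    (h : ∀ j < n, 0 < ori v (z j) (z (j + 1))) :
    ∃ j < n, 0 ≤ ori v (z j) q ∧ 0 ≤ ori (z (j + 1)) v q := by
  by_contra hcon
  push Not at hcon
  let X : ℕ → ℝ := fun j => ori v q (z j)
  let Y : ℕ → ℝ := fun j => (q.re - v.re) * ((z j).re - v.re) + (q.im - v.im) * ((z j).im - v.im)
  have hN : 0 < (q.re - v.re) ^ 2 + (q.im - v.im) ^ 2 := by
    by_contra h0
    apply hq
    apply Complex.ext <;> nlinarith [sq_nonneg (q.re - v.re), sq_nonneg (q.im - v.im)]
  have hXY : ∀ j < n, 0 < Y j * X (j + 1) - X j * Y (j + 1) := by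
    intro j hj
    have e : Y j * X (j + 1) - X j * Y (j + 1) =
        ((q.re - v.re) ^ 2 + (q.im - v.im) ^ 2) * ori v (z j) (z (j + 1)) := by
      simp only [X, Y, ori]; ring
    rw [e]; exact mul_pos hN (h j hj)
  have step : ∀ j < n, X j ≤ 0 → X (j + 1) < 0 := by
    intro j hj h0
    have h1 : 0 ≤ ori v (z j) q := by rw [ori_swap']; simp only [X] at h0; linarith
    have h2 := hcon j hj h1
    simp only [X]
    rw [ori_rot]; exact h2
  have hX0 : X n = X 0 := by simp only [X, hz]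
  have hY0 : Y n = Y 0 := by simp only [Y, hz]
  have same : (∀ j ≤ n, X j < 0) ∨ ∀ j ≤ n, 0 < X j := by
    have prop : ∀ i ≤ n, X i ≤ 0 → ∀ j, i < j → j ≤ n → X j < 0 := by
      intro i _ hi j hij
      induction j, hij using Nat.le_induction with
      | base => intro hj; exact step i (by omega) hi
      | succ k hk ih => intro hj; exact step k (by omega) (ih (by omega)).le
    by_cases h0 : X 0 ≤ 0
    · left
      intro j hj
      rcases Nat.eq_zero_or_pos j with rfl | hj0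
      · rw [← hX0]; exact prop 0 (by omega) h0 n hn le_rfl
      · exact prop 0 (by omega) h0 j hj0 hj
    · right
      intro j hj
      by_contra h1
      push Not at h1 h0
      rcases eq_or_lt_of_le hj with rfl | hj'
      · linarith
      · have := prop j hj h1 n hj' le_rfl
        linarith
  have dec : ∀ j < n, Y (j + 1) / X (j + 1) < Y j / X j := by
    intro j hj
    have h1 : 0 < X j * X (j + 1) := by
      rcases same with s | s
      · exact mul_pos_of_neg_of_neg (s j hj.le) (s (j + 1) hj)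
      · exact mul_pos (s j hj.le) (s (j + 1) hj)
    have h2 : X j ≠ 0 := left_ne_zero_of_mul h1.ne'
    have h3 : X (j + 1) ≠ 0 := right_ne_zero_of_mul h1.ne'
    have e : Y j / X j - Y (j + 1) / X (j + 1) =
        (Y j * X (j + 1) - X j * Y (j + 1)) / (X j * X (j + 1)) := by field_simp
    have := div_pos (hXY j hj) h1
    linarith
  have fin : ∀ j, 0 < j → j ≤ n → Y j / X j < Y 0 / X 0 := by
    intro j hj0
    induction j, hj0 using Nat.le_induction with
    | base => intro hj; exact dec 0 (by omega)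
    | succ k _ ih => intro hj; exact (dec k (by omega)).trans (ih (by omega))
  have := fin n hn le_rfl
  rw [hX0, hY0] at this
  exact lt_irrefl _ this

lemma seg_far {v a b q : ℂ} {rv ra rb : ℝ} (h1 : ‖v - a‖ = rv + ra) (h2 : ‖a - b‖ = ra + rb)
    (h3 : ‖b - v‖ = rb + rv) (hq : q ∈ segment ℝ a b) : rv ≤ ‖q - v‖ := by
  have h4 := dist_add_dist_of_mem_segment hq
  rw [dist_eq_norm, dist_eq_norm, dist_eq_norm, h2] at h4
  have h5 : ‖v - a‖ ≤ ‖q - v‖ + ‖a - q‖ := by
    rw [norm_sub_rev q v, norm_sub_rev a q]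
    exact norm_sub_le_norm_sub_add_norm_sub v q a
  have h6 : ‖b - v‖ ≤ ‖q - b‖ + ‖q - v‖ := by
    rw [norm_sub_rev q b]
    exact norm_sub_le_norm_sub_add_norm_sub b q v
  linarith

section crossing

/-- Sign pattern of a crossing. -/
noncomputable def fcr (x x' y : ℝ) : ℤ :=
  if x ≤ 0 ∧ 0 < x' ∧ 0 < y then 1 else if x' ≤ 0 ∧ 0 < x ∧ y < 0 then -1 else 0

lemma fcr_swap (x x' y : ℝ) : fcr x' x (-y) = -fcr x x' y := by
  unfold fcr
  rcases le_or_gt x 0 with h1 | h1 <;> rcases le_or_gt x' 0 with h2 | h2 <;>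
    rcases lt_trichotomy y 0 with h3 | h3 | h3 <;>
    simp [h1, h2, h3, not_lt.2, not_le.2, le_of_lt]

lemma fcr_np {x x' : ℝ} (y : ℝ) (h : x ≤ 0) (h' : 0 < x') : fcr x x' y = if 0 < y then 1 else 0 := by
  simp [fcr, h, h', not_le.2 h']
lemma fcr_pn {x x' : ℝ} (y : ℝ) (h : 0 < x) (h' : x' ≤ 0) :
    fcr x x' y = if y < 0 then -1 else 0 := by
  simp [fcr, h, h', not_le.2 h]
lemma fcr_nn {x x' : ℝ} (y : ℝ) (h : x ≤ 0) (h' : x' ≤ 0) : fcr x x' y = 0 := by
  simp [fcr, not_lt.2 h, not_lt.2 h']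
lemma fcr_pp {x x' : ℝ} (y : ℝ) (h : 0 < x) (h' : 0 < x') : fcr x x' y = 0 := by
  simp [fcr, not_le.2 h, not_le.2 h']

/-- The three facts needed about the crossing sum of a triangle. -/
def Good3 (S : ℤ) (y1 y2 y3 : ℝ) : Prop :=
  0 ≤ S ∧ (S ≠ 0 → 0 ≤ y1 ∧ 0 ≤ y2 ∧ 0 ≤ y3) ∧ (0 < y1 → 0 < y2 → 0 < y3 → 1 ≤ S)

lemma Good3.rot {S : ℤ} {y1 y2 y3 : ℝ} (h : Good3 S y2 y3 y1) : Good3 S y1 y2 y3 :=
  ⟨h.1, fun hS => ⟨(h.2.1 hS).2.2, (h.2.1 hS).1, (h.2.1 hS).2.1⟩, fun a b c => h.2.2 b c a⟩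

lemma caseA {a1 a2 a3 b1 b2 b3 : ℝ} (e : a1 * b1 + a2 * b2 + a3 * b3 = 0) (s : 0 < b1 + b2 + b3)
    (h1 : a1 ≤ 0) (h2 : 0 < a2) (h3 : 0 < a3) :
    Good3 (fcr a1 a2 b3 + fcr a2 a3 b1 + fcr a3 a1 b2) b1 b2 b3 := by
  rw [fcr_np _ h1 h2, fcr_pp _ h2 h3, fcr_pn _ h3 h1]
  have k1 : b2 < 0 → 0 < b3 := by
    intro h
    by_contra h4
    push Not at h4
    have : 0 < b1 := by linarith
    nlinarith [mul_pos h2 (neg_pos.2 h), mul_nonneg h3.le (neg_nonneg.2 h4),
      mul_nonneg (neg_nonneg.2 h1) this.le]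
  have k2 : 0 < b3 → 0 ≤ b2 → 0 ≤ b1 := by
    intro h h'
    by_contra h4
    push Not at h4
    nlinarith [mul_pos h3 h, mul_nonneg h2.le h', mul_nonneg (neg_nonneg.2 h1) (neg_pos.2 h4).le]
  by_cases p : 0 < b3 <;> by_cases q : b2 < 0
  · simp only [p, q, if_true]
    exact ⟨by norm_num, fun h => absurd (by norm_num) h, fun _ h _ => by linarith⟩
  · simp only [p, q, if_true, if_false]
    exact ⟨by norm_num, fun _ => ⟨k2 p (not_lt.1 q), not_lt.1 q, p.le⟩, fun _ _ _ => by norm_num⟩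
  · exact absurd (k1 q) p
  · simp only [p, q, if_false]
    exact ⟨by norm_num, fun h => absurd (by norm_num) h, fun _ _ h => absurd h p⟩

lemma caseB {a1 a2 a3 b1 b2 b3 : ℝ} (e : a1 * b1 + a2 * b2 + a3 * b3 = 0) (s : 0 < b1 + b2 + b3)
    (h1 : 0 < a1) (h2 : a2 ≤ 0) (h3 : a3 ≤ 0) :
    Good3 (fcr a1 a2 b3 + fcr a2 a3 b1 + fcr a3 a1 b2) b1 b2 b3 := by
  rw [fcr_pn _ h1 h2, fcr_nn _ h2 h3, fcr_np _ h3 h1]
  have k1 : b3 < 0 → 0 < b2 := by
    intro h
    by_contra h4
    push Not at h4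
    have : 0 < b1 := by linarith
    nlinarith [mul_pos h1 this, mul_nonneg (neg_nonneg.2 h2) (neg_nonneg.2 h4),
      mul_nonneg (neg_nonneg.2 h3) (neg_pos.2 h).le]
  have k2 : 0 < b2 → 0 ≤ b3 → 0 ≤ b1 := by
    intro h h'
    by_contra h4
    push Not at h4
    nlinarith [mul_pos h1 (neg_pos.2 h4), mul_nonneg (neg_nonneg.2 h2) h.le,
      mul_nonneg (neg_nonneg.2 h3) h']
  by_cases p : 0 < b2 <;> by_cases q : b3 < 0
  · simp only [p, q, if_true]
    exact ⟨by norm_num, fun h => absurd (by norm_num) h, fun _ _ h => by linarith⟩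
  · simp only [p, q, if_true, if_false]
    exact ⟨by norm_num, fun _ => ⟨k2 p (not_lt.1 q), p.le, not_lt.1 q⟩, fun _ _ _ => by norm_num⟩
  · exact absurd (k1 q) p
  · simp only [p, q, if_false]
    exact ⟨by norm_num, fun h => absurd (by norm_num) h, fun _ h _ => absurd h p⟩

lemma fcr_triangle {x1 x2 x3 y1 y2 y3 : ℝ} (h0 : x1 * y1 + x2 * y2 + x3 * y3 = 0)
    (hs : 0 < y1 + y2 + y3) (hx : ¬ (x1 = 0 ∧ x2 = 0 ∧ x3 = 0)) :
    Good3 (fcr x1 x2 y3 + fcr x2 x3 y1 + fcr x3 x1 y2) y1 y2 y3 := by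
  have r1 : fcr x1 x2 y3 + fcr x2 x3 y1 + fcr x3 x1 y2 =
    fcr x2 x3 y1 + fcr x3 x1 y2 + fcr x1 x2 y3 := by ring
  have r2 : fcr x1 x2 y3 + fcr x2 x3 y1 + fcr x3 x1 y2 =
    fcr x3 x1 y2 + fcr x1 x2 y3 + fcr x2 x3 y1 := by ring
  rcases le_or_gt x1 0 with h1 | h1 <;> rcases le_or_gt x2 0 with h2 | h2 <;>
    rcases le_or_gt x3 0 with h3 | h3
  · rw [fcr_nn _ h1 h2, fcr_nn _ h2 h3, fcr_nn _ h3 h1]
    refine ⟨by norm_num, fun h => absurd (by norm_num) h, fun a b c => absurd ⟨?_, ?_, ?_⟩ hx⟩ <;>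
      nlinarith [mul_nonneg (neg_nonneg.2 h1) a.le, mul_nonneg (neg_nonneg.2 h2) b.le,
        mul_nonneg (neg_nonneg.2 h3) c.le]
  · rw [r2]; exact (caseB (by linarith) (by linarith) h3 h1 h2).rot.rot
  · rw [r1]; exact (caseB (by linarith) (by linarith) h2 h3 h1).rot
  · exact caseA h0 hs h1 h2 h3
  · exact caseB h0 hs h1 h2 h3
  · rw [r1]; exact (caseA (by linarith) (by linarith) h2 h3 h1).rot
  · rw [r2]; exact (caseA (by linarith) (by linarith) h3 h1 h2).rot.rot
  · rw [fcr_pp _ h1 h2, fcr_pp _ h2 h3, fcr_pp _ h3 h1]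
    refine ⟨by norm_num, fun h => absurd (by norm_num) h, fun a b c => ?_⟩
    nlinarith [mul_pos h1 a, mul_pos h2 b, mul_pos h3 c]

/-- Signed crossing number of the segment `a b` with the ray from `p` in direction `d`. -/
noncomputable def cr (p d a b : ℂ) : ℤ := fcr (ori p (p + d) a) (ori p (p + d) b) (ori a b p)

lemma cr_swap (p d a b : ℂ) : cr p d b a = -cr p d a b := by
  unfold cr
  rw [ori_swap a b p, fcr_swap]

/-- The crossing sum of a triangle. -/
noncomputable def crT (p d a b c : ℂ) : ℤ := cr p d a b + cr p d b c + cr p d c a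

lemma crT_spec {p d a b c : ℂ} (hd : d ≠ 0) (h : 0 < ori a b c) :
    0 ≤ crT p d a b c ∧ (crT p d a b c ≠ 0 → p ∈ Tri a b c) ∧
      (p ∈ OTri a b c → 1 ≤ crT p d a b c) := by
  have := fcr_triangle (x1 := ori p (p + d) a) (x2 := ori p (p + d) b) (x3 := ori p (p + d) c)
    (y1 := ori b c p) (y2 := ori c a p) (y3 := ori a b p) (by simp [ori]; ring)
    (by linarith [ori_sum a b c p]) (by
      rintro ⟨h1, h2, h3⟩
      have hN : 0 < d.re ^ 2 + d.im ^ 2 := by
        by_contra h0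
        apply hd
        apply Complex.ext <;> simp <;> nlinarith [sq_nonneg d.re, sq_nonneg d.im]
      have e : (d.re ^ 2 + d.im ^ 2) * ori a b c =
          (d.re * (b.re - a.re) + d.im * (b.im - a.im)) * (ori p (p + d) c - ori p (p + d) a) -
          (d.re * (c.re - a.re) + d.im * (c.im - a.im)) * (ori p (p + d) b - ori p (p + d) a) := by
        simp [ori]; ring
      rw [h1, h2, h3] at e
      nlinarith [mul_pos hN h])
  exact ⟨this.1, fun hS => ⟨(this.2.1 hS).2.2, (this.2.1 hS).1, (this.2.1 hS).2.1⟩,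
    fun hp => this.2.2 hp.2.1 hp.2.2 hp.1⟩

/-- A segment that meets the line through `0` and `d` meets it in a point `t d`. -/
lemma cross_point {d a b : ℂ} (hd : d ≠ 0) (ha : ori 0 d a ≤ 0) (hb : 0 < ori 0 d b) :
    ∃ t : ℝ, t • d ∈ segment ℝ a b ∧
      ∀ s : ℝ, ori a b (s • d) = (t - s) * (ori 0 d b - ori 0 d a) := by
  have hD : 0 < ori 0 d b - ori 0 d a := by linarith
  have hN : d.re ^ 2 + d.im ^ 2 ≠ 0 := by
    intro h0
    apply hd
    apply Complex.ext <;> simp <;> nlinarith [sq_nonneg d.re, sq_nonneg d.im]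
  refine ⟨ori a b 0 / (ori 0 d b - ori 0 d a), ⟨ori 0 d b / (ori 0 d b - ori 0 d a),
    -ori 0 d a / (ori 0 d b - ori 0 d a), div_nonneg hb.le hD.le,
    div_nonneg (neg_nonneg.2 ha) hD.le, by field_simp; ring, ?_⟩, fun s => ?_⟩
  · apply Complex.ext
    · simp only [Complex.add_re, Complex.smul_re, smul_eq_mul]
      field_simp; simp [ori]; ring
    · simp only [Complex.add_im, Complex.smul_im, smul_eq_mul]
      field_simp; simp [ori]; ring
  · rw [sub_mul, div_mul_cancel₀ _ hD.ne']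
    simp [ori]; ring

/-- Moving the base point along the ray does not change the crossing number of a far segment. -/
lemma cr_move {d a b : ℂ} (hd : d ≠ 0) {s : ℝ} (hs : 0 ≤ s)
    (hfar : ∀ q ∈ segment ℝ a b, s * ‖d‖ < ‖q‖) : cr (s • d) d a b = cr 0 d a b := by
  have e1 : ∀ z, ori (s • d) (s • d + d) z = ori 0 d z := by intro z; simp [ori]; ring
  have key : ∀ a b : ℂ, (∀ q ∈ segment ℝ a b, s * ‖d‖ < ‖q‖) → ori 0 d a ≤ 0 → 0 < ori 0 d b →
      (0 < ori a b (s • d) ↔ 0 < ori a b 0) := by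
    intro a b hf ha hb
    obtain ⟨t, ht1, ht2⟩ := cross_point hd ha hb
    have hD : 0 < ori 0 d b - ori 0 d a := by linarith
    have h0 := ht2 0
    rw [zero_smul] at h0
    rw [ht2 s, h0, mul_pos_iff_of_pos_right hD, mul_pos_iff_of_pos_right hD]
    have h1 := hf _ ht1
    rw [norm_smul, Real.norm_eq_abs] at h1
    have h2 : s < |t| := lt_of_mul_lt_mul_right h1 (norm_nonneg d)
    rcases lt_abs.1 h2 with h3 | h3
    · constructor <;> intro <;> linarith
    · constructor <;> intro <;> linarith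
  unfold cr
  rw [e1, e1, zero_add]
  rcases le_or_gt (ori 0 d a) 0 with h1 | h1 <;> rcases le_or_gt (ori 0 d b) 0 with h2 | h2
  · rw [fcr_nn _ h1 h2, fcr_nn _ h1 h2]
  · rw [fcr_np _ h1 h2, fcr_np _ h1 h2]
    simp only [key a b hfar h1 h2]
  · rw [fcr_pn _ h1 h2, fcr_pn _ h1 h2]
    have := key b a (by rwa [segment_symm]) h2 h1
    rw [ori_swap, ori_swap a b 0, neg_pos, neg_pos] at this
    simp only [this]
  · rw [fcr_pp _ h1 h2, fcr_pp _ h1 h2]

lemma exists_cross_of_cr {d a b : ℂ} (hd : d ≠ 0) (h : 0 < cr 0 d a b) :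
    ∃ t : ℝ, 0 < t ∧ t • d ∈ segment ℝ a b := by
  unfold cr at h
  rw [zero_add] at h
  rcases le_or_gt (ori 0 d a) 0 with h1 | h1 <;> rcases le_or_gt (ori 0 d b) 0 with h2 | h2
  · rw [fcr_nn _ h1 h2] at h; omega
  · rw [fcr_np _ h1 h2] at h
    obtain ⟨t, ht1, ht2⟩ := cross_point hd h1 h2
    have h0 := ht2 0
    rw [zero_smul, sub_zero] at h0
    refine ⟨t, ?_, ht1⟩
    split_ifs at h with h3
    · rw [h0] at h3
      exact (mul_pos_iff_of_pos_right (by linarith)).1 h3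
    · omega
  · rw [fcr_pn _ h1 h2] at h
    split_ifs at h <;> omega
  · rw [fcr_pp _ h1 h2] at h; omega

end crossing

end Pool.Agent.P.MP_3555ad_an.Bd
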