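import Pool.Agent.P.MP_3555ad_an.Bd.Chain

set_option autoImplicit false

namespace Pool.Agent.P.MP_3555ad_an.Bd

open Real Finset Filter Topology

/-- Coordinates in the frame given by the unit vector `w`. -/
def pt (w : ℂ) (x y : ℝ) : ℂ := w * ⟨x, y⟩

section pt
variable {w : ℂ}

lemma pt_sq (hw : ‖w‖ = 1) (x y : ℝ) : ‖pt w x y‖ ^ 2 = x ^ 2 + y ^ 2 := by
  rw [pt, norm_mul, hw, one_mul, ← ip_self]; simp only [ip]; ring

lemma pt_dist (hw : ‖w‖ = 1) {x y x' y' d : ℝ} (hd : 0 ≤ d)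
    (h : (x - x') ^ 2 + (y - y') ^ 2 = d ^ 2) : ‖pt w x y - pt w x' y'‖ = d := by
  have : pt w x y - pt w x' y' = pt w (x - x') (y - y') := by
    apply Complex.ext <;> simp [pt] <;> ring
  rw [this, ← sq_eq_sq₀ (norm_nonneg _) hd, pt_sq hw, h]

lemma pt_ori (hw : ‖w‖ = 1) (x y x' y' x'' y'' : ℝ) :
    ori (pt w x y) (pt w x' y') (pt w x'' y'') = (x' - x) * (y'' - y) - (y' - y) * (x'' - x) := by
  have h := ip_self w
  rw [hw] at h
  simp only [ip] at h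
  simp only [ori, pt, Complex.mul_re, Complex.mul_im]
  linear_combination ((x' - x) * (y'' - y) - (y' - y) * (x'' - x)) * h

lemma tp_pt (w : ℂ) (x y x' y' : ℝ) {r : ℝ} (hr : 0 < r) :
    tp (pt w x y, r) (pt w x' y', r) = pt w ((x + x') / 2) ((y + y') / 2) := by
  apply Complex.ext <;>
    simp only [tp, pt, Complex.add_re, Complex.add_im, Complex.smul_re, Complex.smul_im,
      smul_eq_mul, Complex.mul_re, Complex.mul_im] <;> field_simp <;> ring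

lemma sg_pt (hw : ‖w‖ = 1) (x y : ℝ) : sg (pt w x y) = 1 - x ^ 2 - y ^ 2 := by
  rw [sg, pt_sq hw]; ring

end pt

/-- Tiny circles. -/
def Tiny (c : ℂ × ℝ) : Prop := 0 < sg c.1 ∧ sg c.1 ≤ 2 * 10 ^ 40 * c.2 ∧ 10 ^ 40 * c.2 ≤ 3 * sg c.1
/-- Large circles. -/
def Huge (c : ℂ × ℝ) : Prop := 0 < sg c.1 ∧ sg c.1 ≤ 2000 * c.2 ∧ 500 * c.2 ≤ sg c.1
/-- Admissible circles. -/
def Good (c : ℂ × ℝ) : Prop := Tiny c ∨ Huge c
/-- Small petals of `v`. -/
def Sm (v c : ℂ × ℝ) : Prop := sg v.1 ≤ 10 ^ 40 * c.2 ∧ 10 ^ 40 * c.2 ≤ 2 * sg v.1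
/-- Tangency. -/
def Tg (x y : ℂ × ℝ) : Prop := ‖x.1 - y.1‖ = x.2 + y.2
/-- A pair of large circles that heads for the origin. -/
def UU (a b : ℂ × ℝ) : Prop := ∃ (w : ℂ) (t r : ℝ), ‖w‖ = 1 ∧ -(1 / 10) ≤ t ∧ 0 < r ∧
  a = (pt w (-t) (-r), r) ∧ b = (pt w (-t) r, r) ∧ 900 * r ≤ 1 - t ^ 2 ∧ 1 - t ^ 2 ≤ 1100 * r

variable {a b c v o x y : ℂ × ℝ}

lemma Tg.symm (h : Tg x y) : Tg y x := by unfold Tg at *; rw [norm_sub_rev, h, add_comm]

lemma Good.bd (h : Good c) :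
    0 < c.2 ∧ 0 < sg c.1 ∧ 500 * c.2 ≤ sg c.1 ∧ sg c.1 ≤ 2 * 10 ^ 40 * c.2 := by
  rcases h with ⟨h1, h2, h3⟩ | ⟨h1, h2, h3⟩ <;> refine ⟨?_, h1, ?_, ?_⟩ <;> linarith

lemma Huge.not_tiny (h : Huge c) : ¬Tiny c := fun h' => by
  obtain ⟨h1, h2, h3⟩ := h
  obtain ⟨-, -, h4⟩ := h'
  linarith

lemma UU.huge (h : UU a b) : Huge a ∧ Huge b := by
  obtain ⟨w, t, r, hw, -, r0, rfl, rfl, h1, h2⟩ := h
  have : r ≤ 1 / 900 := by nlinarith [sq_nonneg t]
  refine ⟨⟨?_, ?_, ?_⟩, ⟨?_, ?_, ?_⟩⟩ <;> simp only [sg_pt hw] <;> nlinarith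

lemma Tg.tp (t : Tg x y) (hx : Good x) (hy : Good y) : ‖tp x y - x.1‖ = x.2 ∧
    249 * sg x.1 ≤ 250 * sg (tp x y) ∧ 250 * sg (tp x y) ≤ 251 * sg x.1 := by
  obtain ⟨x1, x2, x3, -⟩ := hx.bd
  have h := tp_left x1 hy.bd.1 t
  have := sg_near x2 h.le (by linarith)
  exact ⟨h, by linarith, by linarith⟩

lemma Sm.tiny (h : Sm v c) (hv : Good v) (t : Tg v c) : Tiny c := by
  obtain ⟨v1, v2, v3, -⟩ := hv.bd
  obtain ⟨h1, h2⟩ := h
  have := sg_near v2 t.symm.le (by linarith)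
  exact ⟨by linarith, by linarith, by linarith⟩

lemma station (hv : Tiny v) : ∃ x y, UU x y ∧ EFace v x y := by
  obtain ⟨A, ρ⟩ := v
  obtain ⟨h1, h2, h3⟩ := hv
  simp only at h1 h2 h3
  obtain ⟨u, u1, hu⟩ := exists_unit A
  have w1 : ‖-u‖ = 1 := by rwa [norm_neg]
  have hA : A = pt (-u) (-‖A‖) 0 := by
    nth_rewrite 1 [hu]
    apply Complex.ext <;> simp [pt] <;> ring
  obtain ⟨r, hr⟩ : ∃ r, r = sg A / 1000 := ⟨_, rfl⟩
  have r0 : 0 < r := by linarith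
  have ρ0 : 0 < ρ := by linarith
  obtain ⟨d, hd⟩ : ∃ d, d = √(2 * r * ρ + ρ ^ 2) := ⟨_, rfl⟩
  have d0 : 0 < d := by rw [hd]; positivity
  have d2 : d ^ 2 = 2 * r * ρ + ρ ^ 2 := by rw [hd]; exact Real.sq_sqrt (by positivity)
  have d3 : d ≤ r := le_of_sq_le_sq (by nlinarith) r0.le
  have s1 := sg_le A
  have n0 := norm_nonneg A
  have n1 : ‖A‖ ≤ 1 := by unfold sg at h1; nlinarith
  have e : 1000 * r = 1 - ‖A‖ ^ 2 := by rw [hr, sg]; ring
  refine ⟨_, _, ⟨-u, ‖A‖ - d, r, w1, by linarith, r0, rfl, rfl, by nlinarith, by nlinarith⟩, ?_⟩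
  rw [hA]
  refine ⟨pt_dist w1 (by positivity) ?_, pt_dist w1 (by positivity) ?_,
    pt_dist w1 (by positivity) ?_, ?_⟩ <;> simp only [← hA]
  · linarith
  · ring
  · linarith
  · rw [hA, pt_ori w1, ← hA]; nlinarith

/-- The children of a vertex. -/
structure Fan (n : ℕ) (v : ℂ × ℝ) (s : ℕ → ℂ × ℝ) : Prop where
  face : ∀ j < n, EFace v (s j) (s (j + 1))
  sm : ∀ j, 0 < j → j < n → Sm v (s j) ∨
    Tiny v ∧ (j = 200 ∨ j = 201 ∨ j + 201 = n ∨ j + 200 = n)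
  uu : Tiny v → ∀ j, j = 200 ∨ j + 201 = n → UU (s j) (s (j + 1))

lemma exists_fan (k : ℕ) (v x y : ℂ × ℝ) : ∃ s : ℕ → ℂ × ℝ, Good v → 0 < x.2 → 0 < y.2 →
    Tg v x → Tg v y → Fan (mN k) v s ∧ s 0 = x ∧ s (mN k) = y := by
  by_cases H : Good v ∧ 0 < x.2 ∧ 0 < y.2 ∧ Tg v x ∧ Tg v y
  swap
  · exact ⟨fun _ => v, fun a b c d e => absurd ⟨a, b, c, d, e⟩ H⟩
  obtain ⟨hv, x0, y0, tx, ty⟩ := H
  suffices h : ∃ s, Fan (mN k) v s ∧ s 0 = x ∧ s (mN k) = y by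
    obtain ⟨s, hs⟩ := h
    exact ⟨s, fun _ _ _ _ _ => hs⟩
  obtain ⟨v1, v2, v3, v4⟩ := hv.bd
  obtain ⟨t, ht⟩ : ∃ t, t = sg v.1 / 10 ^ 40 := ⟨_, rfl⟩
  have t0 : 0 < t := by rw [ht]; positivity
  have t2 : t ≤ 2 * v.2 := by linarith
  have sm : ∀ c : ℂ × ℝ, t ≤ c.2 ∧ c.2 ≤ 2 * t → Sm v c := fun c h => ⟨by linarith, by linarith⟩
  by_cases hT : Tiny v
  · obtain ⟨X, Y, hU, hF⟩ := station hT
    have X0 := (Good.bd (Or.inr hU.huge.1)).1
    have Y0 := (Good.bd (Or.inr hU.huge.2)).1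
    have tY : Tg v Y := Tg.symm hF.t3
    have big : ∀ n : ℕ, 200 ≤ n → 4 * (2 * t + v.2) ^ 2 ≤ (n - 2) * t ^ 2 := by
      intro n hn
      have h1 : (200 : ℝ) ≤ n := by exact_mod_cast hn
      have h2 : v.2 ≤ 3 * t := by linarith [hT.2.2]
      have h3 : (2 * t + v.2) ^ 2 ≤ (5 * t) ^ 2 := pow_le_pow_left₀ (by linarith) (by linarith) 2
      nlinarith [sq_nonneg t]
    obtain ⟨m, hm⟩ : ∃ m, mN k = m + 402 := ⟨mN k - 402, by have := mN_ge k; omega⟩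
    have m1 : 200 ≤ m := by have := mN_ge k; omega
    obtain ⟨s1, a1, b1, c1, d1⟩ := chainE v1 x0 X0 tx hF.t1 t0 t2 (n := 200) (by norm_num)
      (big _ le_rfl)
    obtain ⟨s2, a2, b2, c2, d2⟩ := chainE v1 Y0 X0 tY hF.t1 t0 t2 (n := m) (by omega) (big _ m1)
    obtain ⟨s3, a3, b3, c3, d3⟩ := chainE v1 Y0 y0 tY ty t0 t2 (n := 200) (by norm_num)
      (big _ le_rfl)
    let s : ℕ → ℂ × ℝ := fun j =>
      if j ≤ 200 then s1 j else if j ≤ m + 201 then s2 (j - 201) else s3 (j - (m + 202))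
    have e1 : ∀ j, j ≤ 200 → s j = s1 j := fun j h => if_pos h
    have e2 : ∀ j, j ≤ m → s (j + 201) = s2 j := fun j h => by
      simp only [s]; rw [if_neg (by omega), if_pos (by omega), Nat.add_sub_cancel]
    have e3 : ∀ j, s (j + (m + 202)) = s3 j := fun j => by
      simp only [s]; rw [if_neg (by omega), if_neg (by omega), Nat.add_sub_cancel]
    have f1 : s 200 = X ∧ s (200 + 1) = Y := ⟨(e1 _ le_rfl).trans b1, (e2 0 (by omega)).trans a2⟩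
    have f2 : s (m + 201) = X ∧ s (m + 201 + 1) = Y :=
      ⟨(e2 _ le_rfl).trans b2, by rw [← a3, ← e3, zero_add]⟩
    rw [hm]
    refine ⟨s, ⟨fun j hj => ?_, fun j j0 hj => ?_, fun _ j hj => ?_⟩, (e1 0 (by omega)).trans a1,
      by rw [← b3, ← e3, show 200 + (m + 202) = m + 402 by omega]⟩
    · rcases lt_trichotomy j 200 with h | rfl | h
      · rw [e1 _ h.le, e1 _ h]; exact c1 j
      · rw [f1.1, f1.2]; exact hF
      · rcases lt_trichotomy j (m + 201) with h' | rfl | h'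
        · obtain ⟨i, rfl⟩ : ∃ i, j = i + 201 := ⟨j - 201, by omega⟩
          rw [add_right_comm, e2 _ (by omega), e2 _ (by omega)]; exact c2 i
        · rw [f2.1, f2.2]; exact hF
        · obtain ⟨i, rfl⟩ : ∃ i, j = i + (m + 202) := ⟨j - (m + 202), by omega⟩
          rw [add_right_comm, e3, e3]; exact c3 i
    · by_cases h : j = 200 ∨ j = 201 ∨ j + 201 = m + 402 ∨ j + 200 = m + 402
      · exact Or.inr ⟨hT, h⟩
      left
      rcases lt_or_ge j 200 with h1 | h1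
      · rw [e1 _ h1.le]; exact sm _ (d1 j j0 h1)
      · rcases lt_or_ge j (m + 201) with h' | h'
        · obtain ⟨i, rfl⟩ : ∃ i, j = i + 201 := ⟨j - 201, by omega⟩
          rw [e2 _ (by omega)]; exact sm _ (d2 i (by omega) (by omega))
        · obtain ⟨i, rfl⟩ : ∃ i, j = i + (m + 202) := ⟨j - (m + 202), by omega⟩
          rw [e3]; exact sm _ (d3 i (by omega) (by omega))
    · rcases hj with rfl | hj
      · rw [f1.1, f1.2]; exact hU
      · obtain rfl : j = m + 201 := by omega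
        rw [f2.1, f2.2]; exact hU
  · have big : 4 * (2 * t + v.2) ^ 2 ≤ ((mN k : ℕ) - 2) * t ^ 2 := by
      have h1 : (10 : ℝ) ^ 90 ≤ hN := by exact_mod_cast hN_ge
      have h3 : (2 * t + v.2) ^ 2 ≤ (10 ^ 40 * t) ^ 2 :=
        pow_le_pow_left₀ (by linarith) (by linarith) 2
      rw [mN_eq]
      push_cast
      nlinarith [sq_nonneg t]
    obtain ⟨s, a1, b1, c1, d1⟩ := chainE v1 x0 y0 tx ty t0 t2 (n := mN k)
      (by have := mN_ge k; omega) big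
    exact ⟨s, ⟨fun j _ => c1 j, fun j j0 hj => Or.inl (sm _ (d1 j j0 hj)), fun h => absurd h hT⟩,
      a1, b1⟩

/-- The common child of two neighbours. -/
structure St (a b s : ℂ × ℝ) : Prop where
  face : EFace b a s
  good : Good s
  uu : UU a b → sg (tp a b) ≤ 3 / 4 → 1376 / 1375 * sg (tp a b) ≤ sg (tp a s) ∧
    1376 / 1375 * sg (tp a b) ≤ sg (tp b s)
  nu : ¬UU a b → 10 ^ 40 * s.2 = sg (tp a b)

lemma exists_st (a b : ℂ × ℝ) : ∃ s, Good a → Good b → Tg a b → St a b s := by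
  by_cases hU : UU a b
  · obtain ⟨w, t, r, hw, t1, r0, rfl, rfl, h1, h2⟩ := hU
    have r1 : r ≤ 1 / 900 := by nlinarith [sq_nonneg t]
    have t2 : t ≤ 1 := by nlinarith
    have q2 : √3 ^ 2 = 3 := Real.sq_sqrt (by norm_num)
    have q0 : 17 / 10 ≤ √3 := Real.le_sqrt_of_sq_le (by norm_num)
    have q1 : √3 ≤ 2 := by nlinarith
    obtain ⟨q, hq⟩ : ∃ q, q = √3 * r := ⟨_, rfl⟩
    have q3 : q ^ 2 = 3 * r ^ 2 := by rw [hq, mul_pow, q2]
    have q4 : 17 / 10 * r ≤ q := by rw [hq]; nlinarith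
    have q5 : q ≤ 2 * r := by rw [hq]; nlinarith
    refine ⟨(pt w (-t + q) 0, r), fun _ _ _ => ⟨⟨pt_dist hw (by positivity) ?_,
      pt_dist hw (by positivity) ?_, pt_dist hw (by positivity) ?_, ?_⟩,
      Or.inr ⟨?_, ?_, ?_⟩, fun _ => ?_, fun h => absurd ⟨w, t, r, hw, t1, r0, rfl, rfl, h1, h2⟩ h⟩⟩
    · ring
    · simp only; linarith
    · simp only; linarith
    · simp only [pt_ori hw]; nlinarith
    · simp only [sg_pt hw]; nlinarith
    · simp only [sg_pt hw]; nlinarith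
    · simp only [sg_pt hw]; nlinarith
    · simp only [tp_pt w _ _ _ _ r0, sg_pt hw]
      intro h
      have t3 : 1 / 2 ≤ t := by nlinarith
      constructor <;> nlinarith
  · obtain ⟨s, hs⟩ := third_euc b a (sg (tp a b) / 10 ^ 40)
    refine ⟨s, fun ha hb t => ?_⟩
    obtain ⟨a1, a2, a3, -⟩ := ha.bd
    obtain ⟨p1, p2, p3⟩ := t.tp ha hb
    obtain ⟨f, e⟩ := hs hb.bd.1 a1 t.symm (by linarith)
    have := sg_near a2 (Tg.symm f.t2).le (by linarith)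
    exact ⟨f, Or.inl ⟨by linarith, by linarith, by linarith⟩, fun h => absurd h hU,
      fun _ => by linarith⟩

/-- One half of the children edges of an edge. -/
lemma half {n : ℕ} {c : ℕ → ℂ × ℝ} (hv : Good v) (ho : Good o) (t : Tg v o)
    (g : ∀ j ≤ n, Good (c j)) (tv : ∀ j ≤ n, Tg v (c j)) (tc : ∀ j < n, Tg (c j) (c (j + 1)))
    (sm : ∀ j, 0 < j → j ≤ n → Sm v (c j) ∨ Tiny v) (tz : Tg o (c 0)) {j : ℕ} (hj : j < n) :
    59 / 60 * sg (tp v o) ≤ sg (tp (c j) (c (j + 1))) ∧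
    sg (tp (c j) (c (j + 1))) ≤ 61 / 60 * sg (tp v o) ∧ (j < 10 ^ 18 →
      (Tiny v ∨ Tiny o ∧ 10 ^ 40 * (c 0).2 = sg (tp v o) →
        (1 - 1 / 10 ^ 18) * sg (tp v o) ≤ sg (tp (c j) (c (j + 1)))) ∧
      (¬Tiny v → sg (tp v (c 0)) - sg (tp v o) / 10 ^ 19 ≤ sg (tp (c j) (c (j + 1))))) := by
  obtain ⟨v1, v2, v3, -⟩ := hv.bd
  obtain ⟨p1, p2, p3⟩ := t.tp hv ho
  have cb : ∀ j ≤ n, 0 < (c j).2 ∧ 490 * (c j).2 ≤ sg v.1 := by
    intro j hj
    obtain ⟨c1, c2, c3, -⟩ := (g j hj).bd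
    obtain ⟨-, -, q1⟩ := (tv j hj).tp hv (g j hj)
    obtain ⟨-, q2, -⟩ := (tv j hj).symm.tp (g j hj) hv
    rw [tp_comm] at q2
    exact ⟨c1, by linarith⟩
  have σ0 : 0 < sg (tp v o) := by linarith
  have n1 := norm_sub_le_norm_sub_add_norm_sub (tp (c j) (c (j + 1))) v.1 (tp v o)
  rw [norm_sub_rev v.1, p1] at n1
  obtain ⟨c1, c2⟩ := cb j hj.le
  obtain ⟨c3, c4⟩ := cb (j + 1) hj
  have far : ‖tp (c j) (c (j + 1)) - tp v o‖ ≤ sg (tp v o) / 120 := by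
    have n2 := norm_sub_le_norm_sub_add_norm_sub (tp (c j) (c (j + 1))) (c j).1 v.1
    rw [tp_left c1 c3 (tc j hj), (tv j hj.le).symm] at n2
    linarith
  have f := sg_near σ0 far (by linarith)
  refine ⟨by linarith, by linarith, fun hJ => ?_⟩
  have k2 : ¬Tiny v → sg (tp v (c 0)) - sg (tp v o) / 10 ^ 19 ≤ sg (tp (c j) (c (j + 1))) := by
    intro hT
    have sm' : ∀ j, 0 < j → j ≤ n → 10 ^ 40 * (c j).2 ≤ 2 * sg v.1 := fun j j0 j1 =>
      ((sm j j0 j1).resolve_right hT).2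
    have d1 : ∀ j < n, ‖(c (j + 1)).1 - (c 1).1‖ ≤ j * (4 * sg v.1 / 10 ^ 40) := by
      intro j hj
      induction j with
      | zero => simp
      | succ j ih =>
        have := norm_sub_le_norm_sub_add_norm_sub (c (j + 1 + 1)).1 (c (j + 1)).1 (c 1).1
        rw [(tc (j + 1) hj).symm] at this
        push_cast
        linarith [ih (by omega), sm' (j + 1) (by omega) (by omega), sm' (j + 1 + 1) (by omega) hj]
    have d2 := d1 j hj
    have d3 : (j : ℝ) * (4 * sg v.1 / 10 ^ 40) ≤ 10 ^ 18 * (4 * sg v.1 / 10 ^ 40) :=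
      mul_le_mul_of_nonneg_right (by exact_mod_cast hJ.le) (by positivity)
    have n0 : 0 < n := by omega
    have d4 : ‖tp v (c 0) - (c 1).1‖ ≤ sg v.1 / 10 ^ 20 := by
      have e1 := (cb 1 n0).1
      have e2 := sm' 1 one_pos n0
      refine stewart e1 v1 (cb 0 n0.le).1 (tv 1 n0).symm (tc 0 n0).symm (tv 0 n0.le)
        (by positivity) ?_
      have e3 : (c 1).2 * ((c 1).2 + 4 * v.2) ≤ (2 * sg v.1 / 10 ^ 40) * (sg v.1 / 100) :=
        mul_le_mul (by linarith) (by linarith) (by positivity) (by positivity)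
      nlinarith [sq_nonneg (sg v.1)]
    have d5 := tp_left c3 c1 (tc j hj).symm
    rw [tp_comm] at d5
    have n2 := norm_sub_le_norm_sub_add_norm_sub (tp (c j) (c (j + 1))) (c (j + 1)).1 (c 1).1
    have n3 := norm_sub_le_norm_sub_add_norm_sub (tp (c j) (c (j + 1))) (c 1).1 (tp v (c 0))
    rw [norm_sub_rev (c 1).1] at n3
    obtain ⟨-, q1, -⟩ := (tv 0 n0.le).tp hv (g 0 n0.le)
    have d6 := sm' (j + 1) (by omega) hj
    have := (sg_near (z := tp v (c 0)) (w := tp (c j) (c (j + 1))) (d := sg (tp v o) / 10 ^ 19 / 2)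
      (by linarith) (by linarith) (by linarith)).1
    linarith
  refine ⟨fun h => ?_, k2⟩
  by_cases hT : Tiny v
  · have e2 := hT.2.2
    have d4 : ‖tp (c j) (c (j + 1)) - v.1‖ ≤ sg v.1 / 10 ^ 20 := by
      refine stewart v1 c1 c3 (tv j hj.le) (tv (j + 1) hj) (tc j hj) (by positivity) ?_
      have e3 : v.2 * (v.2 + 4 * (c j).2) ≤ (3 * sg v.1 / 10 ^ 40) * (sg v.1 / 100) :=
        mul_le_mul (by linarith) (by linarith) (by positivity) (by positivity)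
      nlinarith [sq_nonneg (sg v.1)]
    have := (sg_near (w := tp (c j) (c (j + 1))) (d := sg (tp v o) / 10 ^ 19) σ0 (by linarith)
      (by linarith)).1
    linarith
  · obtain ⟨h1, h2⟩ := h.resolve_left hT
    have n0 : 0 < n := by omega
    obtain ⟨r1, r2, -⟩ := t.symm.tp ho hv
    rw [tp_comm] at r1 r2
    have r3 := tp_left (cb 0 n0.le).1 v1 (tv 0 n0.le).symm
    rw [tp_comm] at r3
    have n2 := norm_sub_le_norm_sub_add_norm_sub (tp v (c 0)) (c 0).1 o.1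
    have n3 := norm_sub_le_norm_sub_add_norm_sub (tp v (c 0)) o.1 (tp v o)
    rw [norm_sub_rev o.1, r1] at n3
    rw [r3, tz.symm] at n2
    have := (sg_near (w := tp v (c 0)) (d := sg (tp v o) / 10 ^ 19) σ0 (by linarith [h1.2.2])
      (by linarith)).1
    linarith [k2 hT]

end Pool.Agent.P.MP_3555ad_an.Bd
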